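import Mathlib

/-!
A Liouville number with very fast growing powers of two as denominators.
-/

namespace Pool.Agent.MP545af4

open Finset

/-- The exponents `n_0 = 2`, `n_{k+1} = 4 ^ n_k`. -/
def expo : ℕ → ℕ
  | 0 => 2
  | k + 1 => 4 ^ expo k

/-- The denominators `Q_k = 2 ^ n_k`; `Q_{k+1} = 2 ^ (Q_k ^ 2)`. -/
def Q (k : ℕ) : ℕ := 2 ^ expo k

/-- The rotation number `α = ∑ 1 / Q_k`. -/
noncomputable def alpha : ℝ := ∑' k, 1 / (Q k : ℝ)

/-- The remainders `δ_k = Q_k ∑_{j > k} 1 / Q_j`. -/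
noncomputable def del (k : ℕ) : ℝ := Q k * ∑' j, 1 / (Q (j + (k + 1)) : ℝ)

lemma expo_succ (k : ℕ) : expo (k + 1) = 4 ^ expo k := rfl

lemma Q_succ (k : ℕ) : Q (k + 1) = 2 ^ (Q k ^ 2) := by
  unfold Q
  rw [expo_succ, ← pow_mul, mul_comm, pow_mul]
  norm_num

lemma expo_lt (k : ℕ) : expo k < expo (k + 1) := by
  rw [expo_succ]
  exact Nat.lt_pow_self (by norm_num)

lemma expo_mono : StrictMono expo := strictMono_nat_of_lt_succ expo_lt

lemma expo_ge (k : ℕ) : k + 2 ≤ expo k := by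
  induction k with
  | zero => exact le_rfl
  | succ k ih =>
    have := expo_lt k
    omega

lemma Q_pos (k : ℕ) : 0 < Q k := by unfold Q; positivity

lemma Q_mono : StrictMono Q := fun _ _ h => Nat.pow_lt_pow_right (by norm_num) (expo_mono h)

lemma Q_ge (k : ℕ) : 4 ≤ Q k := by
  unfold Q
  calc 4 = 2 ^ 2 := by norm_num
    _ ≤ 2 ^ expo k := Nat.pow_le_pow_right (by norm_num) (by have := expo_ge k; omega)

lemma Q_gt (k : ℕ) : k < Q k := by
  have h1 : expo k < 2 ^ expo k := Nat.lt_pow_self (by norm_num)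
  have h2 := expo_ge k
  unfold Q
  omega

lemma Q_even (k : ℕ) : ∃ h : ℕ, 0 < h ∧ Q k = 2 * h := by
  refine ⟨2 ^ (expo k - 1), by positivity, ?_⟩
  unfold Q
  rw [← pow_succ']
  congr 1
  have := expo_ge k
  omega

lemma Q_dvd {j k : ℕ} (h : j ≤ k) : Q j ∣ Q k := pow_dvd_pow 2 (expo_mono.monotone h)

lemma inv_Q_le (k j : ℕ) : 1 / (Q (j + k) : ℝ) ≤ 1 / Q k * (1 / 2) ^ j := by
  induction j with
  | zero => simp
  | succ j ih =>
    have h1 : 2 * Q (j + k) ≤ Q (j + 1 + k) := by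
      unfold Q
      rw [← pow_succ']
      apply Nat.pow_le_pow_right (by norm_num)
      have := expo_lt (j + k)
      rw [show j + 1 + k = j + k + 1 by ring]
      omega
    have h2 : (2 : ℝ) * Q (j + k) ≤ Q (j + 1 + k) := by exact_mod_cast h1
    have h3 : (0 : ℝ) < Q (j + k) := by exact_mod_cast Q_pos _
    have h4 : (0 : ℝ) < Q (j + 1 + k) := by exact_mod_cast Q_pos _
    calc 1 / (Q (j + 1 + k) : ℝ) ≤ 1 / (2 * Q (j + k)) := by
          apply one_div_le_one_div_of_le (by positivity) h2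
      _ = 1 / Q (j + k) * (1 / 2) := by rw [one_div_mul_one_div, mul_comm]
      _ ≤ 1 / Q k * (1 / 2) ^ j * (1 / 2) := by gcongr
      _ = _ := by rw [pow_succ]; ring

lemma summable_tail (k : ℕ) : Summable fun j => 1 / (Q (j + k) : ℝ) := by
  refine Summable.of_nonneg_of_le (fun j => by positivity) (inv_Q_le k) ?_
  exact (summable_geometric_two).mul_left _

lemma tail_ge (k : ℕ) : 1 / (Q k : ℝ) ≤ ∑' j, 1 / (Q (j + k) : ℝ) := by
  have := (summable_tail k).le_tsum 0 (fun j _ => by positivity)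
  simpa using this

lemma tail_le (k : ℕ) : ∑' j, 1 / (Q (j + k) : ℝ) ≤ 2 / (Q k : ℝ) := by
  have h1 := (summable_tail k).tsum_le_tsum (inv_Q_le k) (summable_geometric_two.mul_left _)
  rw [tsum_mul_left, tsum_geometric_two] at h1
  refine h1.trans (le_of_eq ?_)
  ring

lemma del_ge (k : ℕ) : (Q k : ℝ) / Q (k + 1) ≤ del k := by
  unfold del
  have h1 := tail_ge (k + 1)
  have h2 : (0 : ℝ) < Q k := by exact_mod_cast Q_pos _
  calc (Q k : ℝ) / Q (k + 1) = Q k * (1 / Q (k + 1)) := by ring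
    _ ≤ _ := by gcongr

lemma del_le (k : ℕ) : del k ≤ 2 * Q k / Q (k + 1) := by
  unfold del
  have h1 := tail_le (k + 1)
  have h2 : (0 : ℝ) < Q k := by exact_mod_cast Q_pos _
  calc Q k * ∑' j, 1 / (Q (j + (k + 1)) : ℝ) ≤ Q k * (2 / Q (k + 1)) := by gcongr
    _ = _ := by ring

lemma del_pos (k : ℕ) : 0 < del k := by
  have h2 : (0 : ℝ) < Q k := by exact_mod_cast Q_pos _
  have h3 : (0 : ℝ) < Q (k + 1) := by exact_mod_cast Q_pos _
  exact lt_of_lt_of_le (by positivity) (del_ge k)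

/-- `Q_k α` is an integer plus `δ_k`. -/
lemma Q_mul_alpha (k : ℕ) : ∃ A : ℤ, (Q k : ℝ) * alpha = A + del k := by
  have h0 : Summable fun j => 1 / (Q j : ℝ) := by simpa using summable_tail 0
  have h1 := h0.sum_add_tsum_nat_add (k + 1)
  refine ⟨∑ j ∈ range (k + 1), ((Q k / Q j : ℕ) : ℤ), ?_⟩
  unfold alpha del
  rw [← h1, mul_add]
  congr 1
  rw [Finset.mul_sum, Int.cast_sum]
  apply Finset.sum_congr rfl
  intro j hj
  have hd : Q j ∣ Q k := Q_dvd (by have := Finset.mem_range.1 hj; omega)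
  have h2 : (Q j : ℝ) ≠ 0 := by exact_mod_cast (Q_pos j).ne'
  rw [Int.cast_natCast, Nat.cast_div hd h2]
  ring

lemma alpha_pos : 0 < alpha := by
  have h1 := tail_ge 0
  simp only [add_zero] at h1
  have h2 : (0 : ℝ) < Q 0 := by exact_mod_cast Q_pos _
  unfold alpha
  exact lt_of_lt_of_le (by positivity) h1

lemma alpha_lt_one : alpha < 1 := by
  have h1 := tail_le 0
  simp only [add_zero] at h1
  unfold alpha
  refine lt_of_le_of_lt h1 ?_
  have : (4 : ℝ) ≤ Q 0 := by exact_mod_cast Q_ge 0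
  rw [div_lt_one (by linarith)]
  linarith

/-- Approximation by rationals. -/
lemma alpha_approx (k : ℕ) : ∃ A : ℤ, 0 < alpha - A / Q k ∧
    alpha - A / Q k ≤ 2 / 2 ^ (Q k ^ 2) := by
  obtain ⟨A, hA⟩ := Q_mul_alpha k
  have h1 := del_pos k
  have h2 := del_le k
  have h3 : (0 : ℝ) < Q k := by exact_mod_cast Q_pos _
  have h4 : alpha - A / Q k = del k / Q k := by
    field_simp
    linarith
  refine ⟨A, ?_, ?_⟩
  · rw [h4]; positivity
  · rw [h4, div_le_iff₀ h3]
    refine h2.trans (le_of_eq ?_)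
    rw [Q_succ]
    push_cast
    ring

lemma alpha_liouville : Liouville alpha := by
  intro n
  obtain ⟨A, hA1, hA2⟩ := alpha_approx (n + 1)
  refine ⟨A, Q (n + 1), ?_, ?_, ?_⟩
  · have := Q_ge (n + 1)
    exact_mod_cast (by omega : 1 < Q (n + 1))
  · intro heq
    rw [heq] at hA1
    simp at hA1
  · push_cast
    rw [abs_of_pos hA1]
    refine lt_of_le_of_lt hA2 ?_
    have hQ := Q_gt (n + 1)
    have h1 : (Q (n + 1)) ^ n * 2 < 2 ^ (Q (n + 1) ^ 2) := by
      have h2 : (Q (n + 1)) < 2 ^ (Q (n + 1)) := Nat.lt_pow_self (by norm_num)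
      calc (Q (n + 1)) ^ n * 2 ≤ (2 ^ (Q (n + 1))) ^ n * 2 := by gcongr
        _ = 2 ^ (Q (n + 1) * n + 1) := by rw [← pow_mul, pow_succ]
        _ < 2 ^ (Q (n + 1) ^ 2) := by
          apply Nat.pow_lt_pow_right (by norm_num)
          nlinarith
    have h3 : (0 : ℝ) < Q (n + 1) := by exact_mod_cast Q_pos _
    rw [div_lt_div_iff₀ (by positivity) (by positivity)]
    have : ((Q (n + 1)) ^ n * 2 : ℝ) < 2 ^ (Q (n + 1) ^ 2) := by exact_mod_cast h1
    linarith

end Pool.Agent.MP545af4
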