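import Pool.Agent.Lib.MP_545af4_pr.StageFast

/-!
Numerical estimates of the explicit bounds.
-/

namespace Pool.Agent.MP545af4

/-- Hypotheses on the size of `Y` (where `Y ^ 40 = 1 / δ`) compared with `Q` and `C`. -/
structure Big (C Y : ℝ) (Q : ℕ) : Prop where
  C1 : 1 ≤ C
  Y1 : 100 ≤ Y
  Q2 : 2 ≤ Q
  sub : Real.exp (Q * C + 1) * (100 * (Q * C)) ≤ Y
  ex : 1000 * Y ^ 200 * Real.exp (-Y) ≤ 1

variable {C Y : ℝ} {Q : ℕ}

lemma Big.qc (h : Big C Y Q) : 1 ≤ (Q : ℝ) * C := by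
  have h1 : (2 : ℝ) ≤ Q := by exact_mod_cast h.Q2
  have := h.C1
  nlinarith

lemma Big.qcY (h : Big C Y Q) : 100 * ((Q : ℝ) * C) ≤ Y := by
  have h1 := h.qc
  have h2 : 1 ≤ Real.exp (Q * C + 1) := Real.one_le_exp (by linarith)
  calc 100 * ((Q : ℝ) * C) ≤ Real.exp (Q * C + 1) * (100 * (Q * C)) :=
        le_mul_of_one_le_left (by positivity) h2
    _ ≤ Y := h.sub

lemma Big.CY (h : Big C Y Q) : 2 * C ≤ Y := by
  have h1 := h.qcY
  have h2 : (2 : ℝ) ≤ Q := by exact_mod_cast h.Q2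
  have h3 := h.C1
  nlinarith

/-- Lower bound of the barrier. -/
lemma barrier_num (h : Big C Y Q) {t : ℝ} (ht : t = 1 / (2 * Y ^ 16)) {m : ℕ}
    (hm : m = ⌊Y ^ 24 / (8 * (Q * C))⌋₊) : 10 * Y ≤ m * t / 3 := by
  have hY := h.Y1
  have hY0 : 0 < Y := by linarith
  have hqc := h.qc
  have h1 : Y ^ 24 / (8 * (Q * C)) - 1 ≤ m := by
    rw [hm]
    linarith [Nat.lt_floor_add_one (Y ^ 24 / (8 * ((Q : ℝ) * C)))]
  have h2 : Y ^ 23 * 10 ≤ Y ^ 24 / (8 * (Q * C)) := by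
    rw [le_div_iff₀ (by positivity)]
    have := h.qcY
    calc Y ^ 23 * 10 * (8 * (Q * C)) = Y ^ 23 * (80 * (Q * C)) := by ring
      _ ≤ Y ^ 23 * Y := by gcongr; linarith
      _ = Y ^ 24 := by ring
  have h3 : Y ^ 23 * 9 ≤ m := by
    have : 1 ≤ Y ^ 23 := one_le_pow₀ (by linarith)
    linarith
  have h4 : 10 * Y * (6 * Y ^ 16) ≤ m := by
    have h5 : (100 : ℝ) ≤ Y ^ 6 := by
      calc (100 : ℝ) ≤ Y := hY
        _ = Y ^ 1 := (pow_one Y).symm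
        _ ≤ Y ^ 6 := pow_le_pow_right₀ (by linarith) (by norm_num)
    have h6 : 0 < Y ^ 17 := by positivity
    calc 10 * Y * (6 * Y ^ 16) = Y ^ 17 * 60 := by ring
      _ ≤ Y ^ 17 * (Y ^ 6 * 9) := by gcongr; linarith
      _ = Y ^ 23 * 9 := by ring
      _ ≤ m := h3
  rw [ht, mul_one_div, div_div, le_div_iff₀ (by positivity)]
  calc 10 * Y * (2 * Y ^ 16 * 3) = 10 * Y * (6 * Y ^ 16) := by ring
    _ ≤ (m : ℝ) := h4

lemma N_num (h : Big C Y Q) {N : ℕ} (hN : N = ⌈Y ^ 30⌉₊) :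
    Y ^ 30 ≤ N ∧ (N : ℝ) ≤ Y ^ 30 + 1 := by
  have hY := h.Y1
  have hY0 : 0 < Y := by linarith
  rw [hN]
  exact ⟨Nat.le_ceil _, (Nat.ceil_lt_add_one (by positivity)).le⟩

lemma tail_num (h : Big C Y Q) {N T e : ℝ} (hN0 : 0 ≤ N) (hN : N ≤ Y ^ 30 + 1) (hT0 : 0 ≤ T)
    (hT : T ≤ Y ^ 45) (he : e ≤ -Y) :
    (N + T) ^ 2 * ((T + 1) * (2 * ((Real.exp e + Real.exp e) * C))) ≤ 1 := by
  have hY := h.Y1
  have hY0 : 0 < Y := by linarith
  have hC := h.C1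
  have h1 : N + T ≤ 3 * Y ^ 45 := by
    have h2 : Y ^ 30 ≤ Y ^ 45 := pow_le_pow_right₀ (by linarith) (by norm_num)
    have h3 : 1 ≤ Y ^ 45 := one_le_pow₀ (by linarith)
    linarith
  have h2 : T + 1 ≤ 2 * Y ^ 45 := by
    have h3 : 1 ≤ Y ^ 45 := one_le_pow₀ (by linarith)
    linarith
  have h3 : Real.exp e ≤ Real.exp (-Y) := Real.exp_le_exp.2 he
  have h4 := h.CY
  have h5 : C ≤ Y := by linarith
  have h6 : 0 < Real.exp e := Real.exp_pos _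
  have h7 : 0 < Real.exp (-Y) := Real.exp_pos _
  calc (N + T) ^ 2 * ((T + 1) * (2 * ((Real.exp e + Real.exp e) * C)))
      ≤ (3 * Y ^ 45) ^ 2 * ((2 * Y ^ 45) * (2 * ((Real.exp (-Y) + Real.exp (-Y)) * Y))) := by
        gcongr
    _ = 72 * Y ^ 136 * Real.exp (-Y) := by ring
    _ ≤ 1000 * Y ^ 200 * Real.exp (-Y) := by
        have h8 : Y ^ 136 ≤ Y ^ 200 := pow_le_pow_right₀ (by linarith) (by norm_num)
        have h9 : (0 : ℝ) < Y ^ 200 := by positivity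
        apply mul_le_mul_of_nonneg_right _ h7.le
        nlinarith
    _ ≤ 1 := h.ex

lemma exponent_num (h : Big C Y Q) {N T t c : ℝ} (hN1 : Y ^ 30 ≤ N) (hN2 : N ≤ Y ^ 30 + 1)
    (hT0 : 0 < T) (hT : T ≤ Y ^ 45) (ht0 : 0 ≤ t) (ht : t ≤ 4 / Y ^ 16) (hc : c ≤ 3 * Y) :
    1 / 4 - N ^ 2 / (8 * T) + (N * t + c) / 2 ≤ -Y := by
  have hY := h.Y1
  have hY0 : 0 < Y := by linarith
  have h1 : Y ^ 15 / 8 ≤ N ^ 2 / (8 * T) := by
    rw [div_le_div_iff₀ (by norm_num) (by positivity)]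
    have h2 : (Y ^ 30) ^ 2 ≤ N ^ 2 := by gcongr
    calc Y ^ 15 * (8 * T) ≤ Y ^ 15 * (8 * Y ^ 45) := by gcongr
      _ = (Y ^ 30) ^ 2 * 8 := by ring
      _ ≤ N ^ 2 * 8 := by gcongr
  have h2 : N * t ≤ 8 * Y ^ 14 := by
    have h3 : N ≤ 2 * Y ^ 30 := by
      have : 1 ≤ Y ^ 30 := one_le_pow₀ (by linarith)
      linarith
    have hN0 : 0 ≤ N := le_trans (by positivity) hN1
    calc N * t ≤ (2 * Y ^ 30) * (4 / Y ^ 16) := by gcongr
      _ = 8 * Y ^ 14 := by field_simp; ring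
  have h3 : 100 * Y ^ 14 ≤ Y ^ 15 := by
    have : 0 < Y ^ 14 := by positivity
    calc 100 * Y ^ 14 ≤ Y * Y ^ 14 := by gcongr
      _ = Y ^ 15 := by ring
  have h4 : Y ≤ Y ^ 14 := by
    calc Y = Y ^ 1 := (pow_one Y).symm
      _ ≤ Y ^ 14 := pow_le_pow_right₀ (by linarith) (by norm_num)
  linarith

/-- The fast bound is small. -/
lemma fast_num (h : Big C Y Q) {t : ℝ} (ht : t = 1 / (2 * Y ^ 16)) {m N T : ℕ}
    (hm : m = ⌊Y ^ 24 / (8 * (Q * C))⌋₊) (hN : N = ⌈Y ^ 30⌉₊) (hT1 : Y ^ 40 ≤ T)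
    (hT2 : T ≤ Y ^ 45) : fastBound C t Q N m T ≤ T * Y ^ 36 := by
  have hY := h.Y1
  have hY0 : 0 < Y := by linarith
  have hC := h.C1
  have hC0 : 0 < C := by linarith
  have hqc := h.qc
  have hqcY := h.qcY
  have hCY := h.CY
  have hD := barrier_num h ht hm
  obtain ⟨hN1, hN2⟩ := N_num h hN
  have hT0 : (0 : ℝ) < T := lt_of_lt_of_le (by positivity) hT1
  have hQ0 : (0 : ℝ) < Q := by
    have := h.Q2
    exact_mod_cast (by omega : 0 < Q)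
  unfold fastBound
  set D : ℝ := m * t / 3 with hDdef
  -- E1
  have hE1 : Real.exp (Q * C + 1 - D) * (1 + 2 * T) ≤ 1 := by
    have h1 : Real.exp (Q * C + 1 - D) ≤ Real.exp (-Y) := Real.exp_le_exp.2 (by linarith)
    have h2 : (1 : ℝ) ≤ Y ^ 45 := one_le_pow₀ (by linarith)
    calc Real.exp (Q * C + 1 - D) * (1 + 2 * T) ≤ Real.exp (-Y) * (3 * Y ^ 45) := by
          gcongr; linarith
      _ = 3 * Y ^ 45 * Real.exp (-Y) := by ring
      _ ≤ 1000 * Y ^ 200 * Real.exp (-Y) := by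
          have h8 : Y ^ 45 ≤ Y ^ 200 := pow_le_pow_right₀ (by linarith) (by norm_num)
          have h9 : (0 : ℝ) < Y ^ 200 := by positivity
          apply mul_le_mul_of_nonneg_right _ (Real.exp_pos _).le
          nlinarith
      _ ≤ 1 := h.ex
  -- E2
  have hE2 : Real.exp (Q * C + 1) * (2 / (t / (3 * Q))) * C ≤ Y ^ 17 := by
    have e1 : Real.exp (Q * C + 1) * (2 / (t / (3 * Q))) * C =
        Real.exp (Q * C + 1) * (12 * (Q * C)) * Y ^ 16 := by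
      rw [ht]
      field_simp
      ring
    rw [e1]
    have h1 := h.sub
    have h2 : Real.exp (Q * C + 1) * (12 * (Q * C)) ≤ Y := by
      refine le_trans ?_ h1
      gcongr
      norm_num
    calc Real.exp (Q * C + 1) * (12 * (Q * C)) * Y ^ 16 ≤ Y * Y ^ 16 := by gcongr
      _ = Y ^ 17 := by ring
  have hE20 : 0 ≤ Real.exp (Q * C + 1) * (2 / (t / (3 * Q))) * C := by
    rw [ht]; positivity
  have hsq : (Real.exp (Q * C + 1 - D) * (1 + 2 * T) +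
      Real.exp (Q * C + 1) * (2 / (t / (3 * Q))) * C) ^ 2 ≤ 4 * Y ^ 34 := by
    have h1 : (1 : ℝ) ≤ Y ^ 17 := one_le_pow₀ (by linarith)
    calc _ ≤ (2 * Y ^ 17) ^ 2 := by
          apply pow_le_pow_left₀ (by positivity)
          linarith
      _ = 4 * Y ^ 34 := by ring
  -- E3
  have hE3 : (T : ℝ) ^ 2 * ((T + 1) * (Real.exp (-(D - (Q * C + 1)) / 2) * C)) ≤ 1 := by
    have h1 := tail_num h (N := 0) (e := -(D - (Q * C + 1)) / 2) le_rfl (by positivity) hT0.le hT2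
      (by linarith)
    refine le_trans ?_ h1
    rw [zero_add]
    have h2 : 0 < Real.exp (-(D - (Q * C + 1)) / 2) := Real.exp_pos _
    apply mul_le_mul_of_nonneg_left _ (sq_nonneg _)
    apply mul_le_mul_of_nonneg_left _ (by positivity)
    have := mul_pos h2 hC0
    linarith
  -- E4
  have ht0 : 0 ≤ 2 * t := by rw [ht]; positivity
  have hE4 : ((N : ℝ) + T) ^ 2 * ((T + 1) * (2 *
    ((Real.exp (1 / 4 - N ^ 2 / (8 * T) + (N * (2 * t) + (Q * C + 1) + C) / 2) +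
      Real.exp (-(D - (Q * C + 1) - C) / 2)) * C))) ≤ 1 := by
    have h1 : (1 : ℝ) / 4 - N ^ 2 / (8 * T) + (N * (2 * t) + (Q * C + 1) + C) / 2 ≤ -Y := by
      have := exponent_num h (N := N) (T := T) (t := 2 * t) (c := (Q * C + 1) + C) hN1 hN2 hT0 hT2
        ht0 (by
          rw [ht, show 2 * (1 / (2 * Y ^ 16)) = 1 / Y ^ 16 by field_simp]
          exact div_le_div_of_nonneg_right (by norm_num) (by positivity)) (by linarith)
      rw [← add_assoc] at this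
      exact this
    have h2 : -(D - (Q * C + 1) - C) / 2 ≤ -Y := by linarith
    have h3 := tail_num h (N := N) (e := -Y) (by positivity) hN2 hT0.le hT2 le_rfl
    refine le_trans ?_ h3
    gcongr
  have hN3 : (N : ℝ) ^ 2 ≤ 4 * Y ^ 60 := by
    have h1 : (1 : ℝ) ≤ Y ^ 30 := one_le_pow₀ (by linarith)
    calc (N : ℝ) ^ 2 ≤ (2 * Y ^ 30) ^ 2 := by
          apply pow_le_pow_left₀ (by positivity)
          linarith
      _ = 4 * Y ^ 60 := by ring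
  have hfin : 2 * (T * (4 * Y ^ 34) + 1) + 2 * (4 * Y ^ 60 + 1) ≤ T * Y ^ 36 := by
    have h1 : Y ^ 60 ≤ T * Y ^ 20 := by
      calc Y ^ 60 = Y ^ 40 * Y ^ 20 := by ring
        _ ≤ T * Y ^ 20 := by gcongr
    have h2 : Y ^ 20 ≤ Y ^ 34 := pow_le_pow_right₀ (by linarith) (by norm_num)
    have h3 : (1 : ℝ) ≤ T * Y ^ 34 := by
      have : (1 : ℝ) ≤ Y ^ 34 := one_le_pow₀ (by linarith)
      have : (1 : ℝ) ≤ Y ^ 40 := one_le_pow₀ (by linarith)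
      nlinarith
    have h4 : T * Y ^ 20 ≤ T * Y ^ 34 := by gcongr
    have h5 : 100 * (T * Y ^ 34) ≤ T * Y ^ 36 := by
      have : (100 : ℝ) ≤ Y ^ 2 := by nlinarith
      calc 100 * (T * Y ^ 34) ≤ Y ^ 2 * (T * Y ^ 34) := by gcongr
        _ = T * Y ^ 36 := by ring
    linarith
  refine le_trans ?_ hfin
  have hT' : (T : ℝ) * (Real.exp (Q * C + 1 - D) * (1 + 2 * T) +
      Real.exp (Q * C + 1) * (2 / (t / (3 * Q))) * C) ^ 2 ≤ T * (4 * Y ^ 34) := by gcongr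
  linarith

/-- The slow bound is small. -/
lemma slow_num (h : Big C Y Q) {t δ : ℝ} (ht : t = 1 / Y ^ 16) (hδ : δ = 1 / Y ^ 40) {N T : ℕ}
    (hN : N = ⌈Y ^ 30⌉₊) (hT1 : Y ^ 40 ≤ T) (hT2 : T ≤ Y ^ 45) :
    (N : ℝ) ^ 2 + (N + T) ^ 2 * ((T + 1) *
      (2 * (Real.exp (1 / 4 - N ^ 2 / (8 * T) +
        (N * (2 * t + Q * (C * δ)) + Q * C) / 2) * C))) ≤ T * Y ^ 36 := by
  have hY := h.Y1
  have hY0 : 0 < Y := by linarith
  have hC := h.C1
  have hC0 : 0 < C := by linarith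
  have hqc := h.qc
  have hqcY := h.qcY
  obtain ⟨hN1, hN2⟩ := N_num h hN
  have hT0 : (0 : ℝ) < T := lt_of_lt_of_le (by positivity) hT1
  have hQ0 : (0 : ℝ) < Q := by
    have := h.Q2
    exact_mod_cast (by omega : 0 < Q)
  have hexp : (1 : ℝ) / 4 - N ^ 2 / (8 * T) + (N * (2 * t + Q * (C * δ)) + Q * C) / 2 ≤ -Y := by
    apply exponent_num h hN1 hN2 hT0 hT2 (by rw [ht, hδ]; positivity) _ (by linarith)
    have h1 : (Q : ℝ) * (C * δ) ≤ 1 / Y ^ 16 := by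
      rw [hδ, ← mul_assoc, mul_one_div, div_le_div_iff₀ (by positivity) (by positivity)]
      calc (Q : ℝ) * C * Y ^ 16 ≤ Y * Y ^ 16 := by gcongr; linarith
        _ = Y ^ 17 := by ring
        _ ≤ 1 * Y ^ 40 := by
          rw [one_mul]; exact pow_le_pow_right₀ (by linarith) (by norm_num)
    rw [ht]
    have h2 : 4 / Y ^ 16 = 4 * (1 / Y ^ 16) := by ring
    rw [h2]
    have : (0 : ℝ) < 1 / Y ^ 16 := by positivity
    linarith
  have h3 := tail_num h (N := N) (e := -Y) (by positivity) hN2 hT0.le hT2 le_rfl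
  have h4 : ((N : ℝ) + T) ^ 2 * ((T + 1) *
      (2 * (Real.exp (1 / 4 - N ^ 2 / (8 * T) +
        (N * (2 * t + Q * (C * δ)) + Q * C) / 2) * C))) ≤ 1 := by
    refine le_trans ?_ h3
    have h5 : Real.exp (1 / 4 - N ^ 2 / (8 * T) +
        (N * (2 * t + Q * (C * δ)) + Q * C) / 2) ≤ Real.exp (-Y) + Real.exp (-Y) := by
      have := Real.exp_le_exp.2 hexp
      have := Real.exp_pos (-Y)
      linarith
    gcongr
  have hN3 : (N : ℝ) ^ 2 ≤ 4 * Y ^ 60 := by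
    have h1 : (1 : ℝ) ≤ Y ^ 30 := one_le_pow₀ (by linarith)
    calc (N : ℝ) ^ 2 ≤ (2 * Y ^ 30) ^ 2 := by
          apply pow_le_pow_left₀ (by positivity)
          linarith
      _ = 4 * Y ^ 60 := by ring
  have h1 : Y ^ 60 ≤ T * Y ^ 20 := by
    calc Y ^ 60 = Y ^ 40 * Y ^ 20 := by ring
      _ ≤ T * Y ^ 20 := by gcongr
  have h2 : Y ^ 20 ≤ Y ^ 34 := pow_le_pow_right₀ (by linarith) (by norm_num)
  have h3 : (1 : ℝ) ≤ T * Y ^ 34 := by
    have : (1 : ℝ) ≤ Y ^ 34 := one_le_pow₀ (by linarith)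
    have : (1 : ℝ) ≤ Y ^ 40 := one_le_pow₀ (by linarith)
    nlinarith
  have h4' : (T : ℝ) * Y ^ 20 ≤ T * Y ^ 34 := by gcongr
  have h5 : 100 * (T * Y ^ 34) ≤ T * Y ^ 36 := by
    have : (100 : ℝ) ≤ Y ^ 2 := by nlinarith
    calc 100 * (T * Y ^ 34) ≤ Y ^ 2 * (T * Y ^ 34) := by gcongr
      _ = T * Y ^ 36 := by ring
  linarith

end Pool.Agent.MP545af4
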