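import Pool.Agent.Lib.MP_545af4_pr.Alpha
import Pool.Agent.Lib.MP_545af4_pr.Num

/-!
Growth of the scales.
-/

namespace Pool.Agent.MP545af4

open Filter Topology

/-- The large scale `X_k = 1 / δ_k`. -/
noncomputable def X (k : ℕ) : ℝ := 1 / del k

/-- `Y_k = X_k ^ (1/40)`. -/
noncomputable def Y (k : ℕ) : ℝ := X k ^ (1 / 40 : ℝ)

lemma X_pos (k : ℕ) : 0 < X k := by unfold X; have := del_pos k; positivity

lemma Qr_pos (k : ℕ) : (0 : ℝ) < Q k := by exact_mod_cast Q_pos k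

lemma X_ge (k : ℕ) : (Q (k + 1) : ℝ) / (2 * Q k) ≤ X k := by
  unfold X
  have h1 := del_le k
  have h2 := del_pos k
  have h3 := Qr_pos k
  have h4 := Qr_pos (k + 1)
  rw [le_div_iff₀ h2, div_mul_eq_mul_div, div_le_one (by positivity)]
  calc (Q (k + 1) : ℝ) * del k ≤ Q (k + 1) * (2 * Q k / Q (k + 1)) := by gcongr
    _ = 2 * Q k := by field_simp

lemma Q_succ_le (k : ℕ) : (Q (k + 1) : ℝ) ≤ 2 * Q k * X k := by
  have h1 := X_ge k
  have h3 := Qr_pos k
  rw [div_le_iff₀ (by positivity)] at h1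
  linarith

lemma Q_tendsto : Tendsto (fun k => (Q k : ℝ)) atTop atTop :=
  tendsto_natCast_atTop_atTop.comp Q_mono.tendsto_atTop

lemma exp_le_X : ∀ᶠ k in atTop, Real.exp ((Q k : ℝ) ^ 2 / 2) ≤ X k := by
  filter_upwards [Q_tendsto.eventually_ge_atTop 20] with k hk
  refine le_trans ?_ (X_ge k)
  have h3 := Qr_pos k
  rw [le_div_iff₀ (by positivity), Q_succ]
  push_cast
  have h1 : (2 : ℝ) ^ (Q k ^ 2) = Real.exp (Real.log 2 * (Q k : ℝ) ^ 2) := by
    rw [Real.exp_mul, Real.exp_log (by norm_num)]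
    exact_mod_cast (Real.rpow_natCast 2 (Q k ^ 2)).symm
  rw [h1]
  have h2 : 2 * (Q k : ℝ) ≤ Real.exp (0.15 * (Q k : ℝ) ^ 2) := by
    have := Real.add_one_le_exp (0.15 * (Q k : ℝ) ^ 2)
    nlinarith
  calc Real.exp ((Q k : ℝ) ^ 2 / 2) * (2 * Q k)
      ≤ Real.exp ((Q k : ℝ) ^ 2 / 2) * Real.exp (0.15 * (Q k : ℝ) ^ 2) := by gcongr
    _ = Real.exp (0.65 * (Q k : ℝ) ^ 2) := by rw [← Real.exp_add]; congr 1; ring
    _ ≤ Real.exp (Real.log 2 * (Q k : ℝ) ^ 2) := by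
        apply Real.exp_le_exp.2
        have := Real.log_two_gt_d9
        apply mul_le_mul_of_nonneg_right _ (sq_nonneg _)
        linarith

lemma sub_exp (c : ℝ) {ε : ℝ} (hε : 0 < ε) :
    ∀ᶠ k in atTop, Real.exp (c * Q k) ≤ X k ^ ε := by
  filter_upwards [exp_le_X, Q_tendsto.eventually_ge_atTop (2 * c / ε),
    Q_tendsto.eventually_ge_atTop 1] with k h1 h2 h3
  have h4 : Real.exp ((Q k : ℝ) ^ 2 / 2) ^ ε ≤ X k ^ ε :=
    Real.rpow_le_rpow (Real.exp_pos _).le h1 hε.le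
  refine le_trans ?_ h4
  rw [← Real.exp_mul]
  apply Real.exp_le_exp.2
  rw [div_le_iff₀ hε] at h2
  nlinarith

lemma X_tendsto : Tendsto X atTop atTop := by
  have h1 : ∀ᶠ k in atTop, (Q k : ℝ) ≤ X k := by
    filter_upwards [sub_exp 1 (ε := 1) one_pos] with k hk
    rw [one_mul, Real.rpow_one] at hk
    have := Real.add_one_le_exp (Q k : ℝ)
    linarith
  exact tendsto_atTop_mono' _ h1 Q_tendsto

lemma Y_tendsto : Tendsto Y atTop atTop :=
  (tendsto_rpow_atTop (by norm_num : (0 : ℝ) < 1 / 40)).comp X_tendsto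

lemma Y_pos (k : ℕ) : 0 < Y k := Real.rpow_pos_of_pos (X_pos k) _

lemma Y_pow (k : ℕ) : Y k ^ 40 = X k := by
  unfold Y
  rw [← Real.rpow_natCast, ← Real.rpow_mul (X_pos k).le]
  norm_num

lemma del_eq (k : ℕ) : del k = 1 / Y k ^ 40 := by
  rw [Y_pow, X, one_div_one_div]

lemma big {C : ℝ} (hC : 1 ≤ C) : ∀ᶠ k in atTop, Big C (Y k) (Q k) := by
  have hex : ∀ᶠ y : ℝ in atTop, 1000 * y ^ 200 * Real.exp (-y) ≤ 1 := by
    have h1 := (Real.tendsto_pow_mul_exp_neg_atTop_nhds_zero 200).const_mul 1000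
    rw [mul_zero] at h1
    filter_upwards [h1.eventually (ge_mem_nhds (show (0 : ℝ) < 1 by norm_num))] with y hy
    rw [mul_assoc]; exact hy
  filter_upwards [sub_exp (101 * C + 1) (ε := 1 / 40) (by norm_num),
    Y_tendsto.eventually_ge_atTop 100, Y_tendsto.eventually hex,
    Q_tendsto.eventually_ge_atTop 2] with k h1 h2 h3 h4
  refine ⟨hC, h2, by exact_mod_cast h4, ?_, h3⟩
  refine le_trans ?_ h1
  have h5 : 100 * ((Q k : ℝ) * C) ≤ Real.exp (100 * ((Q k : ℝ) * C)) := by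
    have := Real.add_one_le_exp (100 * ((Q k : ℝ) * C))
    linarith
  calc Real.exp (Q k * C + 1) * (100 * (Q k * C))
      ≤ Real.exp (Q k * C + 1) * Real.exp (100 * ((Q k : ℝ) * C)) := by gcongr
    _ = Real.exp (Q k * C + 1 + 100 * ((Q k : ℝ) * C)) := by rw [← Real.exp_add]
    _ ≤ Real.exp ((101 * C + 1) * Q k) := by
        apply Real.exp_le_exp.2
        linarith

lemma per (k : ℕ) : Per alpha (Q k) (del k) :=
  ⟨by have := Q_ge k; omega, del_pos k, Q_mul_alpha k⟩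

end Pool.Agent.MP545af4
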