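import Mathlib

/-!
Real analysis of smooth periodic functions of mean zero.
-/

namespace Pool.Agent.MP545af4

open Finset MeasureTheory

/-- A `1`-periodic function of mean zero, bounded by `C` together with its derivative, the
derivative being `C`-Lipschitz. -/
structure Phi (φ : ℝ → ℝ) (C : ℝ) : Prop where
  pos : 0 < C
  per : ∀ y, φ (y + 1) = φ y
  bd : ∀ y, |φ y| ≤ C
  diff : Differentiable ℝ φ
  dbd : ∀ y, |deriv φ y| ≤ C
  dlip : ∀ y y', |deriv φ y - deriv φ y'| ≤ C * |y - y'|
  int : ∫ s in (0 : ℝ)..1, φ s = 0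

variable {φ : ℝ → ℝ} {C : ℝ}

lemma Phi.cont (h : Phi φ C) : Continuous φ := h.diff.continuous

lemma Phi.lip (h : Phi φ C) (y y' : ℝ) : |φ y - φ y'| ≤ C * |y - y'| := by
  have := Convex.norm_image_sub_le_of_norm_deriv_le (f := φ) (s := Set.univ) (C := C)
    (fun x _ => h.diff x) (fun x _ => h.dbd x) convex_univ (Set.mem_univ y') (Set.mem_univ y)
  simpa using this

lemma Phi.periodic (h : Phi φ C) : Function.Periodic φ 1 := h.per

lemma Phi.add_int (h : Phi φ C) (y : ℝ) (n : ℤ) : φ (y + n) = φ y := by
  have := h.periodic.int_mul n y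
  simpa using this

/-- Riemann sums of a mean zero function are bounded. -/
lemma Phi.sum_le (h : Phi φ C) {δ : ℝ} (hδ : 0 < δ) (y : ℝ) (i : ℕ) :
    |∑ j ∈ range i, φ (y + j * δ)| ≤ C / δ + i * (C * δ) := by
  -- the primitive
  set G : ℝ → ℝ := fun Y => ∫ s in (0 : ℝ)..Y, φ (y + s) with hG
  have hc : Continuous (fun s => φ (y + s)) := h.cont.comp (by fun_prop)
  have hint : ∀ a b : ℝ, IntervalIntegrable (fun s => φ (y + s)) volume a b :=
    fun a b => hc.intervalIntegrable a b
  have hper : Function.Periodic (fun s => φ (y + s)) 1 := by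
    intro s
    change φ (y + (s + 1)) = φ (y + s)
    rw [← add_assoc, h.per]
  have hz : ∫ s in (0 : ℝ)..1, φ (y + s) = 0 := by
    have h1 : ∫ s in (0 : ℝ)..1, φ (y + s) = ∫ s in y..(y + 1), φ s := by
      rw [intervalIntegral.integral_comp_add_left (fun s => φ s) y]
      simp
    rw [h1, h.periodic.intervalIntegral_add_eq y 0]
    simpa using h.int
  have hGper : Function.Periodic G 1 := by
    intro Y
    simp only [hG]
    rw [← intervalIntegral.integral_add_adjacent_intervals (hint 0 Y) (hint Y (Y + 1)),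
      hper.intervalIntegral_add_eq Y 0, zero_add, hz, add_zero]
  have hGbd : ∀ Y, |G Y| ≤ C := by
    intro Y
    have h1 : G Y = G (Int.fract Y) := by
      have := hGper.sub_int_mul_eq (x := Y) ⌊Y⌋
      rw [mul_one] at this
      rw [Int.fract, this]
    rw [h1]
    have h2 := Int.fract_nonneg Y
    have h3 := (Int.fract_lt_one Y).le
    simp only [hG]
    have h4 := intervalIntegral.norm_integral_le_of_norm_le_const (a := (0 : ℝ))
      (b := Int.fract Y) (C := C) (f := fun s => φ (y + s)) (fun s _ => h.bd _)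
    rw [Real.norm_eq_abs] at h4
    refine h4.trans ?_
    rw [sub_zero, abs_of_nonneg h2]
    have := h.pos
    nlinarith
  -- comparison of the sum with the integral
  have hcmp : ∀ i : ℕ, |∑ j ∈ range i, φ (y + j * δ) - G (i * δ) / δ| ≤ i * (C * δ) := by
    intro i
    induction i with
    | zero => simp [hG]
    | succ i ih =>
      rw [Finset.sum_range_succ]
      have e1 : G ((i + 1 : ℕ) * δ) = G (i * δ) + ∫ s in (i * δ)..((i + 1 : ℕ) * δ), φ (y + s) := by
        simp only [hG]
        rw [intervalIntegral.integral_add_adjacent_intervals (hint _ _) (hint _ _)]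
      have e2 : |φ (y + i * δ) - (∫ s in (i * δ)..((i + 1 : ℕ) * δ), φ (y + s)) / δ| ≤ C * δ := by
        have e3 : (∫ s in (i * δ)..((i + 1 : ℕ) * δ), (φ (y + s) - φ (y + i * δ))) =
            (∫ s in (i * δ)..((i + 1 : ℕ) * δ), φ (y + s)) - δ * φ (y + i * δ) := by
          rw [intervalIntegral.integral_sub (hint _ _) (by simp)]
          rw [intervalIntegral.integral_const, smul_eq_mul]
          push_cast
          ring
        have e4 : |∫ s in (i * δ)..((i + 1 : ℕ) * δ), (φ (y + s) - φ (y + i * δ))| ≤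
            (C * δ) * |((i + 1 : ℕ) : ℝ) * δ - i * δ| := by
          rw [← Real.norm_eq_abs (∫ s in (i * δ)..((i + 1 : ℕ) * δ), (φ (y + s) - φ (y + i * δ)))]
          apply intervalIntegral.norm_integral_le_of_norm_le_const
          intro s hs
          rw [Set.uIoc_of_le (by push_cast; nlinarith)] at hs
          rw [Real.norm_eq_abs]
          refine (h.lip _ _).trans ?_
          have hC := h.pos
          apply mul_le_mul_of_nonneg_left _ hC.le
          rw [abs_le]
          have h1 := hs.1
          have h2 := hs.2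
          push_cast at h2
          constructor <;> linarith
        have e5 : |((i + 1 : ℕ) : ℝ) * δ - i * δ| = δ := by
          push_cast
          rw [show ((i : ℝ) + 1) * δ - i * δ = δ by ring, abs_of_pos hδ]
        rw [e5, e3] at e4
        have e6 : φ (y + i * δ) - (∫ s in (i * δ)..((i + 1 : ℕ) * δ), φ (y + s)) / δ =
            -(((∫ s in (i * δ)..((i + 1 : ℕ) * δ), φ (y + s)) - δ * φ (y + i * δ)) / δ) := by
          field_simp
          ring
        rw [e6, abs_neg, abs_div, abs_of_pos hδ, div_le_iff₀ hδ]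
        exact e4
      have e7 : ∑ j ∈ range i, φ (y + j * δ) + φ (y + i * δ) - G ((i + 1 : ℕ) * δ) / δ =
          (∑ j ∈ range i, φ (y + j * δ) - G (i * δ) / δ) +
          (φ (y + i * δ) - (∫ s in (i * δ)..((i + 1 : ℕ) * δ), φ (y + s)) / δ) := by
        rw [e1]; ring
      rw [e7]
      refine (abs_add_le _ _).trans ?_
      push_cast
      have := add_le_add ih e2
      push_cast at this
      linarith
  have h1 := hcmp i
  have h2 : |G (i * δ) / δ| ≤ C / δ := by
    rw [abs_div, abs_of_pos hδ]
    gcongr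
    exact hGbd _
  have h3 := abs_add_le (∑ j ∈ range i, φ (y + j * δ) - G (i * δ) / δ) (G (i * δ) / δ)
  rw [sub_add_cancel] at h3
  linarith

/-- Second order bound at a point where the derivative is nonnegative. -/
lemma Phi.taylor (h : Phi φ C) {y₀ : ℝ} (hd : 0 ≤ deriv φ y₀) {y : ℝ} (hy : y₀ ≤ y) :
    φ y₀ - C * (y - y₀) ^ 2 ≤ φ y := by
  rcases eq_or_lt_of_le hy with rfl | hlt
  · simp
  · obtain ⟨ξ, hξ, he⟩ := exists_deriv_eq_slope φ hlt h.cont.continuousOn
      h.diff.differentiableOn
    have h1 : deriv φ y₀ - C * (ξ - y₀) ≤ deriv φ ξ := by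
      have := h.dlip ξ y₀
      rw [abs_of_pos (by linarith [hξ.1] : 0 < ξ - y₀)] at this
      have := (abs_le.1 this).1
      linarith
    rw [eq_div_iff (by linarith)] at he
    have h2 : -(C * (y - y₀)) ≤ deriv φ ξ := by
      have hC := h.pos
      have : C * (ξ - y₀) ≤ C * (y - y₀) := by
        apply mul_le_mul_of_nonneg_left _ hC.le
        linarith [hξ.2]
      linarith
    have h3 : 0 < y - y₀ := by linarith
    nlinarith

/-- The first point to the right of `0` where a function exceeds the level `-t/2`. -/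
lemma Phi.first (h : Phi φ C) {t x : ℝ} (ht : 0 < t) (hx : φ x ≤ -t) :
    ∃ ys : ℝ, 0 < ys ∧ (∀ y, 0 ≤ y → y < ys → φ (x + y) < -t / 2) ∧
      (∀ y, -(t / (2 * C)) ≤ y → y ≤ 0 → φ (x + y) ≤ -t / 2) ∧
      ∀ y, ys ≤ y → -t / 2 - C * (y - ys) ^ 2 ≤ φ (x + y) := by
  have hC := h.pos
  -- a point where `φ ≥ 0`
  obtain ⟨y₁, hy1, hy1'⟩ : ∃ y₁ : ℝ, 0 ≤ y₁ ∧ 0 ≤ φ (x + y₁) := by
    by_contra hcon
    push Not at hcon
    have hz : ∫ s in (0 : ℝ)..1, φ (x + s) = 0 := by
      have h1 : ∫ s in (0 : ℝ)..1, φ (x + s) = ∫ s in x..(x + 1), φ s := by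
        rw [intervalIntegral.integral_comp_add_left (fun s => φ s) x]
        simp
      rw [h1, h.periodic.intervalIntegral_add_eq x 0]
      simpa using h.int
    have hneg : 0 < ∫ s in (0 : ℝ)..1, -φ (x + s) := by
      apply intervalIntegral.intervalIntegral_pos_of_pos_on
      · exact (Continuous.intervalIntegrable (by
          have := h.cont
          fun_prop) _ _)
      · intro s hs
        have := hcon s hs.1.le
        linarith
      · norm_num
    rw [intervalIntegral.integral_neg, hz] at hneg
    simp at hneg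
  set A : Set ℝ := {y | 0 ≤ y ∧ -t / 2 ≤ φ (x + y)} with hA
  have hAne : A.Nonempty := ⟨y₁, hy1, by linarith⟩
  have hAc : IsClosed A := by
    apply IsClosed.inter
    · exact isClosed_Ici
    · exact isClosed_le continuous_const (h.cont.comp (by fun_prop))
  have hAb : BddBelow A := ⟨0, fun y hy => hy.1⟩
  have hmem : sInf A ∈ A := hAc.csInf_mem hAne hAb
  set ys := sInf A with hys
  have hpos : 0 < ys := by
    rcases eq_or_lt_of_le hmem.1 with h0 | h0
    · exfalso
      have := hmem.2
      rw [← h0, add_zero] at this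
      linarith
    · exact h0
  have hbelow : ∀ y, 0 ≤ y → y < ys → φ (x + y) < -t / 2 := by
    intro y hy hlt
    by_contra hcon
    push Not at hcon
    have : ys ≤ y := csInf_le hAb ⟨hy, hcon⟩
    linarith
  refine ⟨ys, hpos, hbelow, ?_, ?_⟩
  · intro y hy1 hy2
    have h1 := h.lip (x + y) x
    rw [show x + y - x = y by ring, abs_of_nonpos hy2] at h1
    have h2 := (abs_le.1 h1).2
    have h3 : C * -y ≤ t / 2 := by
      have : -y ≤ t / (2 * C) := by linarith
      calc C * -y ≤ C * (t / (2 * C)) := mul_le_mul_of_nonneg_left this hC.le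
        _ = t / 2 := by field_simp
    linarith
  · -- the derivative at `ys` is nonnegative
    have hd : 0 ≤ deriv φ (x + ys) := by
      have hder : HasDerivAt φ (deriv φ (x + ys)) (x + ys) := (h.diff _).hasDerivAt
      have hder' : HasDerivWithinAt φ (deriv φ (x + ys)) (Set.Iio (x + ys)) (x + ys) :=
        hder.hasDerivWithinAt
      have htend := hasDerivWithinAt_iff_tendsto_slope' (by simp) |>.1 hder'
      refine ge_of_tendsto htend ?_
      have : Set.Ioo x (x + ys) ∈ nhdsWithin (x + ys) (Set.Iio (x + ys)) :=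
        Ioo_mem_nhdsLT (by linarith)
      filter_upwards [this] with z hz
      have h1 := hbelow (z - x) (by linarith [hz.1]) (by linarith [hz.2])
      rw [show x + (z - x) = z by ring] at h1
      rw [slope_def_field]
      apply div_nonneg_of_nonpos
      · linarith [hmem.2]
      · linarith [hz.2]
    intro y hy
    have h1 := h.taylor hd (y := x + y) (by linarith)
    have h2 := hmem.2
    rw [show x + y - (x + ys) = y - ys by ring] at h1
    linarith

/-- The exceptional set has small measure. -/
lemma Phi.exc_measure (h : Phi φ C) {t β : ℝ} (ht : 0 < t) (hβ : 0 < β) (a : ℝ) :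
    volume ({x | |φ x| < t ∧ β ≤ |deriv φ x|} ∩ Set.Icc a (a + 1)) ≤
      ENNReal.ofReal ((2 * C / β + 2) * (4 * t / β)) := by
  have hC := h.pos
  set n : ℕ := ⌈2 * C / β⌉₊ with hn
  have hn1 : 2 * C / β ≤ n := Nat.le_ceil _
  have hn2 : (n : ℝ) ≤ 2 * C / β + 1 := (Nat.ceil_lt_add_one (by positivity)).le
  have hn0 : (0 : ℝ) < n := lt_of_lt_of_le (by positivity) hn1
  set E : Set ℝ := {x | |φ x| < t ∧ β ≤ |deriv φ x|} with hE
  have hcover : E ∩ Set.Icc a (a + 1) ⊆
      ⋃ i ∈ Finset.range (n + 1), E ∩ Set.Icc (a + i / n) (a + (i + 1) / n) := by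
    intro x hx
    obtain ⟨hxE, hx1, hx2⟩ := hx
    simp only [Set.mem_iUnion]
    refine ⟨⌊(x - a) * n⌋₊, ?_, hxE, ?_, ?_⟩
    · rw [Finset.mem_range, Nat.lt_succ_iff]
      apply Nat.floor_le_of_le
      nlinarith
    · have := Nat.floor_le (show 0 ≤ (x - a) * n by nlinarith)
      have : (⌊(x - a) * n⌋₊ : ℝ) / n ≤ x - a := by
        rw [div_le_iff₀ hn0]; exact this
      linarith
    · have := (Nat.lt_floor_add_one ((x - a) * n)).le
      have : x - a ≤ (⌊(x - a) * n⌋₊ + 1 : ℝ) / n := by
        rw [le_div_iff₀ hn0]; exact this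
      linarith
  have hpiece : ∀ i : ℕ, volume (E ∩ Set.Icc (a + i / n) (a + (i + 1) / n)) ≤
      ENNReal.ofReal (4 * t / β) := by
    intro i
    refine (Real.volume_le_diam _).trans (Metric.ediam_le_of_forall_dist_le ?_)
    have hlen : ∀ x ∈ Set.Icc (a + i / n) (a + (i + 1) / n),
        ∀ y ∈ Set.Icc (a + i / n) (a + (i + 1) / n), |x - y| ≤ β / (2 * C) := by
      intro x hx y hy
      have h1 : (a + (i + 1) / n) - (a + i / n) = 1 / (n : ℝ) := by field_simp; ring
      have h2 : 1 / (n : ℝ) ≤ β / (2 * C) := by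
        rw [div_le_div_iff₀ hn0 (by positivity)]
        rw [div_le_iff₀ hβ] at hn1
        linarith
      rw [abs_le]
      constructor <;> linarith [hx.1, hx.2, hy.1, hy.2]
    -- two points of the piece, ordered
    have key : ∀ x ∈ E ∩ Set.Icc (a + i / n) (a + (i + 1) / n),
        ∀ y ∈ E ∩ Set.Icc (a + i / n) (a + (i + 1) / n), x < y → y - x ≤ 4 * t / β := by
      intro x hx y hy hxy
      obtain ⟨ξ, hξ, he⟩ := exists_deriv_eq_slope φ hxy h.cont.continuousOn
        h.diff.differentiableOn
      have h1 : β / 2 ≤ |deriv φ ξ| := by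
        have h2 := h.dlip x ξ
        have h3 : |x - ξ| ≤ β / (2 * C) := by
          have := hlen x hx.2 y hy.2
          rw [abs_of_neg (by linarith)] at this
          rw [abs_of_neg (by linarith [hξ.1])]
          linarith [hξ.2]
        have h4 : C * |x - ξ| ≤ β / 2 := by
          calc C * |x - ξ| ≤ C * (β / (2 * C)) := mul_le_mul_of_nonneg_left h3 hC.le
            _ = β / 2 := by field_simp
        have h5 := hx.1.2
        have h6 := abs_sub_abs_le_abs_sub (deriv φ x) (deriv φ ξ)
        linarith
      have h2 : |φ y - φ x| < 2 * t := by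
        have h3 := hx.1.1
        have h4 := hy.1.1
        have := abs_sub (φ y) (φ x)
        linarith
      have h3 : |φ y - φ x| = |deriv φ ξ| * (y - x) := by
        rw [he, abs_div, abs_of_pos (by linarith : 0 < y - x)]
        field_simp [(by linarith : y - x ≠ 0)]
      rw [le_div_iff₀ hβ]
      have h4 : 0 < y - x := by linarith
      nlinarith
    intro x hx y hy
    rw [Real.dist_eq]
    rcases lt_trichotomy x y with hlt | heq | hgt
    · rw [abs_of_neg (by linarith)]
      have := key x hx y hy hlt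
      linarith
    · rw [heq, sub_self, abs_zero]; positivity
    · rw [abs_of_pos (by linarith)]
      exact key y hy x hx hgt
  calc volume (E ∩ Set.Icc a (a + 1))
      ≤ volume (⋃ i ∈ Finset.range (n + 1), E ∩ Set.Icc (a + i / n) (a + (i + 1) / n)) :=
        measure_mono hcover
    _ ≤ ∑ i ∈ Finset.range (n + 1), volume (E ∩ Set.Icc (a + i / n) (a + (i + 1) / n)) :=
        measure_biUnion_finset_le _ _
    _ ≤ ∑ _i ∈ Finset.range (n + 1), ENNReal.ofReal (4 * t / β) :=
        Finset.sum_le_sum fun i _ => hpiece i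
    _ = ENNReal.ofReal ((n + 1) * (4 * t / β)) := by
        rw [Finset.sum_const, Finset.card_range, nsmul_eq_mul,
          ENNReal.ofReal_mul (by positivity)]
        congr 1
        rw [← Nat.cast_succ, ENNReal.ofReal_natCast]
    _ ≤ ENNReal.ofReal ((2 * C / β + 2) * (4 * t / β)) := by
        apply ENNReal.ofReal_le_ofReal
        apply mul_le_mul_of_nonneg_right _ (by positivity)
        linarith

/-- Away from the exceptional set, small values stay small on a window. -/
lemma Phi.small_window (h : Phi φ C) {t l β : ℝ} (hl : 0 < l) (hβ : β ≤ t / l - C * l) {x : ℝ}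
    (hx : |φ x| < t) (hx' : |deriv φ x| < β) {y : ℝ} (hy : |y| ≤ l) : |φ (x + y)| < 2 * t := by
  have hC := h.pos
  by_contra hcon
  push Not at hcon
  have h1 : t < |φ (x + y) - φ x| := by
    have := abs_sub_abs_le_abs_sub (φ (x + y)) (φ x)
    linarith
  have hne : y ≠ 0 := by
    rintro rfl
    rw [add_zero, sub_self, abs_zero] at h1
    have := abs_nonneg (φ x)
    linarith
  -- mean value theorem
  have hmv : ∃ ξ : ℝ, |ξ - x| ≤ l ∧ |φ (x + y) - φ x| = |deriv φ ξ| * |y| := by
    rcases lt_or_gt_of_ne hne with hneg | hpos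
    · obtain ⟨ξ, hξ, he⟩ := exists_deriv_eq_slope φ (show x + y < x by linarith)
        h.cont.continuousOn h.diff.differentiableOn
      refine ⟨ξ, ?_, ?_⟩
      · rw [abs_le]
        have := (abs_le.1 hy).1
        constructor <;> linarith [hξ.1, hξ.2]
      · rw [he, abs_div, show x - (x + y) = -y by ring, abs_neg y, abs_sub_comm (φ x)]
        field_simp [abs_ne_zero.2 hne]
    · obtain ⟨ξ, hξ, he⟩ := exists_deriv_eq_slope φ (show x < x + y by linarith)
        h.cont.continuousOn h.diff.differentiableOn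
      refine ⟨ξ, ?_, ?_⟩
      · rw [abs_le]
        have := (abs_le.1 hy).2
        constructor <;> linarith [hξ.1, hξ.2]
      · rw [he, abs_div, show x + y - x = y by ring]
        field_simp [abs_ne_zero.2 hne]
  obtain ⟨ξ, hξ1, hξ2⟩ := hmv
  have h2 : |deriv φ ξ| ≤ |deriv φ x| + C * l := by
    have h3 := h.dlip ξ x
    have h4 := abs_sub_abs_le_abs_sub (deriv φ ξ) (deriv φ x)
    have h5 : C * |ξ - x| ≤ C * l := mul_le_mul_of_nonneg_left hξ1 hC.le
    linarith
  have h3 : |deriv φ ξ| < t / l := by linarith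
  have h30 : 0 ≤ t / l := (abs_nonneg _).trans h3.le
  have h4 : |deriv φ ξ| * |y| ≤ t / l * l := by
    have := abs_nonneg (deriv φ ξ)
    have := abs_nonneg y
    gcongr
  rw [div_mul_cancel₀ _ hl.ne'] at h4
  linarith

end Pool.Agent.MP545af4
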