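import Pool.Agent.Lib.MP_545af4_pr.Gauss

/-!
Confinement of reversible walks by potential barriers and Gaussian bounds.
-/

namespace Pool.Agent.MP545af4

open Finset

/-- `V` is a potential of the elliptic environment `p`. -/
structure Pot (p V : ℤ → ℝ) (κ : ℝ) : Prop where
  pos : 0 < κ
  lo : ∀ z, κ ≤ p z
  hi : ∀ z, κ ≤ 1 - p z
  rel : ∀ z, 1 - p z = p z * Real.exp (V z - V (z - 1))

variable {p V : ℤ → ℝ} {κ : ℝ}

lemma Pot.env (h : Pot p V κ) : IsEnv p := fun z =>
  ⟨h.pos.le.trans (h.lo z), by linarith [h.hi z, h.pos]⟩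

/-- The transition probabilities. -/
abbrev K (p : ℤ → ℝ) (t : ℕ) (a w : ℤ) : ℝ := ker p (fun z => 1 - p z) t a w

lemma K_nonneg (h : Pot p V κ) (t : ℕ) (a w : ℤ) : 0 ≤ K p t a w :=
  ker_nonneg (fun z => (h.env z).1) (fun z => by linarith [(h.env z).2]) t a w

lemma K_le (h : Pot p V κ) (x : ℝ) (t : ℕ) (a w : ℤ) :
    K p t a w ≤ Real.exp (|x| - x * (w - a) + 2 * x ^ 2 * t - (V w - V a) / 2) / κ := by
  have hp : ∀ z, 0 < p z := fun z => h.pos.trans_le (h.lo z)
  have hq : ∀ z, p z < 1 := fun z => by linarith [h.hi z, h.pos]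
  have h1 := gauss hp hq (m := fun z => Real.exp (-V z) / p z)
    (fun z => div_pos (Real.exp_pos _) (hp z)) (fun z => by
      have h2 := h.rel (z + 1)
      rw [show z + 1 - 1 = z by ring] at h2
      rw [h2, div_mul_cancel₀ _ (hp z).ne', div_mul_eq_mul_div, mul_div_assoc,
        mul_div_cancel_left₀ _ (hp (z + 1)).ne', ← Real.exp_add]
      congr 1; ring) x t a w
  refine h1.trans ?_
  have h3 : Real.exp (-V w) / p w / (Real.exp (-V a) / p a) ≤
      (Real.exp (-(V w - V a) / 2) / κ) ^ 2 := by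
    have e1 : Real.exp (-V w) / p w / (Real.exp (-V a) / p a) =
        Real.exp (-(V w - V a)) * (p a / p w) := by
      rw [show -(V w - V a) = -V w - -V a by ring, Real.exp_sub]
      have := (hp a).ne'
      have := (hp w).ne'
      field_simp
    have e2 : (Real.exp (-(V w - V a) / 2) / κ) ^ 2 = Real.exp (-(V w - V a)) * (1 / κ ^ 2) := by
      rw [div_pow, ← Real.exp_nat_mul]
      push_cast
      rw [show 2 * (-(V w - V a) / 2) = -(V w - V a) by ring]
      ring
    rw [e1, e2]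
    apply mul_le_mul_of_nonneg_left _ (Real.exp_pos _).le
    have h4 : κ ≤ 1 := by linarith [h.lo 0, h.hi 0, h.pos]
    have h5 := h.lo w
    rw [div_le_div_iff₀ (hp w) (by have := h.pos; positivity)]
    have h6 : p a ≤ 1 := (hq a).le
    have h7 := h.pos
    have h8 := hp a
    nlinarith [mul_pos h7 h7]
  have h4 : Real.sqrt (Real.exp (-V w) / p w / (Real.exp (-V a) / p a)) ≤
      Real.exp (-(V w - V a) / 2) / κ := by
    apply Real.sqrt_le_iff.2
    exact ⟨by have := h.pos; positivity, h3⟩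
  calc _ ≤ Real.exp (|x| - x * (w - a) + 2 * x ^ 2 * t) *
        (Real.exp (-(V w - V a) / 2) / κ) := by gcongr
    _ = _ := by
      rw [← mul_div_assoc, ← Real.exp_add]
      congr 2; ring

/-- Barrier bound. -/
lemma K_barrier (h : Pot p V κ) (t : ℕ) (a w : ℤ) {H : ℝ} (hH : H ≤ V w - V a) :
    K p t a w ≤ Real.exp (-H / 2) / κ := by
  have h1 := K_le h 0 t a w
  refine h1.trans ?_
  have := h.pos
  gcongr
  simp only [abs_zero]
  linarith

/-- Gaussian bound at distance `N`. -/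
lemma K_gauss (h : Pot p V κ) {s T N : ℕ} (hs : s ≤ T) (hT : 0 < T) (hN : N ≤ T) {a w : ℤ}
    (hw : |w - a| = N) {B : ℝ} (hB : -B ≤ V w - V a) :
    K p s a w ≤ Real.exp (1 / 4 - N ^ 2 / (8 * T) + B / 2) / κ := by
  have hT' : (0 : ℝ) < T := by exact_mod_cast hT
  have hs' : (s : ℝ) ≤ T := by exact_mod_cast hs
  have hN' : (N : ℝ) ≤ T := by exact_mod_cast hN
  have hκ := h.pos
  -- choose the sign
  obtain ⟨x, hx1, hx2⟩ : ∃ x : ℝ, |x| = N / (4 * T) ∧ x * (w - a) = N ^ 2 / (4 * T) := by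
    rcases abs_cases (w - a) with ⟨h1, _⟩ | ⟨h1, _⟩
    · refine ⟨N / (4 * T), abs_of_nonneg (by positivity), ?_⟩
      have : ((w - a : ℤ) : ℝ) = N := by
        rw [← h1, hw]; simp
      push_cast at this
      rw [this]; ring
    · refine ⟨-(N / (4 * T)), by rw [abs_neg, abs_of_nonneg (by positivity)], ?_⟩
      have : ((w - a : ℤ) : ℝ) = -N := by
        have : (w - a : ℤ) = -(N : ℤ) := by omega
        rw [this]; simp
      push_cast at this
      rw [this]; ring
  refine (K_le h x s a w).trans ?_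
  gcongr
  rw [hx1, hx2]
  have e1 : x ^ 2 = N ^ 2 / (16 * T ^ 2) := by
    rw [← sq_abs, hx1, div_pow, mul_pow]; norm_num
  rw [e1]
  have e2 : 2 * ((N : ℝ) ^ 2 / (16 * T ^ 2)) * s ≤ N ^ 2 / (8 * T) := by
    calc 2 * ((N : ℝ) ^ 2 / (16 * T ^ 2)) * s ≤ 2 * ((N : ℝ) ^ 2 / (16 * T ^ 2)) * T := by
          gcongr
      _ = _ := by field_simp; ring
  have e3 : (N : ℝ) / (4 * T) ≤ 1 / 4 := by
    rw [div_le_div_iff₀ (by positivity) (by norm_num)]; linarith
  have e4 : (N : ℝ) ^ 2 / (4 * T) = N ^ 2 / (8 * T) + N ^ 2 / (8 * T) := by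
    field_simp; ring
  rw [e4]
  linarith

/-- Confinement between two sites. -/
lemma mom_confine (h : Pot p V κ) {c N : ℝ} (hN : 0 ≤ N) {b₁ b₂ : ℤ}
    (hw : ∀ z : ℤ, b₁ ≤ z → z ≤ b₂ → |(z : ℝ) - c| ≤ N) (r : ℕ) :
    ∀ z : ℤ, b₁ ≤ z → z ≤ b₂ → mom p c r z ≤
      N ^ 2 + (N + r) ^ 2 * ∑ s ∈ range (r + 1), (K p s z b₁ + K p s z b₂) := by
  have hsum : ∀ (r : ℕ) (z : ℤ), 0 ≤ ∑ s ∈ range (r + 1), (K p s z b₁ + K p s z b₂) :=
    fun r z => Finset.sum_nonneg fun s _ => add_nonneg (K_nonneg h _ _ _) (K_nonneg h _ _ _)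
  induction r with
  | zero =>
    intro z h1 h2
    rw [mom_zero]
    have h3 := hw z h1 h2
    have h4 : ((z : ℝ) - c) ^ 2 ≤ N ^ 2 := by
      rw [← sq_abs]
      exact pow_le_pow_left₀ (abs_nonneg _) h3 2
    have := hsum 0 z
    have : 0 ≤ (N + (0 : ℕ)) ^ 2 * ∑ s ∈ range (0 + 1), (K p s z b₁ + K p s z b₂) := by
      positivity
    linarith
  | succ r ih =>
    intro z h1 h2
    by_cases hb : z = b₁ ∨ z = b₂
    · have h3 : 1 ≤ ∑ s ∈ range (r + 1 + 1), (K p s z b₁ + K p s z b₂) := by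
        have h4 : K p 0 z b₁ + K p 0 z b₂ ≤ ∑ s ∈ range (r + 1 + 1), (K p s z b₁ + K p s z b₂) :=
          Finset.single_le_sum (f := fun s => K p s z b₁ + K p s z b₂)
            (fun s _ => add_nonneg (K_nonneg h _ _ _) (K_nonneg h _ _ _))
            (Finset.mem_range.2 (by omega))
        refine le_trans ?_ h4
        rcases hb with hb | hb
        · have : K p 0 z b₁ = 1 := by simp [K, ker, hb]
          have := K_nonneg h 0 z b₂
          linarith
        · have : K p 0 z b₂ = 1 := by simp [K, ker, hb]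
          have := K_nonneg h 0 z b₁
          linarith
      have h5 := mom_le h.env c (r + 1) z
      have h6 := hw z h1 h2
      have h7 : (|(z : ℝ) - c| + (r + 1 : ℕ)) ^ 2 ≤ (N + (r + 1 : ℕ)) ^ 2 := by gcongr
      have h8 : (N + (r + 1 : ℕ)) ^ 2 ≤ (N + (r + 1 : ℕ)) ^ 2 *
          ∑ s ∈ range (r + 1 + 1), (K p s z b₁ + K p s z b₂) :=
        le_mul_of_one_le_right (sq_nonneg _) h3
      nlinarith [sq_nonneg N]
    · push Not at hb
      have g1 : b₁ < z := lt_of_le_of_ne h1 (Ne.symm hb.1)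
      have g2 : z < b₂ := lt_of_le_of_ne h2 hb.2
      have i1 := ih (z + 1) (by omega) (by omega)
      have i2 := ih (z - 1) (by omega) (by omega)
      rw [mom_succ]
      have p0 := (h.env z).1
      have q0 : 0 ≤ 1 - p z := by linarith [(h.env z).2]
      have hS : p z * ∑ s ∈ range (r + 1), (K p s (z + 1) b₁ + K p s (z + 1) b₂) +
          (1 - p z) * ∑ s ∈ range (r + 1), (K p s (z - 1) b₁ + K p s (z - 1) b₂) ≤
          ∑ s ∈ range (r + 1 + 1), (K p s z b₁ + K p s z b₂) := by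
        rw [Finset.sum_range_succ' (fun s => K p s z b₁ + K p s z b₂) (r + 1), Finset.mul_sum,
          Finset.mul_sum, ← Finset.sum_add_distrib]
        have : ∀ s, p z * (K p s (z + 1) b₁ + K p s (z + 1) b₂) +
            (1 - p z) * (K p s (z - 1) b₁ + K p s (z - 1) b₂) =
            K p (s + 1) z b₁ + K p (s + 1) z b₂ := by
          intro s
          simp only [K, ker_succ]
          ring
        simp_rw [this]
        have := K_nonneg h 0 z b₁
        have := K_nonneg h 0 z b₂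
        linarith
      have hS1 := hsum r (z + 1)
      have hS2 := hsum r (z - 1)
      have hS3 := hsum (r + 1) z
      have hr : (N + r) ^ 2 ≤ (N + (r + 1 : ℕ)) ^ 2 := by
        push_cast
        gcongr
        linarith
      calc p z * mom p c r (z + 1) + (1 - p z) * mom p c r (z - 1)
          ≤ p z * (N ^ 2 + (N + r) ^ 2 *
              ∑ s ∈ range (r + 1), (K p s (z + 1) b₁ + K p s (z + 1) b₂)) +
            (1 - p z) * (N ^ 2 + (N + r) ^ 2 *
              ∑ s ∈ range (r + 1), (K p s (z - 1) b₁ + K p s (z - 1) b₂)) := by gcongr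
        _ = N ^ 2 + (N + r) ^ 2 * (p z * ∑ s ∈ range (r + 1),
              (K p s (z + 1) b₁ + K p s (z + 1) b₂) +
            (1 - p z) * ∑ s ∈ range (r + 1), (K p s (z - 1) b₁ + K p s (z - 1) b₂)) := by ring
        _ ≤ N ^ 2 + (N + (r + 1 : ℕ)) ^ 2 *
              ∑ s ∈ range (r + 1 + 1), (K p s z b₁ + K p s z b₂) := by gcongr

/-- Confinement, in the form used below. -/
lemma mom_confine' (h : Pot p V κ) {N : ℝ} (hN : 0 ≤ N) {a b₁ b₂ : ℤ} (h1 : b₁ ≤ a)
    (h2 : a ≤ b₂) (hw : ∀ z : ℤ, b₁ ≤ z → z ≤ b₂ → |(z : ℝ) - a| ≤ N) {T : ℕ} {η : ℝ}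
    (hη : ∀ s ≤ T, K p s a b₁ ≤ η ∧ K p s a b₂ ≤ η) {r : ℕ} (hr : r ≤ T) :
    mom p a r a ≤ N ^ 2 + (N + T) ^ 2 * ((T + 1) * (2 * η)) := by
  have h3 := mom_confine h hN hw r a h1 h2
  refine h3.trans ?_
  have hη0 : 0 ≤ η := (K_nonneg h 0 a b₁).trans (hη 0 (Nat.zero_le _)).1
  have h4 : ∑ s ∈ range (r + 1), (K p s a b₁ + K p s a b₂) ≤ (T + 1) * (2 * η) := by
    calc ∑ s ∈ range (r + 1), (K p s a b₁ + K p s a b₂) ≤ ∑ _s ∈ range (r + 1), 2 * η := by
          apply Finset.sum_le_sum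
          intro s hs
          have := hη s (by have := Finset.mem_range.1 hs; omega)
          linarith [this.1, this.2]
      _ = (r + 1) * (2 * η) := by rw [Finset.sum_const, Finset.card_range, nsmul_eq_mul]; push_cast; ring
      _ ≤ (T + 1) * (2 * η) := by
          have : (r : ℝ) ≤ T := by exact_mod_cast hr
          gcongr
  have h5 : (N + r) ^ 2 ≤ (N + T) ^ 2 := by
    have : (r : ℝ) ≤ T := by exact_mod_cast hr
    gcongr
  have h6 : 0 ≤ ∑ s ∈ range (r + 1), (K p s a b₁ + K p s a b₂) :=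
    Finset.sum_nonneg fun s _ => add_nonneg (K_nonneg h _ _ _) (K_nonneg h _ _ _)
  gcongr

/-- **Diffusive bound**: if the potential does not drop by more than `B` at distance `N`. -/
lemma mom_diffusive (h : Pot p V κ) {T N : ℕ} (hT : 0 < T) (hN : N ≤ T) {a : ℤ} {B : ℝ}
    (h1 : -B ≤ V (a - N) - V a) (h2 : -B ≤ V (a + N) - V a) {r : ℕ} (hr : r ≤ T) :
    mom p a r a ≤ N ^ 2 + (N + T) ^ 2 * ((T + 1) *
      (2 * (Real.exp (1 / 4 - N ^ 2 / (8 * T) + B / 2) / κ))) := by
  apply mom_confine' h (N := N) (by positivity) (a := a) (b₁ := a - N) (b₂ := a + N)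
    (by omega) (by omega) _ _ hr
  · intro z hz1 hz2
    rw [abs_le]
    have e1 : (a : ℝ) - N ≤ z := by exact_mod_cast hz1
    have e2 : (z : ℝ) ≤ a + N := by exact_mod_cast hz2
    constructor <;> linarith
  · intro s hs
    constructor
    · exact K_gauss h hs hT hN (by simp) h1
    · exact K_gauss h hs hT hN (by simp) h2

end Pool.Agent.MP545af4
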