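import Mathlib

/-!
Definitions for the quasi-periodic walk.
-/

namespace Pool.Agent.MP545af4

/-- `prob p α x t k = P_x(Z_t = k)` for the quasi-periodic walk: `Z_0 = 0`, and from site `k` the
walk moves to `k + 1` with probability `p (x + k α)` and to `k - 1` with probability
`1 - p (x + k α)`. -/
noncomputable def prob (p : ℝ → ℝ) (α x : ℝ) : ℕ → ℤ → ℝ
  | 0, k => if k = 0 then 1 else 0
  | t + 1, k =>
      prob p α x t (k - 1) * p (x + ((k - 1 : ℤ) : ℝ) * α) +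
      prob p α x t (k + 1) * (1 - p (x + ((k + 1 : ℤ) : ℝ) * α))

/-- `Var_x(Z_T)`; the walk satisfies `|Z_T| ≤ T`. -/
noncomputable def variance (p : ℝ → ℝ) (α x : ℝ) (T : ℕ) : ℝ :=
  ∑ k ∈ Finset.Icc (-(T : ℤ)) T, (k : ℝ) ^ 2 * prob p α x T k -
    (∑ k ∈ Finset.Icc (-(T : ℤ)) T, (k : ℝ) * prob p α x T k) ^ 2

/-- `p : 𝕋 → (0, 1)` of class `C²`, as a `1`-periodic function on `ℝ`, with
`∫ ln p = ∫ ln (1 - p)` (the symmetry of the walk). -/
structure IsSymEnv (p : ℝ → ℝ) : Prop where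
  smooth : ContDiff ℝ 2 p
  periodic : ∀ y, p (y + 1) = p y
  mem : ∀ y, 0 < p y ∧ p y < 1
  symm : ∫ y in (0 : ℝ)..1, Real.log (p y) = ∫ y in (0 : ℝ)..1, Real.log (1 - p y)

/-- `α` is Diophantine. -/
def IsDiophantine (α : ℝ) : Prop :=
  ∃ γ > (0 : ℝ), ∃ τ ≥ (0 : ℝ), ∀ (a : ℤ) (q : ℕ), 1 ≤ q →
    γ * (q : ℝ) ^ (-2 - τ) ≤ |α - a / q|

/-- `limsup_{T → ∞} ln Var_x(Z_T) / ln T`, as an extended real number. -/
noncomputable def growth (p : ℝ → ℝ) (α x : ℝ) : EReal :=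
  Filter.limsup (fun T : ℕ => ((Real.log (variance p α x T) / Real.log T : ℝ) : EReal))
    Filter.atTop

end Pool.Agent.MP545af4
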