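import Pool.Agent.Lib.MP_545af4_pr.Circle
import Pool.Agent.Lib.MP_545af4_pr.Confine

/-!
Quasi-periodic environments: potential and block sums.
-/

namespace Pool.Agent.MP545af4

open Finset MeasureTheory

/-- Birkhoff sums. -/
noncomputable def S (φ : ℝ → ℝ) (α : ℝ) (n : ℕ) (y : ℝ) : ℝ := ∑ j ∈ range n, φ (y + j * α)

/-- The potential along the orbit of `x`. -/
noncomputable def pot (φ : ℝ → ℝ) (α x : ℝ) (z : ℤ) : ℝ :=
  if 0 ≤ z then ∑ j ∈ range z.toNat, φ (x + (j + 1) * α)
  else -∑ j ∈ range (-z).toNat, φ (x - j * α)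

variable {φ : ℝ → ℝ} {C α x : ℝ}

lemma pot_step (z : ℤ) : pot φ α x z - pot φ α x (z - 1) = φ (x + z * α) := by
  rcases lt_trichotomy z 0 with hz | hz | hz
  · rw [pot, pot, if_neg (by omega), if_neg (by omega)]
    have e1 : (-(z - 1)).toNat = (-z).toNat + 1 := by omega
    rw [e1, Finset.sum_range_succ]
    have e2 : (((-z).toNat : ℕ) : ℝ) = -z := by
      have : (((-z).toNat : ℕ) : ℤ) = -z := Int.toNat_of_nonneg (by omega)
      rw [← Int.cast_natCast (R := ℝ), this]
      exact Int.cast_neg z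
    rw [e2, show x - -(z : ℝ) * α = x + z * α by ring]
    ring
  · subst hz
    rw [pot, pot, if_pos le_rfl, if_neg (by omega)]
    simp
  · rw [pot, pot, if_pos (by omega), if_pos (by omega)]
    have e1 : z.toNat = (z - 1).toNat + 1 := by omega
    rw [e1, Finset.sum_range_succ]
    have e2 : (((z - 1).toNat : ℕ) : ℝ) + 1 = z := by
      have : (((z - 1).toNat : ℕ) : ℤ) = z - 1 := Int.toNat_of_nonneg (by omega)
      calc (((z - 1).toNat : ℕ) : ℝ) + 1 = ((((z - 1).toNat : ℕ) : ℤ) : ℝ) + 1 := by simp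
        _ = ((z - 1 : ℤ) : ℝ) + 1 := by rw [this]
        _ = z := by simp
    rw [e2]
    ring

lemma pot_add_nat (z : ℤ) (n : ℕ) :
    pot φ α x (z + n) - pot φ α x z = S φ α n (x + (z + 1) * α) := by
  induction n with
  | zero => simp [S]
  | succ n ih =>
    have h1 := pot_step (φ := φ) (α := α) (x := x) (z + (n + 1 : ℕ))
    have e1 : z + ((n + 1 : ℕ) : ℤ) - 1 = z + n := by push_cast; ring
    rw [e1] at h1
    rw [S, Finset.sum_range_succ]
    rw [S] at ih
    rw [← ih]
    have e2 : x + ((z + (n + 1 : ℕ) : ℤ) : ℝ) * α = x + (z + 1) * α + n * α := by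
      push_cast; ring
    rw [e2] at h1
    linarith

lemma S_phi (h : Phi φ C) {n : ℕ} (hn : 0 < n) : Phi (S φ α n) (n * C) := by
  have hn' : (0 : ℝ) < n := by exact_mod_cast hn
  have hC := h.pos
  have hder : ∀ y, HasDerivAt (S φ α n) (∑ j ∈ range n, deriv φ (y + j * α)) y := by
    intro y
    unfold S
    apply HasDerivAt.fun_sum
    intro j _
    exact (h.diff (y + j * α)).hasDerivAt.comp_add_const y (j * α)
  have hd : ∀ y, deriv (S φ α n) y = ∑ j ∈ range n, deriv φ (y + j * α) := fun y => (hder y).deriv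
  refine ⟨by positivity, fun y => ?_, fun y => ?_, fun y => (hder y).differentiableAt,
    fun y => ?_, fun y y' => ?_, ?_⟩
  · unfold S
    apply Finset.sum_congr rfl
    intro j _
    rw [show y + 1 + j * α = (y + j * α) + 1 by ring, h.per]
  · unfold S
    refine (Finset.abs_sum_le_sum_abs _ _).trans ?_
    refine (Finset.sum_le_sum fun j _ => h.bd _).trans ?_
    rw [Finset.sum_const, Finset.card_range, nsmul_eq_mul]
  · rw [hd]
    refine (Finset.abs_sum_le_sum_abs _ _).trans ?_
    refine (Finset.sum_le_sum fun j _ => h.dbd _).trans ?_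
    rw [Finset.sum_const, Finset.card_range, nsmul_eq_mul]
  · rw [hd, hd, ← Finset.sum_sub_distrib]
    refine (Finset.abs_sum_le_sum_abs _ _).trans ?_
    refine (Finset.sum_le_sum fun j _ => h.dlip _ _).trans ?_
    simp only [add_sub_add_right_eq_sub]
    rw [Finset.sum_const, Finset.card_range, nsmul_eq_mul]
    apply le_of_eq; ring
  · unfold S
    rw [intervalIntegral.integral_finsetSum]
    · apply Finset.sum_eq_zero
      intro j _
      have h1 : ∫ s in (0 : ℝ)..1, φ (s + j * α) = ∫ s in (j * α)..(j * α + 1), φ s := by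
        rw [intervalIntegral.integral_comp_add_right (fun s => φ s) (j * α)]
        rw [zero_add, add_comm 1]
      rw [h1, h.periodic.intervalIntegral_add_eq (j * α) 0]
      simpa using h.int
    · intro j _
      have := h.cont
      exact Continuous.intervalIntegrable (by fun_prop) _ _

/-- The approximate period. -/
structure Per (α : ℝ) (Q : ℕ) (δ : ℝ) : Prop where
  Qpos : 2 ≤ Q
  δpos : 0 < δ
  eq : ∃ A : ℤ, (Q : ℝ) * α = A + δ

variable {Q : ℕ} {δ : ℝ}

lemma Per.shift (hP : Per α Q δ) (h : Phi φ C) (y : ℝ) (m : ℤ) :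
    φ (y + m * (Q * α)) = φ (y + m * δ) := by
  obtain ⟨A, hA⟩ := hP.eq
  rw [hA, show y + m * ((A : ℝ) + δ) = y + m * δ + ((m * A : ℤ) : ℝ) by push_cast; ring,
    h.add_int]

lemma Per.step (hP : Per α Q δ) (h : Phi φ C) (y : ℝ) :
    |S φ α Q (y + α) - S φ α Q y| ≤ C * δ := by
  have e1 : S φ α Q (y + α) - S φ α Q y = φ (y + Q * α) - φ y := by
    have h1 := Finset.sum_range_succ (fun j : ℕ => φ (y + j * α)) Q
    have h2 := Finset.sum_range_succ' (fun j : ℕ => φ (y + j * α)) Q
    rw [h1] at h2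
    have h3 : S φ α Q (y + α) = ∑ j ∈ range Q, φ (y + (j + 1 : ℕ) * α) := by
      unfold S
      apply Finset.sum_congr rfl
      intro j _
      congr 1; push_cast; ring
    rw [h3, S]
    simp only [Nat.cast_zero, zero_mul, add_zero] at h2
    linarith
  have e2 : φ (y + Q * α) = φ (y + δ) := by
    have := hP.shift h y 1
    simpa using this
  rw [e1, e2]
  have := h.lip (y + δ) y
  rwa [show y + δ - y = δ by ring, abs_of_pos hP.δpos] at this

lemma Per.steps (hP : Per α Q δ) (h : Phi φ C) (y : ℝ) (r : ℕ) :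
    |S φ α Q (y + r * α) - S φ α Q y| ≤ r * (C * δ) := by
  induction r with
  | zero => simp
  | succ r ih =>
    have h1 := hP.step h (y + r * α)
    have e1 : y + r * α + α = y + (r + 1 : ℕ) * α := by push_cast; ring
    rw [e1] at h1
    have h2 := abs_add_le (S φ α Q (y + (r + 1 : ℕ) * α) - S φ α Q (y + r * α))
      (S φ α Q (y + r * α) - S φ α Q y)
    rw [show S φ α Q (y + (r + 1 : ℕ) * α) - S φ α Q (y + r * α) +
      (S φ α Q (y + r * α) - S φ α Q y) = S φ α Q (y + (r + 1 : ℕ) * α) - S φ α Q y by ring] at h2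
    push_cast at *
    linarith

/-- Increment of the potential over a block. -/
lemma pot_block (hP : Per α Q δ) (h : Phi φ C) (z : ℤ) :
    |pot φ α x (z + Q) - pot φ α x z - S φ α Q (x + ((z + 1) / (Q : ℤ) : ℤ) * δ)| ≤
      Q * (C * δ) := by
  have hQ0 : 0 < Q := by have := hP.Qpos; omega
  have hg := S_phi (α := α) h hQ0
  rw [pot_add_nat]
  set m : ℤ := (z + 1) / (Q : ℤ) with hm
  set r : ℤ := (z + 1) % (Q : ℤ) with hr
  have hQz : (0 : ℤ) < Q := by exact_mod_cast hQ0
  have hr0 : 0 ≤ r := Int.emod_nonneg _ hQz.ne'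
  have hr1 : r < Q := Int.emod_lt_of_pos _ hQz
  have he : z + 1 = m * Q + r := by
    have := Int.emod_add_mul_ediv (z + 1) Q
    rw [hm, hr]
    linarith
  have he' : (z : ℝ) + 1 = m * Q + r := by exact_mod_cast he
  obtain ⟨r', hr'⟩ : ∃ r' : ℕ, r = r' := ⟨r.toNat, by omega⟩
  have e1 : S φ α Q (x + (z + 1) * α) = S φ α Q (x + m * δ + r' * α) := by
    rw [he', show x + ((m : ℝ) * Q + r) * α = (x + r * α) + m * (Q * α) by ring,
      hP.shift hg, hr']
    congr 1
    push_cast
    ring
  rw [e1]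
  refine (hP.steps h _ r').trans ?_
  have h1 : (r' : ℝ) ≤ Q := by
    have : r' < Q := by omega
    exact_mod_cast this.le
  have hC := h.pos
  have hδ := hP.δpos
  gcongr

/-- Short range bound. -/
lemma pot_short (h : Phi φ C) (z : ℤ) (n : ℕ) :
    |pot φ α x (z + n) - pot φ α x z| ≤ n * C := by
  rw [pot_add_nat, S]
  refine (Finset.abs_sum_le_sum_abs _ _).trans ?_
  refine (Finset.sum_le_sum fun j _ => h.bd _).trans ?_
  rw [Finset.sum_const, Finset.card_range, nsmul_eq_mul]

/-- Long range bound. -/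
lemma pot_long (hP : Per α Q δ) (h : Phi φ C) (z : ℤ) (n : ℕ) :
    |pot φ α x (z + n) - pot φ α x z| ≤ Q * C / δ + n * (C * δ) + Q * C := by
  have hQ0 : 0 < Q := by have := hP.Qpos; omega
  have hg := S_phi (α := α) h hQ0
  have hblocks : ∀ i : ℕ, pot φ α x (z + (i * Q : ℕ)) - pot φ α x z =
      ∑ j ∈ range i, S φ α Q (x + (z + 1) * α + j * δ) := by
    intro i
    induction i with
    | zero => simp
    | succ i ih =>
      rw [Finset.sum_range_succ, ← ih]
      have h1 := pot_add_nat (φ := φ) (α := α) (x := x) (z + (i * Q : ℕ)) Q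
      have e1 : z + ((i * Q : ℕ) : ℤ) + (Q : ℤ) = z + (((i + 1) * Q : ℕ) : ℤ) := by
        push_cast; ring
      rw [e1] at h1
      have e2 : S φ α Q (x + (((z + (i * Q : ℕ) : ℤ) : ℝ) + 1) * α) =
          S φ α Q (x + (z + 1) * α + i * δ) := by
        have := hP.shift hg (x + (z + 1) * α) (i : ℤ)
        rw [Int.cast_natCast] at this
        rw [← this]
        congr 1
        push_cast
        ring
      rw [e2] at h1
      linarith
  set i := n / Q with hi
  set r := n % Q with hr
  have hn : n = i * Q + r := by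
    have := Nat.mod_add_div n Q
    rw [hi, hr, mul_comm]
    omega
  have hr1 : r < Q := Nat.mod_lt _ hQ0
  have h1 := hg.sum_le hP.δpos (x + (z + 1) * α) i
  rw [← hblocks i] at h1
  have h2 := pot_short (φ := φ) (α := α) (x := x) h (z + (i * Q : ℕ)) r
  have e1 : z + ((i * Q : ℕ) : ℤ) + (r : ℤ) = z + (n : ℤ) := by
    rw [add_assoc]; congr 1
    exact_mod_cast hn.symm
  rw [e1] at h2
  have h3 := abs_add_le (pot φ α x (z + n) - pot φ α x (z + (i * Q : ℕ)))
    (pot φ α x (z + (i * Q : ℕ)) - pot φ α x z)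
  rw [sub_add_sub_cancel] at h3
  have hC := h.pos
  have hδ := hP.δpos
  have h4 : (r : ℝ) * C ≤ Q * C := by
    have : (r : ℝ) ≤ Q := by exact_mod_cast hr1.le
    gcongr
  have h5 : (i : ℝ) * (Q * C * δ) ≤ n * (C * δ) := by
    have h6 : (i : ℝ) * Q ≤ n := by
      have : i * Q ≤ n := by omega
      exact_mod_cast this
    calc (i : ℝ) * (Q * C * δ) = (i * Q) * (C * δ) := by ring
      _ ≤ n * (C * δ) := by gcongr
  linarith

/-- The environment seen from `x`. -/
def envAt (p : ℝ → ℝ) (α x : ℝ) : ℤ → ℝ := fun z => p (x + z * α)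

/-- Data of an environment with constant `C`. -/
structure Data (p : ℝ → ℝ) (C : ℝ) : Prop where
  one_le : 1 ≤ C
  lo : ∀ y, 1 / C ≤ p y
  hi : ∀ y, 1 / C ≤ 1 - p y
  per : ∀ y, p (y + 1) = p y
  lip : ∀ y y', |p y - p y'| ≤ C * |y - y'|
  phi : Phi (fun y => Real.log (1 - p y) - Real.log (p y)) C

variable {p : ℝ → ℝ}

/-- The function `ln (q / p)`. -/
noncomputable def lr (p : ℝ → ℝ) : ℝ → ℝ := fun y => Real.log (1 - p y) - Real.log (p y)

lemma Data.pot (h : Data p C) (α x : ℝ) : Pot (envAt p α x) (pot (lr p) α x) (1 / C) := by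
  have hC : 0 < C := by linarith [h.one_le]
  refine ⟨by positivity, fun z => h.lo _, fun z => h.hi _, fun z => ?_⟩
  rw [pot_step]
  have h1 : 0 < p (x + z * α) := lt_of_lt_of_le (by positivity) (h.lo _)
  have h2 : 0 < 1 - p (x + z * α) := lt_of_lt_of_le (by positivity) (h.hi _)
  simp only [envAt, lr]
  rw [Real.exp_sub, Real.exp_log h2, Real.exp_log h1]
  field_simp

end Pool.Agent.MP545af4
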