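import Pool.Agent.Lib.MP_545af4_pr.Regimes2

/-!
The exceptional sets and the almost sure bound.
-/

namespace Pool.Agent.MP545af4

open Filter Topology MeasureTheory

variable {p : ℝ → ℝ} {C : ℝ}

/-- The exceptional set of stage `k`. -/
def Exc (p : ℝ → ℝ) (k : ℕ) : Set ℝ :=
  {x | |S (lr p) alpha (Q k) x| < 1 / Y k ^ 16 ∧
    1 / (2 * Y k ^ 7) ≤ |deriv (S (lr p) alpha (Q k)) x|}

lemma exc_measure (hD : Data p C) : ∀ᶠ k in atTop, ∀ a : ℝ,
    volume (Exc p k ∩ Set.Icc a (a + 1)) ≤ ENNReal.ofReal (1 / Y k) := by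
  filter_upwards [big hD.one_le] with k hB a
  have hY := hB.Y1
  have hY0 : 0 < Y k := by linarith
  have hqcY := hB.qcY
  have hqc := hB.qc
  have hg : Phi (S (lr p) alpha (Q k)) (Q k * C) := S_phi hD.phi (Q_pos k)
  have h1 := hg.exc_measure (t := 1 / Y k ^ 16) (β := 1 / (2 * Y k ^ 7)) (by positivity)
    (by positivity) a
  refine h1.trans (ENNReal.ofReal_le_ofReal ?_)
  have e1 : (2 * (Q k * C) / (1 / (2 * Y k ^ 7)) + 2) * (4 * (1 / Y k ^ 16) / (1 / (2 * Y k ^ 7))) =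
      (4 * (Q k * C) * Y k ^ 7 + 2) * 8 / Y k ^ 9 := by
    field_simp
    ring
  rw [e1, div_le_div_iff₀ (by positivity) hY0, one_mul]
  have h2 : (16 : ℝ) ≤ Y k ^ 7 := by
    calc (16 : ℝ) ≤ Y k ^ 1 := by rw [pow_one]; linarith
      _ ≤ Y k ^ 7 := pow_le_pow_right₀ (by linarith) (by norm_num)
  calc (4 * (Q k * C) * Y k ^ 7 + 2) * 8 * Y k = (32 * (Q k * C)) * Y k ^ 8 + 16 * Y k := by ring
    _ ≤ (Y k / 2) * Y k ^ 8 + (Y k ^ 7) * Y k := by
      gcongr
      linarith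
    _ = Y k ^ 9 / 2 + Y k ^ 8 := by ring
    _ ≤ Y k ^ 9 := by
      have : 2 * Y k ^ 8 ≤ Y k ^ 9 := by
        calc 2 * Y k ^ 8 ≤ Y k * Y k ^ 8 := by gcongr; linarith
          _ = Y k ^ 9 := by ring
      linarith

lemma ae_not_exc (hD : Data p C) : ∀ᵐ x : ℝ, ∀ᶠ k in atTop, x ∉ Exc p k := by
  -- summability
  have hsum : ∃ K, ∀ k ≥ K, (∀ a : ℝ,
      volume (Exc p k ∩ Set.Icc a (a + 1)) ≤ ENNReal.ofReal (1 / Y k)) ∧
      1 / Y k ≤ (1 / 2) ^ k := by
    have h1 : ∀ᶠ k in atTop, 1 / Y k ≤ (1 / 2 : ℝ) ^ k := by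
      filter_upwards [sub_exp 1 (ε := 1 / 40) (by norm_num)] with k hk
      have h2 : (2 : ℝ) ^ k ≤ Y k := by
        refine le_trans ?_ hk
        rw [one_mul]
        have h3 : (2 : ℝ) ≤ Real.exp 1 := by
          have := Real.add_one_le_exp (1 : ℝ)
          linarith
        have h4 : (k : ℝ) ≤ Q k := by exact_mod_cast (Q_gt k).le
        calc (2 : ℝ) ^ k ≤ Real.exp 1 ^ k := by gcongr
          _ = Real.exp k := by rw [← Real.exp_nat_mul, mul_one]
          _ ≤ Real.exp (Q k) := Real.exp_le_exp.2 h4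
      rw [one_div_pow]
      exact one_div_le_one_div_of_le (by positivity) h2
    exact eventually_atTop.1 ((exc_measure hD).and h1)
  obtain ⟨K, hK⟩ := hsum
  have hloc : ∀ n : ℤ, ∀ᵐ x ∂(volume.restrict (Set.Icc (n : ℝ) (n + 1))),
      ∀ᶠ k in atTop, x ∉ Exc p k := by
    intro n
    have hfin : ∑' k, (volume.restrict (Set.Icc (n : ℝ) (n + 1))) (Exc p (k + K)) ≠ ⊤ := by
      have h1 : ∀ k, (volume.restrict (Set.Icc (n : ℝ) (n + 1))) (Exc p (k + K)) ≤
          ENNReal.ofReal ((1 / 2) ^ k) := by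
        intro k
        rw [Measure.restrict_apply' measurableSet_Icc]
        refine ((hK (k + K) (by omega)).1 n).trans (ENNReal.ofReal_le_ofReal ?_)
        refine ((hK (k + K) (by omega)).2).trans ?_
        exact pow_le_pow_of_le_one (by norm_num) (by norm_num) (by omega)
      have h2 : ∑' k : ℕ, ENNReal.ofReal ((1 / 2 : ℝ) ^ k) ≠ ⊤ := by
        rw [← ENNReal.ofReal_tsum_of_nonneg (fun k => by positivity) summable_geometric_two]
        exact ENNReal.ofReal_ne_top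
      exact ne_top_of_le_ne_top h2 (ENNReal.tsum_le_tsum h1)
    filter_upwards [ae_eventually_notMem hfin] with x hx
    rw [eventually_atTop] at hx ⊢
    obtain ⟨m, hm⟩ := hx
    refine ⟨m + K, fun k hk => ?_⟩
    have := hm (k - K) (by omega)
    rwa [show k - K + K = k by omega] at this
  have hU : (⋃ n : ℤ, Set.Icc (n : ℝ) (n + 1)) = Set.univ := by
    rw [Set.eq_univ_iff_forall]
    intro x
    rw [Set.mem_iUnion]
    exact ⟨⌊x⌋, Int.floor_le x, (Int.lt_floor_add_one x).le⟩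
  have h1 := (ae_restrict_iUnion_iff (μ := (volume : Measure ℝ))
    (fun n : ℤ => Set.Icc (n : ℝ) (n + 1)) (fun x => ∀ᶠ k in atTop, x ∉ Exc p k)).2 hloc
  rwa [hU, Measure.restrict_univ] at h1

/-- The almost sure bound. -/
theorem ae_bound (hD : Data p C) : ∀ᵐ x : ℝ, ∀ᶠ T : ℕ in atTop,
    var (envAt p alpha x) T 0 ≤ (T : ℝ) ^ (19 / 10 : ℝ) := by
  filter_upwards [ae_not_exc hD] with x hx
  have hk : ∀ᶠ k in atTop, x ∉ Exc p k ∧
      (∀ T : ℕ, Y k ^ 40 ≤ T → (T : ℝ) ≤ Y k ^ 45 →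
        var (envAt p alpha x) T 0 ≤ (T : ℝ) ^ (19 / 10 : ℝ)) ∧
      (Q k : ℝ) * C ≤ X k ^ (1 / 1000 : ℝ) ∧ 1 ≤ X k := by
    have hqc : ∀ᶠ k in atTop, (Q k : ℝ) * C ≤ X k ^ (1 / 1000 : ℝ) := by
      filter_upwards [sub_exp C (ε := 1 / 1000) (by norm_num)] with k hk
      refine le_trans ?_ hk
      have := Real.add_one_le_exp (C * Q k)
      linarith
    filter_upwards [hx, regB_fast hD, regB_slow hD, regB_left hD, hqc,
      X_tendsto.eventually_ge_atTop 1, big hD.one_le] with k h1 h2 h3 h4 h5 h6 hB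
    refine ⟨h1, fun T hT1 hT2 => ?_, h5, h6⟩
    refine le_trans ?_ (Y36_le hT1)
    have hY0 := Y_pos k
    rcases lt_or_ge |S (lr p) alpha (Q k) x| (1 / Y k ^ 16) with hs | hs
    · have h7 : |deriv (S (lr p) alpha (Q k)) x| < 1 / (2 * Y k ^ 7) := by
        by_contra hcon
        push Not at hcon
        exact h1 ⟨hs, hcon⟩
      exact h3 x hs h7 T hT1 hT2
    · rcases le_abs.1 hs with h7 | h7
      · exact h4 x h7 T hT1 hT2
      · apply h2 x _ T hT1 hT2
        have h8 : 1 / Y k ^ 16 = 1 / (2 * Y k ^ 16) + 1 / (2 * Y k ^ 16) := by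
          field_simp; norm_num
        have h9 : 0 < 1 / (2 * Y k ^ 16) := by positivity
        linarith
  obtain ⟨K, hK⟩ := eventually_atTop.1 hk
  filter_upwards [regA hD, regC hD, eventually_ge_atTop (Q K ^ 3)] with T hA hC hT
  obtain ⟨k, hkK, hk1, hk2⟩ := exists_stage K T hT
  obtain ⟨_, hB, hqc, hX1⟩ := hK k hkK
  have hk1' : (Q k : ℝ) ^ 3 ≤ T := by exact_mod_cast hk1
  have hk2' : (T : ℝ) ≤ (Q (k + 1) : ℝ) ^ 3 := by exact_mod_cast hk2.le
  rcases le_or_gt (T : ℝ) (X k) with h1 | h1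
  · exact hA k x hk1' h1
  · rcases le_or_gt (T : ℝ) (Y k ^ 45) with h2 | h2
    · exact hB T (by rw [Y_pow]; exact h1.le) h2
    · apply hC k x hqc hX1 _ hk2'
      refine le_trans (le_of_eq ?_) h2.le
      unfold Y
      rw [← Real.rpow_natCast, ← Real.rpow_mul (X_pos k).le]
      norm_num

end Pool.Agent.MP545af4
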