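import Pool.Agent.Lib.MP_545af4_pr.Confine

/-!
The walk absorbed at a site `b`, in an environment with a drift towards `b`.
-/

namespace Pool.Agent.MP545af4

open Finset

/-- Expectation of `f` for the walk absorbed in `[b, ∞)`. -/
def exb (p : ℤ → ℝ) (b : ℤ) : ℕ → (ℤ → ℝ) → ℤ → ℝ
  | 0, f, z => f z
  | t + 1, f, z =>
      if z < b then p z * exb p b t f (z + 1) + (1 - p z) * exb p b t f (z - 1) else f z

variable {p V : ℤ → ℝ} {κ : ℝ} {b : ℤ}

lemma exb_zero (f : ℤ → ℝ) (z : ℤ) : exb p b 0 f z = f z := rfl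

lemma exb_succ (t : ℕ) (f : ℤ → ℝ) {z : ℤ} (hz : z < b) :
    exb p b (t + 1) f z = p z * exb p b t f (z + 1) + (1 - p z) * exb p b t f (z - 1) := by
  rw [exb, if_pos hz]

lemma exb_of_le (t : ℕ) (f : ℤ → ℝ) {z : ℤ} (hz : b ≤ z) : exb p b t f z = f z := by
  cases t with
  | zero => rfl
  | succ t => rw [exb, if_neg (by omega)]

/-- Mean of the absorbed walk. -/
def meanb (p : ℤ → ℝ) (b : ℤ) (t : ℕ) (z : ℤ) : ℝ := exb p b t (fun w => (w : ℝ)) z

/-- Second moment around `c` of the absorbed walk. -/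
def momb (p : ℤ → ℝ) (b : ℤ) (c : ℝ) (t : ℕ) (z : ℤ) : ℝ :=
  exb p b t (fun w => ((w : ℝ) - c) ^ 2) z

/-- Variance of the absorbed walk. -/
def varb (p : ℤ → ℝ) (b : ℤ) (t : ℕ) (z : ℤ) : ℝ := momb p b 0 t z - meanb p b t z ^ 2

lemma meanb_zero (z : ℤ) : meanb p b 0 z = z := rfl

lemma meanb_succ (t : ℕ) {z : ℤ} (hz : z < b) :
    meanb p b (t + 1) z = p z * meanb p b t (z + 1) + (1 - p z) * meanb p b t (z - 1) :=
  exb_succ t _ hz

lemma meanb_of_le (t : ℕ) {z : ℤ} (hz : b ≤ z) : meanb p b t z = z := exb_of_le t _ hz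

lemma momb_zero (c : ℝ) (z : ℤ) : momb p b c 0 z = ((z : ℝ) - c) ^ 2 := rfl

lemma momb_succ (c : ℝ) (t : ℕ) {z : ℤ} (hz : z < b) :
    momb p b c (t + 1) z = p z * momb p b c t (z + 1) + (1 - p z) * momb p b c t (z - 1) :=
  exb_succ t _ hz

lemma momb_of_le (c : ℝ) (t : ℕ) {z : ℤ} (hz : b ≤ z) : momb p b c t z = ((z : ℝ) - c) ^ 2 :=
  exb_of_le t _ hz

lemma momb_eq (c : ℝ) (t : ℕ) (z : ℤ) :
    momb p b c t z = momb p b 0 t z - 2 * c * meanb p b t z + c ^ 2 := by
  induction t generalizing z with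
  | zero => simp only [momb_zero, meanb_zero]; ring
  | succ t ih =>
    by_cases hz : z < b
    · rw [momb_succ _ _ hz, momb_succ _ _ hz, meanb_succ _ hz, ih, ih]; ring
    · rw [momb_of_le _ _ (not_lt.1 hz), momb_of_le _ _ (not_lt.1 hz), meanb_of_le _ (not_lt.1 hz)]
      ring

lemma momb_self (t : ℕ) (z : ℤ) : momb p b (meanb p b t z) t z = varb p b t z := by
  rw [varb, momb_eq (meanb p b t z)]
  ring

lemma varb_le_momb (c : ℝ) (t : ℕ) (z : ℤ) : varb p b t z ≤ momb p b c t z := by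
  rw [varb, momb_eq c]
  nlinarith [sq_nonneg (meanb p b t z - c)]

lemma varb_zero (z : ℤ) : varb p b 0 z = 0 := by
  rw [varb, momb_zero, meanb_zero]; ring

lemma varb_of_le (t : ℕ) {z : ℤ} (hz : b ≤ z) : varb p b t z = 0 := by
  rw [varb, momb_of_le _ _ hz, meanb_of_le _ hz]; ring

lemma varb_succ (t : ℕ) {z : ℤ} (hz : z < b) :
    varb p b (t + 1) z = p z * varb p b t (z + 1) + (1 - p z) * varb p b t (z - 1) +
      p z * (1 - p z) * (meanb p b t (z + 1) - meanb p b t (z - 1)) ^ 2 := by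
  rw [varb, varb, varb, momb_succ _ _ hz, meanb_succ _ hz]; ring

lemma momb_le (hp : IsEnv p) (t : ℕ) (c : ℝ) (z : ℤ) :
    momb p b c t z ≤ (|(z : ℝ) - c| + t) ^ 2 := by
  induction t generalizing z with
  | zero => rw [momb_zero]; simp
  | succ t ih =>
    by_cases hz : z < b
    · rw [momb_succ _ _ hz]
      have h1 := ih (z + 1)
      have h2 := ih (z - 1)
      have h3 : |((z + 1 : ℤ) : ℝ) - c| ≤ |(z : ℝ) - c| + 1 := by
        have := abs_add_le ((z : ℝ) - c) 1
        rw [abs_one] at this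
        push_cast
        rw [show (z : ℝ) + 1 - c = (z : ℝ) - c + 1 by ring]
        exact this
      have h4 : |((z - 1 : ℤ) : ℝ) - c| ≤ |(z : ℝ) - c| + 1 := by
        have := abs_sub ((z : ℝ) - c) 1
        rw [abs_one] at this
        push_cast
        rw [show (z : ℝ) - 1 - c = (z : ℝ) - c - 1 by ring]
        exact this
      have h5 : (|((z + 1 : ℤ) : ℝ) - c| + t) ^ 2 ≤ (|(z : ℝ) - c| + (t + 1 : ℕ)) ^ 2 := by
        push_cast
        apply pow_le_pow_left₀ (by positivity)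
        push_cast at h3
        linarith
      have h6 : (|((z - 1 : ℤ) : ℝ) - c| + t) ^ 2 ≤ (|(z : ℝ) - c| + (t + 1 : ℕ)) ^ 2 := by
        push_cast
        apply pow_le_pow_left₀ (by positivity)
        push_cast at h4
        linarith
      have := (hp z).1
      have : 0 ≤ 1 - p z := by linarith [(hp z).2]
      nlinarith
    · rw [momb_of_le _ _ (not_lt.1 hz), ← sq_abs]
      apply pow_le_pow_left₀ (abs_nonneg _)
      have : (0 : ℝ) ≤ (t + 1 : ℕ) := by positivity
      linarith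

lemma varb_le_sq (hp : IsEnv p) (t : ℕ) (z : ℤ) : varb p b t z ≤ t ^ 2 := by
  have h1 := varb_le_momb (p := p) (b := b) (z : ℝ) t z
  have h2 := momb_le (b := b) hp t (z : ℝ) z
  rw [sub_self, abs_zero, zero_add] at h2
  exact h1.trans h2

lemma meanb_diff (hp : IsEnv p) (t : ℕ) (z : ℤ) :
    |meanb p b (t + 1) z - meanb p b t z| ≤ 1 := by
  induction t generalizing z with
  | zero =>
    by_cases hz : z < b
    · rw [meanb_succ _ hz, meanb_zero, meanb_zero, meanb_zero]
      push_cast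
      rw [abs_le]
      constructor <;> nlinarith [(hp z).1, (hp z).2]
    · rw [meanb_of_le _ (not_lt.1 hz), meanb_of_le _ (not_lt.1 hz)]; simp
  | succ t ih =>
    by_cases hz : z < b
    · rw [meanb_succ _ hz, meanb_succ t hz]
      have h1 := abs_le.1 (ih (z + 1))
      have h2 := abs_le.1 (ih (z - 1))
      have h3 := (hp z).1
      have h4 : 0 ≤ 1 - p z := by linarith [(hp z).2]
      rw [abs_le]
      constructor <;> nlinarith
    · rw [meanb_of_le _ (not_lt.1 hz), meanb_of_le _ (not_lt.1 hz)]; simp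

lemma meanb_sub_le (hp : IsEnv p) (t : ℕ) (z : ℤ) : |meanb p b t z - z| ≤ t := by
  induction t with
  | zero => rw [meanb_zero]; simp
  | succ t ih =>
    have h1 := meanb_diff (b := b) hp t z
    have h2 := abs_add_le (meanb p b (t + 1) z - meanb p b t z) (meanb p b t z - z)
    rw [show meanb p b (t + 1) z - meanb p b t z + (meanb p b t z - z) =
      meanb p b (t + 1) z - z by ring] at h2
    push_cast
    linarith

/-- One step increment of the mean in space. -/
def wb (p : ℤ → ℝ) (b : ℤ) (t : ℕ) (z : ℤ) : ℝ := meanb p b t (z + 1) - meanb p b t z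

lemma wb_le (hp : IsEnv p) (t : ℕ) (z : ℤ) : |wb p b t z| ≤ 1 + 2 * t := by
  have h1 := meanb_sub_le (b := b) hp t (z + 1)
  have h2 := meanb_sub_le (b := b) hp t z
  rw [wb, abs_le]
  rw [abs_le] at h1 h2
  push_cast at h1
  constructor <;> linarith [h1.1, h1.2, h2.1, h2.2]

lemma wb_step (h : Pot p V κ) (t : ℕ) {z : ℤ} (hz : z < b) :
    |wb p b t z| ≤ Real.exp (V z - V (z - 1)) * |wb p b t (z - 1)| + 1 / κ := by
  have h1 : p z * wb p b t z = (1 - p z) * wb p b t (z - 1) +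
      (meanb p b (t + 1) z - meanb p b t z) := by
    rw [meanb_succ _ hz, wb, wb, show z - 1 + 1 = z by ring]; ring
  have hpz : 0 < p z := h.pos.trans_le (h.lo z)
  have h2 : wb p b t z = Real.exp (V z - V (z - 1)) * wb p b t (z - 1) +
      (meanb p b (t + 1) z - meanb p b t z) / p z := by
    rw [h.rel z] at h1
    field_simp
    linarith
  have h3 := meanb_diff (b := b) h.env t z
  rw [h2]
  calc |Real.exp (V z - V (z - 1)) * wb p b t (z - 1) +
      (meanb p b (t + 1) z - meanb p b t z) / p z|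
      ≤ |Real.exp (V z - V (z - 1)) * wb p b t (z - 1)| +
        |(meanb p b (t + 1) z - meanb p b t z) / p z| := abs_add_le _ _
    _ ≤ _ := by
      rw [abs_mul, abs_of_pos (Real.exp_pos _), abs_div, abs_of_pos hpz]
      have := h.lo z
      have := h.pos
      gcongr

lemma wb_sum (h : Pot p V κ) (t : ℕ) (z₀ : ℤ) (n : ℕ) (hn : z₀ + n < b) :
    |wb p b t (z₀ + n)| ≤ Real.exp (V (z₀ + n) - V z₀) * |wb p b t z₀| +
      (1 / κ) * ∑ j ∈ range n, Real.exp (V (z₀ + n) - V (z₀ + (j + 1 : ℕ))) := by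
  induction n with
  | zero => simp
  | succ n ih =>
    have h1 := ih (by push_cast at hn; omega)
    have h2 := wb_step (b := b) h t (z := z₀ + (n + 1 : ℕ)) hn
    have e1 : z₀ + ((n + 1 : ℕ) : ℤ) - 1 = z₀ + n := by push_cast; ring
    rw [e1] at h2
    refine h2.trans ?_
    have h3 := mul_le_mul_of_nonneg_left h1
      (Real.exp_pos (V (z₀ + (n + 1 : ℕ)) - V (z₀ + n))).le
    refine (add_le_add_left h3 _).trans ?_
    rw [Finset.sum_range_succ, mul_add, mul_add, ← mul_assoc, ← Real.exp_add]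
    have e2 : V (z₀ + (n + 1 : ℕ)) - V (z₀ + n) + (V (z₀ + n) - V z₀) =
      V (z₀ + (n + 1 : ℕ)) - V z₀ := by ring
    have e3 : Real.exp (V (z₀ + (n + 1 : ℕ)) - V (z₀ + n)) *
        (1 / κ * ∑ j ∈ range n, Real.exp (V (z₀ + n) - V (z₀ + (j + 1 : ℕ)))) =
        1 / κ * ∑ j ∈ range n, Real.exp (V (z₀ + (n + 1 : ℕ)) - V (z₀ + (j + 1 : ℕ))) := by
      rw [mul_left_comm, Finset.mul_sum]
      congr 1
      apply Finset.sum_congr rfl
      intro j _
      rw [← Real.exp_add]; congr 1; ring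
    rw [e2, e3, sub_self, Real.exp_zero]
    linarith

lemma geom_aux {τ : ℝ} (hτ0 : 0 < τ) (hτ1 : τ ≤ 1) (n : ℕ) :
    ∑ i ∈ range n, Real.exp (-τ * i) ≤ 2 / τ := by
  have h1 : ∀ i : ℕ, Real.exp (-τ * i) = Real.exp (-τ) ^ i := fun i => by
    rw [← Real.exp_nat_mul]; congr 1; ring
  simp_rw [h1]
  have h2 : Real.exp (-τ) ≤ 1 - τ / 2 := by
    have h4 : Real.exp (-τ) * Real.exp τ = 1 := by rw [← Real.exp_add]; simp
    have h5 : 1 + τ ≤ Real.exp τ := by linarith [Real.add_one_le_exp τ]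
    have h6 : Real.exp (-τ) ≤ 1 / (1 + τ) := by
      rw [le_div_iff₀ (by linarith)]
      nlinarith [Real.exp_pos (-τ)]
    refine h6.trans ?_
    rw [div_le_iff₀ (by linarith)]
    nlinarith
  have h3 : 0 < Real.exp (-τ) := Real.exp_pos _
  have h4 : ∑ i ∈ range n, Real.exp (-τ) ^ i ≤ (1 - Real.exp (-τ))⁻¹ := by
    have hs := (hasSum_geometric_of_lt_one h3.le (by linarith))
    exact sum_le_hasSum _ (fun i _ => by positivity) hs
  refine h4.trans ?_
  rw [inv_eq_one_div, div_le_div_iff₀ (by linarith) hτ0]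
  linarith

/-- Bound of the spatial increment in a region of drift. -/
lemma wb_drift (h : Pot p V κ) {M τ : ℝ} (hτ0 : 0 < τ) (hτ1 : τ ≤ 1) {z₀ : ℤ}
    (hV : ∀ j z : ℤ, z₀ ≤ j → j ≤ z → z < b → V z - V j ≤ M - τ * (z - j))
    (t : ℕ) {z : ℤ} (hz0 : z₀ ≤ z) (hz : z < b) :
    |wb p b t z| ≤ Real.exp (M - τ * (z - z₀)) * (1 + 2 * t) +
      Real.exp M * (2 / τ) / κ := by
  obtain ⟨n, hn⟩ : ∃ n : ℕ, z = z₀ + n := ⟨(z - z₀).toNat, by omega⟩
  subst hn
  have h1 := wb_sum (b := b) h t z₀ n hz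
  refine h1.trans ?_
  have hκ := h.pos
  have h2 : Real.exp (V (z₀ + n) - V z₀) ≤ Real.exp (M - τ * (((z₀ + n : ℤ) : ℝ) - z₀)) :=
    Real.exp_le_exp.2 (hV z₀ (z₀ + n) le_rfl (by omega) hz)
  have h3 : ∑ j ∈ range n, Real.exp (V (z₀ + n) - V (z₀ + (j + 1 : ℕ))) ≤
      Real.exp M * (2 / τ) := by
    calc ∑ j ∈ range n, Real.exp (V (z₀ + n) - V (z₀ + (j + 1 : ℕ)))
        ≤ ∑ j ∈ range n, Real.exp M * Real.exp (-τ * ((n - 1 - j : ℕ) : ℝ)) := by
          apply Finset.sum_le_sum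
          intro j hj
          have hj' := Finset.mem_range.1 hj
          rw [← Real.exp_add]
          apply Real.exp_le_exp.2
          refine (hV (z₀ + (j + 1 : ℕ)) (z₀ + n) (by push_cast; omega) (by push_cast; omega)
            hz).trans (le_of_eq ?_)
          have : ((n - 1 - j : ℕ) : ℝ) = n - 1 - j := by
            rw [Nat.cast_sub (by omega), Nat.cast_sub (by omega)]; simp
          rw [this]
          push_cast
          ring
      _ = Real.exp M * ∑ j ∈ range n, Real.exp (-τ * (j : ℝ)) := by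
          rw [← Finset.mul_sum, ← Finset.sum_range_reflect (fun j : ℕ => Real.exp (-τ * (j : ℝ)))]
      _ ≤ Real.exp M * (2 / τ) := by
          gcongr
          exact geom_aux hτ0 hτ1 n
  have h4 := wb_le (b := b) h.env t z₀
  calc Real.exp (V (z₀ + n) - V z₀) * |wb p b t z₀| +
      (1 / κ) * ∑ j ∈ range n, Real.exp (V (z₀ + n) - V (z₀ + (j + 1 : ℕ)))
      ≤ Real.exp (M - τ * (((z₀ + n : ℤ) : ℝ) - z₀)) * (1 + 2 * t) +
        (1 / κ) * (Real.exp M * (2 / τ)) := by
        gcongr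
    _ = _ := by ring

/-- Variance of the absorbed walk. -/
lemma varb_le (h : Pot p V κ) {W : ℝ} {T : ℕ} {z₁ : ℤ}
    (hW : ∀ t ≤ T, ∀ z : ℤ, z₁ ≤ z → z < b → |wb p b t z| ≤ W) (t : ℕ) (ht : t ≤ T) :
    ∀ z : ℤ, z₁ ≤ z → varb p b t z ≤ t * W ^ 2 + T ^ 2 * ∑ s ∈ range (t + 1), K p s z z₁ := by
  have hsum : ∀ (r : ℕ) (z : ℤ), 0 ≤ ∑ s ∈ range (r + 1), K p s z z₁ :=
    fun r z => Finset.sum_nonneg fun s _ => K_nonneg h _ _ _
  induction t with
  | zero =>
    intro z hz
    rw [varb_zero]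
    have := hsum 0 z
    positivity
  | succ t ih =>
    intro z hz
    by_cases hzb : z < b
    · rcases eq_or_lt_of_le hz with hz1 | hz1
      · -- `z = z₁`
        subst hz1
        have h1 : 1 ≤ ∑ s ∈ range (t + 1 + 1), K p s z₁ z₁ := by
          have h4 : K p 0 z₁ z₁ ≤ ∑ s ∈ range (t + 1 + 1), K p s z₁ z₁ :=
            Finset.single_le_sum (f := fun s => K p s z₁ z₁)
              (fun s _ => K_nonneg h _ _ _) (Finset.mem_range.2 (by omega))
          refine le_trans ?_ h4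
          simp [K, ker]
        have h2 := varb_le_sq (b := b) h.env (t + 1) z₁
        have h3 : ((t + 1 : ℕ) : ℝ) ≤ T := by exact_mod_cast ht
        have h4 : ((t + 1 : ℕ) : ℝ) ^ 2 ≤ (T : ℝ) ^ 2 := by gcongr
        have h5 : (T : ℝ) ^ 2 ≤ T ^ 2 * ∑ s ∈ range (t + 1 + 1), K p s z₁ z₁ :=
          le_mul_of_one_le_right (sq_nonneg _) h1
        have h6 : 0 ≤ ((t + 1 : ℕ) : ℝ) * W ^ 2 := by positivity
        linarith
      · rw [varb_succ _ hzb]
        have i1 := ih (by omega) (z + 1) (by omega)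
        have i2 := ih (by omega) (z - 1) (by omega)
        have w1 := hW t (by omega) z hz hzb
        have w2 := hW t (by omega) (z - 1) (by omega) (by omega)
        have hd : |meanb p b t (z + 1) - meanb p b t (z - 1)| ≤ 2 * W := by
          have e1 : meanb p b t (z + 1) - meanb p b t (z - 1) =
              wb p b t z + wb p b t (z - 1) := by
            rw [wb, wb, show z - 1 + 1 = z by ring]; ring
          rw [e1]
          exact (abs_add_le _ _).trans (by linarith)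
        have hd2 : (meanb p b t (z + 1) - meanb p b t (z - 1)) ^ 2 ≤ (2 * W) ^ 2 := by
          rw [← sq_abs]
          exact pow_le_pow_left₀ (abs_nonneg _) hd 2
        have p0 := (h.env z).1
        have q0 : 0 ≤ 1 - p z := by linarith [(h.env z).2]
        have h4 : p z * (1 - p z) ≤ 1 / 4 := by nlinarith [sq_nonneg (p z - 1 / 2)]
        have h7 : p z * (1 - p z) * (meanb p b t (z + 1) - meanb p b t (z - 1)) ^ 2 ≤
            1 / 4 * (2 * W) ^ 2 :=
          mul_le_mul h4 hd2 (sq_nonneg _) (by norm_num)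
        have hS : p z * ∑ s ∈ range (t + 1), K p s (z + 1) z₁ +
            (1 - p z) * ∑ s ∈ range (t + 1), K p s (z - 1) z₁ ≤
            ∑ s ∈ range (t + 1 + 1), K p s z z₁ := by
          rw [Finset.sum_range_succ' (fun s => K p s z z₁) (t + 1), Finset.mul_sum,
            Finset.mul_sum, ← Finset.sum_add_distrib]
          have : ∀ s, p z * K p s (z + 1) z₁ + (1 - p z) * K p s (z - 1) z₁ =
              K p (s + 1) z z₁ := by
            intro s
            simp only [K, ker_succ]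
          simp_rw [this]
          have := K_nonneg h 0 z z₁
          linarith
        calc p z * varb p b t (z + 1) + (1 - p z) * varb p b t (z - 1) +
            p z * (1 - p z) * (meanb p b t (z + 1) - meanb p b t (z - 1)) ^ 2
            ≤ p z * (t * W ^ 2 + T ^ 2 * ∑ s ∈ range (t + 1), K p s (z + 1) z₁) +
              (1 - p z) * (t * W ^ 2 + T ^ 2 * ∑ s ∈ range (t + 1), K p s (z - 1) z₁) +
              1 / 4 * (2 * W) ^ 2 := by gcongr
          _ = (t + 1) * W ^ 2 + T ^ 2 * (p z * ∑ s ∈ range (t + 1), K p s (z + 1) z₁ +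
              (1 - p z) * ∑ s ∈ range (t + 1), K p s (z - 1) z₁) := by ring
          _ ≤ ((t + 1 : ℕ) : ℝ) * W ^ 2 + T ^ 2 * ∑ s ∈ range (t + 1 + 1), K p s z z₁ := by
              push_cast
              gcongr
    · rw [varb_of_le _ (not_lt.1 hzb)]
      have := hsum (t + 1) z
      positivity

/-- Comparison of the walk with the absorbed walk. -/
lemma mom_le_momb (hp : IsEnv p) {Γ : ℝ} {T : ℕ} (hΓ : ∀ s ≤ T, mom p b s b ≤ Γ) (c : ℝ)
    (r : ℕ) (hr : r ≤ T) : ∀ z : ℤ, z ≤ b → mom p c r z ≤ 2 * momb p b c r z + 2 * Γ := by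
  have hΓ0 : 0 ≤ Γ := (mom_nonneg hp (b : ℝ) 0 b).trans (hΓ 0 (Nat.zero_le _))
  induction r with
  | zero =>
    intro z hz
    rw [mom_zero, momb_zero]
    nlinarith [sq_nonneg ((z : ℝ) - c)]
  | succ r ih =>
    intro z hz
    rcases eq_or_lt_of_le hz with hzb | hzb
    · subst hzb
      rw [momb_of_le _ _ le_rfl]
      have h1 := hΓ (r + 1) hr
      rw [mom_eq] at h1 ⊢
      have h2 := mom_nonneg hp (2 * (z : ℝ) - c) (r + 1) z
      rw [mom_eq] at h2
      nlinarith
    · rw [mom_succ, momb_succ _ _ hzb]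
      have i1 := ih (by omega) (z + 1) (by omega)
      have i2 := ih (by omega) (z - 1) (by omega)
      have p0 := (hp z).1
      have q0 : 0 ≤ 1 - p z := by linarith [(hp z).2]
      nlinarith [mul_le_mul_of_nonneg_left i1 p0, mul_le_mul_of_nonneg_left i2 q0]

/-- **The fast case**, abstract form. -/
lemma var_fast (h : Pot p V κ) {M τ : ℝ} (hτ0 : 0 < τ) (hτ1 : τ ≤ 1) {z₀ z₁ a : ℤ}
    (h01 : z₀ ≤ z₁) (h1a : z₁ ≤ a) (hab : a ≤ b)
    (hV : ∀ j z : ℤ, z₀ ≤ j → j ≤ z → z < b → V z - V j ≤ M - τ * (z - j))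
    {T : ℕ} {Γ H : ℝ} (hΓ : ∀ s ≤ T, mom p b s b ≤ Γ) (hH : H ≤ V z₁ - V a) :
    var p T a ≤ 2 * (T * (Real.exp (M - τ * (z₁ - z₀)) * (1 + 2 * T) +
      Real.exp M * (2 / τ) / κ) ^ 2 + T ^ 2 * ((T + 1) * (Real.exp (-H / 2) / κ))) + 2 * Γ := by
  have hκ := h.pos
  have h1 := varb_le (b := b) h (T := T) (z₁ := z₁)
    (W := Real.exp (M - τ * (z₁ - z₀)) * (1 + 2 * T) + Real.exp M * (2 / τ) / κ)
    (by
      intro t ht z hz hzb
      refine (wb_drift h hτ0 hτ1 hV t (h01.trans hz) hzb).trans ?_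
      have e1 : (t : ℝ) ≤ T := by exact_mod_cast ht
      have e2 : (z₁ : ℝ) ≤ z := by exact_mod_cast hz
      have e3 : Real.exp (M - τ * (z - z₀)) ≤ Real.exp (M - τ * (z₁ - z₀)) := by
        apply Real.exp_le_exp.2
        nlinarith
      gcongr) T le_rfl a h1a
  have h2 : ∑ s ∈ range (T + 1), K p s a z₁ ≤ (T + 1) * (Real.exp (-H / 2) / κ) := by
    calc ∑ s ∈ range (T + 1), K p s a z₁ ≤ ∑ _s ∈ range (T + 1), Real.exp (-H / 2) / κ :=
          Finset.sum_le_sum fun s _ => K_barrier h s a z₁ hH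
      _ = _ := by rw [Finset.sum_const, Finset.card_range, nsmul_eq_mul]; push_cast; ring
  have h3 := mom_le_momb (b := b) h.env hΓ (meanb p b T a) T le_rfl a hab
  rw [momb_self] at h3
  have h4 := var_le_mom (p := p) (meanb p b T a) T a
  have h5 : (T : ℝ) ^ 2 * ∑ s ∈ range (T + 1), K p s a z₁ ≤
      T ^ 2 * ((T + 1) * (Real.exp (-H / 2) / κ)) := by gcongr
  linarith

end Pool.Agent.MP545af4
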