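import Pool.Agent.Lib.MP_545af4_pr.Walk

/-!
A Gaussian upper bound of Varopoulos-Carne type for reversible nearest neighbour walks on `ℤ`,
proved by a Cauchy-Schwarz recursion with a forward and a backward exponential kernel.
-/

namespace Pool.Agent.MP545af4

/-- Powers of the nearest neighbour kernel with right weights `r` and left weights `l`. -/
def ker (r l : ℤ → ℝ) : ℕ → ℤ → ℤ → ℝ
  | 0, a, w => if a = w then 1 else 0
  | t + 1, a, w => r a * ker r l t (a + 1) w + l a * ker r l t (a - 1) w

variable {r l : ℤ → ℝ}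

lemma ker_succ (t : ℕ) (a w : ℤ) :
    ker r l (t + 1) a w = r a * ker r l t (a + 1) w + l a * ker r l t (a - 1) w := rfl

lemma ker_forward (t : ℕ) (a w : ℤ) :
    ker r l (t + 1) a w =
      ker r l t a (w - 1) * r (w - 1) + ker r l t a (w + 1) * l (w + 1) := by
  induction t generalizing a with
  | zero =>
    rw [ker_succ]
    simp only [ker]
    by_cases h1 : a + 1 = w
    · have h2 : a = w - 1 := by omega
      have h3 : ¬ (a - 1 = w) := by omega
      have h4 : ¬ (a = w + 1) := by omega
      simp only [h1, h3, h4, if_true, if_false]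
      rw [if_pos h2, h2]; ring
    · by_cases h2 : a - 1 = w
      · have h3 : a = w + 1 := by omega
        have h4 : ¬ (a = w - 1) := by omega
        simp only [h1, h2, h4, if_true, if_false]
        rw [if_pos h3, h3]; ring
      · have h3 : ¬ (a = w + 1) := by omega
        have h4 : ¬ (a = w - 1) := by omega
        simp only [h1, h2, h3, h4, if_false]; ring
  | succ t ih =>
    rw [ker_succ, ih, ih, ker_succ t a (w - 1), ker_succ t a (w + 1)]
    ring

lemma ker_nonneg (hr : ∀ z, 0 ≤ r z) (hl : ∀ z, 0 ≤ l z) (t : ℕ) (a w : ℤ) :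
    0 ≤ ker r l t a w := by
  induction t generalizing a with
  | zero => simp only [ker]; split_ifs <;> norm_num
  | succ t ih =>
    rw [ker_succ]
    have := hr a
    have := hl a
    have := ih (a + 1)
    have := ih (a - 1)
    positivity

/-- Bound by row sums. -/
lemma ker_le_row (hr : ∀ z, 0 ≤ r z) (hl : ∀ z, 0 ≤ l z) {C : ℝ} (hC : ∀ z, r z + l z ≤ C)
    (t : ℕ) (a w : ℤ) : ker r l t a w ≤ C ^ t := by
  have hC0 : 0 ≤ C := by linarith [hr 0, hl 0, hC 0]
  induction t generalizing a with
  | zero => simp only [ker, pow_zero]; split_ifs <;> norm_num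
  | succ t ih =>
    rw [ker_succ, pow_succ]
    have h1 := ih (a + 1)
    have h2 := ih (a - 1)
    have h3 := hr a
    have h4 := hl a
    have h5 := hC a
    have h6 : 0 ≤ C ^ t := by positivity
    nlinarith [mul_le_mul_of_nonneg_left h1 h3, mul_le_mul_of_nonneg_left h2 h4,
      mul_le_mul_of_nonneg_left h5 h6]

/-- Bound by weighted column sums. -/
lemma ker_le_col (hr : ∀ z, 0 ≤ r z) (hl : ∀ z, 0 ≤ l z) {C : ℝ} {m : ℤ → ℝ}
    (hm : ∀ z, 0 < m z)
    (hC : ∀ z, m (z - 1) * r (z - 1) + m (z + 1) * l (z + 1) ≤ C * m z)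
    (t : ℕ) (a w : ℤ) : ker r l t a w * m a ≤ C ^ t * m w := by
  have hC0 : 0 ≤ C := by
    by_contra hneg
    push Not at hneg
    have := hC 0
    have h1 := mul_nonneg (hm (0 - 1)).le (hr (0 - 1))
    have h2 := mul_nonneg (hm (0 + 1)).le (hl (0 + 1))
    nlinarith [hm 0]
  induction t generalizing w with
  | zero =>
    simp only [ker, pow_zero, one_mul]
    split_ifs with h
    · rw [h, one_mul]
    · rw [zero_mul]; exact (hm w).le
  | succ t ih =>
    rw [ker_forward, pow_succ]
    have h1 := ih (w - 1)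
    have h2 := ih (w + 1)
    have h3 := hr (w - 1)
    have h4 := hl (w + 1)
    have h5 := hC w
    have h6 : 0 ≤ C ^ t := by positivity
    nlinarith [mul_le_mul_of_nonneg_right h1 h3, mul_le_mul_of_nonneg_right h2 h4,
      mul_le_mul_of_nonneg_left h5 h6]

lemma cs_aux {X Y A B C D : ℝ} (hA : 0 ≤ A) (hB : 0 ≤ B) (hC : 0 ≤ C)
    (hD : 0 ≤ D) (h1 : X ^ 2 ≤ A * B) (h2 : Y ^ 2 ≤ C * D) :
    (X + Y) ^ 2 ≤ (A + C) * (B + D) := by
  have h3 : (X * Y) ^ 2 ≤ (A * D) * (C * B) := by
    calc (X * Y) ^ 2 = X ^ 2 * Y ^ 2 := by ring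
      _ ≤ (A * B) * (C * D) := mul_le_mul h1 h2 (sq_nonneg _) (by positivity)
      _ = _ := by ring
  have h4 : 2 * (X * Y) ≤ A * D + C * B := by
    have h5 : (2 * (X * Y)) ^ 2 ≤ (A * D + C * B) ^ 2 := by
      nlinarith [sq_nonneg (A * D - C * B)]
    have h6 : 0 ≤ A * D + C * B := by positivity
    exact abs_le_of_sq_le_sq' h5 h6 |>.2
  nlinarith

lemma hoeff {q x : ℝ} (h0 : 0 ≤ q) (h1 : q ≤ 1) :
    (q * Real.exp x + (1 - q) * Real.exp (-x)) * Real.exp (-(x * (2 * q - 1))) ≤
      Real.exp (2 * x ^ 2) := by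
  -- Jensen
  have hJ : Real.exp (-(x * (2 * q - 1))) ≤ q * Real.exp (-x) + (1 - q) * Real.exp x := by
    have := convexOn_exp.2 (Set.mem_univ (-x)) (Set.mem_univ x) h0
      (by linarith : 0 ≤ 1 - q) (by ring)
    simp only [smul_eq_mul] at this
    rwa [show q * -x + (1 - q) * x = -(x * (2 * q - 1)) by ring] at this
  have hpos : 0 ≤ q * Real.exp x + (1 - q) * Real.exp (-x) := by
    have := Real.exp_pos x
    have := Real.exp_pos (-x)
    have : 0 ≤ 1 - q := by linarith
    positivity
  calc _ ≤ (q * Real.exp x + (1 - q) * Real.exp (-x)) *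
        (q * Real.exp (-x) + (1 - q) * Real.exp x) := mul_le_mul_of_nonneg_left hJ hpos
    _ = q ^ 2 + (1 - q) ^ 2 + q * (1 - q) * (Real.exp x ^ 2 + Real.exp (-x) ^ 2) := by
        have : Real.exp x * Real.exp (-x) = 1 := by rw [← Real.exp_add]; simp
        linear_combination (q ^ 2 + (1 - q) ^ 2) * this
    _ = 1 + 2 * (q * (1 - q)) * (Real.cosh (2 * x) - 1) := by
        rw [Real.cosh_eq, ← Real.exp_nat_mul, ← Real.exp_nat_mul]
        push_cast
        rw [show 2 * -x = -(2 * x) by ring]
        ring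
    _ ≤ Real.cosh (2 * x) := by
        have h2 : 1 ≤ Real.cosh (2 * x) := Real.one_le_cosh _
        have h3 : q * (1 - q) ≤ 1 / 4 := by nlinarith [sq_nonneg (q - 1 / 2)]
        nlinarith
    _ ≤ Real.exp ((2 * x) ^ 2 / 2) := Real.cosh_le_exp_half_sq _
    _ = _ := by congr 1; ring

variable {p : ℤ → ℝ}

lemma gauss_sq (hp0 : ∀ z, 0 < p z) (hp1 : ∀ z, p z < 1) {m : ℤ → ℝ} (hm : ∀ z, 0 < m z)
    (hrev : ∀ z, m z * p z = m (z + 1) * (1 - p (z + 1))) (x : ℝ) (t : ℕ) (a w : ℤ) :
    (ker p (fun z => 1 - p z) t a w * Real.exp (x * (w - a))) ^ 2 ≤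
      Real.exp (2 * |x|) * Real.exp (2 * x ^ 2) ^ t * (Real.exp (2 * x ^ 2) ^ t * (m w / m a)) := by
  set d : ℤ → ℝ := fun z => 2 * p z - 1 with hd
  have hd1 : ∀ z, |d z| ≤ 1 := fun z => by
    rw [abs_le, hd]; constructor <;> linarith [hp0 z, hp1 z]
  set A : ℕ → ℤ → ℝ := fun t a => ker (fun z => p z * Real.exp (x - x * d z))
    (fun z => (1 - p z) * Real.exp (-x - x * d z)) t a w with hA
  set B : ℕ → ℤ → ℝ := fun t a => ker (fun z => p z * Real.exp (x + x * d (z + 1)))
    (fun z => (1 - p z) * Real.exp (-x + x * d (z - 1))) t a w with hB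
  have hq : ∀ z, 0 < 1 - p z := fun z => by linarith [hp1 z]
  have hA0 : ∀ t a, 0 ≤ A t a := fun t a => ker_nonneg
    (fun z => mul_nonneg (hp0 z).le (Real.exp_pos _).le)
    (fun z => mul_nonneg (hq z).le (Real.exp_pos _).le) t a w
  have hB0 : ∀ t a, 0 ≤ B t a := fun t a => ker_nonneg
    (fun z => mul_nonneg (hp0 z).le (Real.exp_pos _).le)
    (fun z => mul_nonneg (hq z).le (Real.exp_pos _).le) t a w
  -- the Cauchy-Schwarz recursion
  have hcs : ∀ t a, (ker p (fun z => 1 - p z) t a w * Real.exp (x * (w - a))) ^ 2 ≤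
      Real.exp (x * (d a - d w)) * (A t a * B t a) := by
    intro t
    induction t with
    | zero =>
      intro a
      simp only [hA, hB, ker]
      split_ifs with h
      · rw [h]; simp
      · simp
    | succ t ih =>
      intro a
      have i1 := ih (a + 1)
      have i2 := ih (a - 1)
      have eA : A (t + 1) a = p a * Real.exp (x - x * d a) * A t (a + 1) +
        (1 - p a) * Real.exp (-x - x * d a) * A t (a - 1) := rfl
      have eB : B (t + 1) a = p a * Real.exp (x + x * d (a + 1)) * B t (a + 1) +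
        (1 - p a) * Real.exp (-x + x * d (a - 1)) * B t (a - 1) := rfl
      have ek : ker p (fun z => 1 - p z) (t + 1) a w * Real.exp (x * (w - a)) =
          p a * Real.exp x * (ker p (fun z => 1 - p z) t (a + 1) w *
            Real.exp (x * (w - (a + 1 : ℤ)))) +
          (1 - p a) * Real.exp (-x) * (ker p (fun z => 1 - p z) t (a - 1) w *
            Real.exp (x * (w - (a - 1 : ℤ)))) := by
        rw [ker_succ]
        have e1 : Real.exp (x * (w - a)) = Real.exp x * Real.exp (x * (w - (a + 1 : ℤ))) := by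
          rw [← Real.exp_add]; congr 1; push_cast; ring
        have e2 : Real.exp (x * (w - a)) = Real.exp (-x) * Real.exp (x * (w - (a - 1 : ℤ))) := by
          rw [← Real.exp_add]; congr 1; push_cast; ring
        calc _ = p a * ker p (fun z => 1 - p z) t (a + 1) w * Real.exp (x * (w - a)) +
            (1 - p a) * ker p (fun z => 1 - p z) t (a - 1) w * Real.exp (x * (w - a)) := by ring
          _ = _ := by
            nth_rewrite 1 [e1]
            rw [e2]
            ring
      have k1 : 0 ≤ ker p (fun z => 1 - p z) t (a + 1) w := ker_nonneg (fun z => (hp0 z).le)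
        (fun z => (hq z).le) t _ w
      have k2 : 0 ≤ ker p (fun z => 1 - p z) t (a - 1) w := ker_nonneg (fun z => (hp0 z).le)
        (fun z => (hq z).le) t _ w
      rw [ek, eA, eB]
      have hpa := hp0 a
      have hqa := hq a
      have X1 : (p a * Real.exp x * (ker p (fun z => 1 - p z) t (a + 1) w *
            Real.exp (x * (w - (a + 1 : ℤ))))) ^ 2 ≤
          (Real.exp (x * (d a - d w)) * (p a * Real.exp (x - x * d a) * A t (a + 1))) *
          (p a * Real.exp (x + x * d (a + 1)) * B t (a + 1)) := by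
        rw [mul_pow]
        refine (mul_le_mul_of_nonneg_left i1 (sq_nonneg _)).trans (le_of_eq ?_)
        have : (Real.exp x) ^ 2 * Real.exp (x * (d (a + 1) - d w)) =
            Real.exp (x * (d a - d w)) * Real.exp (x - x * d a) * Real.exp (x + x * d (a + 1)) := by
          rw [← Real.exp_nat_mul, ← Real.exp_add, ← Real.exp_add, ← Real.exp_add]
          congr 1; push_cast; ring
        calc _ = p a ^ 2 * (A t (a + 1) * B t (a + 1)) *
            ((Real.exp x) ^ 2 * Real.exp (x * (d (a + 1) - d w))) := by ring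
          _ = _ := by rw [this]; ring
      have X2 : ((1 - p a) * Real.exp (-x) * (ker p (fun z => 1 - p z) t (a - 1) w *
            Real.exp (x * (w - (a - 1 : ℤ))))) ^ 2 ≤
          (Real.exp (x * (d a - d w)) * ((1 - p a) * Real.exp (-x - x * d a) * A t (a - 1))) *
          ((1 - p a) * Real.exp (-x + x * d (a - 1)) * B t (a - 1)) := by
        rw [mul_pow]
        refine (mul_le_mul_of_nonneg_left i2 (sq_nonneg _)).trans (le_of_eq ?_)
        have : (Real.exp (-x)) ^ 2 * Real.exp (x * (d (a - 1) - d w)) =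
            Real.exp (x * (d a - d w)) * Real.exp (-x - x * d a) *
              Real.exp (-x + x * d (a - 1)) := by
          rw [← Real.exp_nat_mul, ← Real.exp_add, ← Real.exp_add, ← Real.exp_add]
          congr 1; push_cast; ring
        calc _ = (1 - p a) ^ 2 * (A t (a - 1) * B t (a - 1)) *
            ((Real.exp (-x)) ^ 2 * Real.exp (x * (d (a - 1) - d w))) := by ring
          _ = _ := by rw [this]; ring
      have nA1 := hA0 t (a + 1)
      have nA2 := hA0 t (a - 1)
      have nB1 := hB0 t (a + 1)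
      have nB2 := hB0 t (a - 1)
      have := cs_aux (by positivity) (by positivity) (by positivity) (by positivity) X1 X2
      refine this.trans (le_of_eq ?_)
      ring
  -- row sums of the forward kernel
  have hAle : ∀ t a, A t a ≤ Real.exp (2 * x ^ 2) ^ t := by
    intro t a
    refine ker_le_row (fun z => mul_nonneg (hp0 z).le (Real.exp_pos _).le)
      (fun z => mul_nonneg (hq z).le (Real.exp_pos _).le) (fun z => ?_) t a w
    have := hoeff (x := x) (hp0 z).le (hp1 z).le
    refine le_trans (le_of_eq ?_) this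
    rw [add_mul, mul_assoc, ← Real.exp_add, mul_assoc, ← Real.exp_add]
    simp only [hd]
    congr 3
  -- weighted column sums of the backward kernel
  have hBle : ∀ t a, B t a * m a ≤ Real.exp (2 * x ^ 2) ^ t * m w := by
    intro t a
    refine ker_le_col (fun z => mul_nonneg (hp0 z).le (Real.exp_pos _).le)
      (fun z => mul_nonneg (hq z).le (Real.exp_pos _).le) hm (fun z => ?_) t a w
    have e1 : m (z - 1) * p (z - 1) = m z * (1 - p z) := by
      have := hrev (z - 1)
      rwa [show z - 1 + 1 = z by ring] at this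
    have e2 : m (z + 1) * (1 - p (z + 1)) = m z * p z := (hrev z).symm
    have := hoeff (x := -x) (hp0 z).le (hp1 z).le
    have h3 : m z * ((p z * Real.exp (-x) + (1 - p z) * Real.exp (- -x)) *
        Real.exp (-(-x * (2 * p z - 1)))) ≤ m z * Real.exp (2 * (-x) ^ 2) :=
      mul_le_mul_of_nonneg_left this (hm z).le
    rw [show z - 1 + 1 = z by ring, show z + 1 - 1 = z by ring]
    calc _ = m z * (1 - p z) * Real.exp (x + x * d z) + m z * p z * Real.exp (-x + x * d z) := by
          rw [← e1, ← e2]; ring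
      _ = m z * ((p z * Real.exp (-x) + (1 - p z) * Real.exp (- -x)) *
        Real.exp (-(-x * (2 * p z - 1)))) := by
          rw [Real.exp_add, Real.exp_add, neg_neg]
          simp only [hd]
          rw [show -(-x * (2 * p z - 1)) = x * (2 * p z - 1) by ring]
          ring
      _ ≤ _ := h3
      _ = _ := by rw [neg_sq]; ring
  have h1 := hcs t a
  have h2 := hAle t a
  have h3 : B t a ≤ Real.exp (2 * x ^ 2) ^ t * (m w / m a) := by
    rw [← mul_div_assoc, le_div_iff₀ (hm a)]
    exact hBle t a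
  have h4 : Real.exp (x * (d a - d w)) ≤ Real.exp (2 * |x|) := by
    apply Real.exp_le_exp.2
    have h5 : |d a - d w| ≤ 2 := by
      have := abs_sub (d a) (d w)
      linarith [hd1 a, hd1 w]
    calc x * (d a - d w) ≤ |x * (d a - d w)| := le_abs_self _
      _ = |x| * |d a - d w| := abs_mul _ _
      _ ≤ |x| * 2 := mul_le_mul_of_nonneg_left h5 (abs_nonneg _)
      _ = _ := by ring
  refine h1.trans ?_
  calc Real.exp (x * (d a - d w)) * (A t a * B t a)
      ≤ Real.exp (2 * |x|) * (Real.exp (2 * x ^ 2) ^ t *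
        (Real.exp (2 * x ^ 2) ^ t * (m w / m a))) := by
        have := hA0 t a
        have := hB0 t a
        gcongr
    _ = _ := by ring

/-- The Gaussian bound. -/
lemma gauss (hp0 : ∀ z, 0 < p z) (hp1 : ∀ z, p z < 1) {m : ℤ → ℝ} (hm : ∀ z, 0 < m z)
    (hrev : ∀ z, m z * p z = m (z + 1) * (1 - p (z + 1))) (x : ℝ) (t : ℕ) (a w : ℤ) :
    ker p (fun z => 1 - p z) t a w ≤
      Real.exp (|x| - x * (w - a) + 2 * x ^ 2 * t) * Real.sqrt (m w / m a) := by
  have h := gauss_sq hp0 hp1 hm hrev x t a w
  have hk : 0 ≤ ker p (fun z => 1 - p z) t a w := ker_nonneg (fun z => (hp0 z).le)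
        (fun z => by linarith [hp1 z]) t _ w
  have h1 : ker p (fun z => 1 - p z) t a w * Real.exp (x * (w - a)) ≤
      Real.exp (|x| + 2 * x ^ 2 * t) * Real.sqrt (m w / m a) := by
    refine (sq_le_sq₀ (mul_nonneg hk (Real.exp_pos _).le) (by positivity)).1 ?_
    refine h.trans (le_of_eq ?_)
    rw [mul_pow, Real.sq_sqrt (div_pos (hm w) (hm a)).le, ← Real.exp_nat_mul, ← Real.exp_nat_mul]
    have : Real.exp (2 * |x|) * Real.exp (t * (2 * x ^ 2)) * Real.exp (t * (2 * x ^ 2)) =
        Real.exp ((2 : ℕ) * (|x| + 2 * x ^ 2 * t)) := by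
      rw [← Real.exp_add, ← Real.exp_add]; congr 1; push_cast; ring
    rw [← this]; ring
  have h2 : Real.exp (|x| - x * (w - a) + 2 * x ^ 2 * t) =
      Real.exp (|x| + 2 * x ^ 2 * t) / Real.exp (x * (w - a)) := by
    rw [← Real.exp_sub]; congr 1; ring
  rw [h2, div_mul_eq_mul_div, le_div_iff₀ (Real.exp_pos _)]
  exact h1

end Pool.Agent.MP545af4
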