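import Pool.Agent.Lib.MP_545af4_pr.Defs
import Pool.Agent.Lib.MP_545af4_pr.Exc

/-!
From smooth symmetric environments to the almost sure bound.
-/

namespace Pool.Agent.MP545af4

open Filter Topology MeasureTheory Finset

lemma bdd_of_periodic {f : ℝ → ℝ} (hc : Continuous f) (hp : ∀ y, f (y + 1) = f y) :
    ∃ B, 0 < B ∧ ∀ y, |f y| ≤ B := by
  obtain ⟨B, hB⟩ := (isCompact_Icc (a := (0 : ℝ)) (b := 1)).exists_bound_of_continuousOn
    hc.continuousOn
  refine ⟨|B| + 1, by positivity, fun y => ?_⟩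
  obtain ⟨z, hz, he⟩ := Function.Periodic.exists_mem_Ico₀ (f := f) (c := 1) hp one_pos y
  rw [he]
  have := hB z ⟨hz.1, hz.2.le⟩
  rw [Real.norm_eq_abs] at this
  have := le_abs_self B
  linarith

lemma deriv_periodic {f : ℝ → ℝ} (hp : ∀ y, f (y + 1) = f y) (y : ℝ) :
    deriv f (y + 1) = deriv f y := by
  have h1 : (fun y => f (y + 1)) = f := funext hp
  rw [← deriv_comp_add_const, h1]

theorem IsSymEnv.data {p : ℝ → ℝ} (h : IsSymEnv p) : ∃ C, Data p C := by
  have hq : ContDiff ℝ 2 (fun y => 1 - p y) := contDiff_const.sub h.smooth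
  have hφ : ContDiff ℝ 2 (fun y => Real.log (1 - p y) - Real.log (p y)) := by
    apply ContDiff.sub
    · exact hq.log fun y => by have := (h.mem y).2; linarith
    · exact h.smooth.log fun y => (h.mem y).1.ne'
  set φ : ℝ → ℝ := fun y => Real.log (1 - p y) - Real.log (p y) with hφdef
  have hφper : ∀ y, φ (y + 1) = φ y := fun y => by simp only [hφdef, h.periodic]
  have hpc := h.smooth.continuous
  have hqc : Continuous fun y => 1 - p y := continuous_const.sub hpc
  have hq0 : ∀ y, 1 - p y ≠ 0 := fun y => by have := (h.mem y).2; linarith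
  -- derivatives
  have hd1 : ContDiff ℝ 1 (deriv φ) := by
    have h2 : ContDiff ℝ (1 + 1) φ := by
      rw [one_add_one_eq_two]
      exact hφ
    exact (contDiff_succ_iff_deriv.1 h2).2.2
  have hd2 : Continuous (deriv (deriv φ)) := hd1.continuous_deriv le_rfl
  have hdp : Continuous (deriv p) := h.smooth.continuous_deriv (by norm_num)
  obtain ⟨B1, hB1, hb1⟩ := bdd_of_periodic (f := fun y => (p y)⁻¹)
    (hpc.inv₀ fun y => (h.mem y).1.ne') (fun y => by simp only [h.periodic])
  obtain ⟨B2, hB2, hb2⟩ := bdd_of_periodic (f := fun y => (1 - p y)⁻¹)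
    (hqc.inv₀ fun y => hq0 y)
    (fun y => by simp only [h.periodic])
  obtain ⟨B3, hB3, hb3⟩ := bdd_of_periodic hφ.continuous hφper
  obtain ⟨B4, hB4, hb4⟩ := bdd_of_periodic hd1.continuous (deriv_periodic hφper)
  obtain ⟨B5, hB5, hb5⟩ := bdd_of_periodic hd2 (deriv_periodic (deriv_periodic hφper))
  obtain ⟨B6, hB6, hb6⟩ := bdd_of_periodic hdp (deriv_periodic h.periodic)
  refine ⟨1 + B1 + B2 + B3 + B4 + B5 + B6, ?_⟩
  set C := 1 + B1 + B2 + B3 + B4 + B5 + B6 with hC
  have hC0 : 0 < C := by positivity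
  refine ⟨by linarith, fun y => ?_, fun y => ?_, h.periodic, fun y y' => ?_, ?_⟩
  · have h1 := hb1 y
    have h2 := (h.mem y).1
    rw [abs_of_pos (inv_pos.2 h2)] at h1
    rw [div_le_iff₀ hC0]
    have h3 : p y * (p y)⁻¹ = 1 := mul_inv_cancel₀ h2.ne'
    have h4 : p y * (p y)⁻¹ ≤ p y * C := by
      apply mul_le_mul_of_nonneg_left _ h2.le
      linarith
    linarith
  · have h1 := hb2 y
    have h2 : 0 < 1 - p y := by linarith [(h.mem y).2]
    rw [abs_of_pos (inv_pos.2 h2)] at h1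
    rw [div_le_iff₀ hC0]
    have h3 : (1 - p y) * (1 - p y)⁻¹ = 1 := mul_inv_cancel₀ h2.ne'
    have h4 : (1 - p y) * (1 - p y)⁻¹ ≤ (1 - p y) * C := by
      apply mul_le_mul_of_nonneg_left _ h2.le
      linarith
    linarith
  · have := Convex.norm_image_sub_le_of_norm_deriv_le (f := p) (s := Set.univ) (C := C)
      (fun x _ => (h.smooth.differentiable (by norm_num)) x)
      (fun x _ => (hb6 x).trans (by linarith)) convex_univ (Set.mem_univ y') (Set.mem_univ y)
    simpa using this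
  · refine ⟨hC0, hφper, fun y => (hb3 y).trans (by linarith),
      hφ.differentiable (by norm_num), fun y => (hb4 y).trans (by linarith), fun y y' => ?_, ?_⟩
    · have := Convex.norm_image_sub_le_of_norm_deriv_le (f := deriv φ) (s := Set.univ) (C := C)
        (fun x _ => (hd1.differentiable one_ne_zero) x)
        (fun x _ => (hb5 x).trans (by linarith)) convex_univ (Set.mem_univ y') (Set.mem_univ y)
      simpa using this
    · have c1 : Continuous fun y => Real.log (1 - p y) := hqc.log hq0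
      have c2 : Continuous fun y => Real.log (p y) := hpc.log fun y => (h.mem y).1.ne'
      rw [intervalIntegral.integral_sub (c1.intervalIntegrable _ _) (c2.intervalIntegrable _ _),
        h.symm, sub_self]

/-! The law of the walk. -/

lemma prob_eq (p : ℝ → ℝ) (α x : ℝ) (t : ℕ) (k : ℤ) :
    prob p α x t k = K (envAt p α x) t 0 k := by
  induction t generalizing k with
  | zero =>
    simp only [prob, K, ker]
    by_cases h : k = 0
    · simp [h]
    · rw [if_neg h, if_neg (by omega)]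
  | succ t ih =>
    rw [prob, ih, ih]
    unfold K
    rw [ker_forward]
    rfl

lemma sum_ker (e : ℤ → ℝ) (f : ℤ → ℝ) (t : ℕ) :
    ∀ (a M : ℤ), |a| + t ≤ M → ∑ k ∈ Icc (-M) M, f k * K e t a k = ex e t f a := by
  induction t with
  | zero =>
    intro a M hM
    have ha : a ∈ Icc (-M) M := by
      rw [Finset.mem_Icc]
      have := abs_le.1 (show |a| ≤ M by push_cast at hM; omega)
      exact this
    rw [Finset.sum_eq_single_of_mem a ha]
    · simp [K, ker]
    · intro b _ hb
      simp only [K, ker]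
      rw [if_neg (Ne.symm hb), mul_zero]
  | succ t ih =>
    intro a M hM
    have h1 := ih (a + 1) M (by
      have := abs_add_le a 1
      rw [abs_one] at this
      push_cast at hM
      omega)
    have h2 := ih (a - 1) M (by
      have := abs_sub a 1
      rw [abs_one] at this
      push_cast at hM
      omega)
    rw [ex_succ, ← h1, ← h2, Finset.mul_sum, Finset.mul_sum, ← Finset.sum_add_distrib]
    apply Finset.sum_congr rfl
    intro k _
    simp only [K, ker_succ]
    ring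

lemma variance_eq (p : ℝ → ℝ) (α x : ℝ) (T : ℕ) :
    variance p α x T = var (envAt p α x) T 0 := by
  have h1 := sum_ker (envAt p α x) (fun k => (k : ℝ) ^ 2) T 0 T (by simp)
  have h2 := sum_ker (envAt p α x) (fun k => (k : ℝ)) T 0 T (by simp)
  unfold variance var mom mean
  simp only [prob_eq, sub_zero]
  rw [h1, h2]

lemma var_pos {e : ℤ → ℝ} (he : ∀ z, 0 < e z ∧ e z < 1) (t : ℕ) (z : ℤ) :
    0 < var e (t + 1) z := by
  have hp : IsEnv e := fun z => ⟨(he z).1.le, (he z).2.le⟩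
  have hd : ∀ t z, 0 < dm e t z := by
    intro t
    induction t with
    | zero => intro z; unfold dm; rw [mean_zero, mean_zero]; push_cast; linarith
    | succ t ih =>
      intro z
      rw [dm_succ]
      have h1 := mul_pos (he (z + 1)).1 (ih (z + 1))
      have h2 := mul_pos (show 0 < 1 - e (z - 1) by linarith [(he (z - 1)).2]) (ih (z - 1))
      linarith
  have hn : ∀ t z, 0 ≤ var e t z := by
    intro t z
    rw [← mom_self]
    exact mom_nonneg hp _ t z
  rw [var_succ]
  have h1 := mul_nonneg (he z).1.le (hn t (z + 1))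
  have h3 : 0 < 1 - e z := by linarith [(he z).2]
  have h2 := mul_nonneg h3.le (hn t (z - 1))
  have h4 : 0 < (mean e t (z + 1) - mean e t (z - 1)) ^ 2 := pow_pos (hd t z) 2
  have h5 := mul_pos (mul_pos (he z).1 h3) h4
  linarith

/-- Sanity check: the variance is positive for `T ≥ 1`. -/
theorem variance_pos {p : ℝ → ℝ} (h : IsSymEnv p) (α x : ℝ) {T : ℕ} (hT : 1 ≤ T) :
    0 < variance p α x T := by
  rw [variance_eq]
  obtain ⟨t, rfl⟩ : ∃ t, T = t + 1 := ⟨T - 1, by omega⟩
  exact var_pos (fun z => h.mem _) t 0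

/-- The almost sure variance bound. -/
theorem variance_bound {p : ℝ → ℝ} (h : IsSymEnv p) : ∀ᵐ x : ℝ, ∀ᶠ T : ℕ in atTop,
    variance p alpha x T ≤ (T : ℝ) ^ (19 / 10 : ℝ) := by
  obtain ⟨C, hC⟩ := h.data
  simp only [variance_eq]
  exact ae_bound hC

theorem growth_le {p : ℝ → ℝ} (h : IsSymEnv p) : ∀ᵐ x : ℝ,
    growth p alpha x ≤ ((19 / 10 : ℝ) : EReal) := by
  filter_upwards [variance_bound h] with x hx
  unfold growth
  apply limsup_le_of_le
  · isBoundedDefault
  · filter_upwards [hx, eventually_gt_atTop 1] with T h1 h2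
    have hT : (1 : ℝ) < T := by exact_mod_cast h2
    have hlog : 0 < Real.log T := Real.log_pos hT
    rw [EReal.coe_le_coe_iff, div_le_iff₀ hlog]
    rw [← Real.log_rpow (by linarith)]
    exact Real.log_le_log (variance_pos h alpha x h2.le) h1

/-- `alpha` is not Diophantine. -/
theorem not_diophantine : ¬ IsDiophantine alpha := by
  rintro ⟨γ, hγ, τ, hτ, h⟩
  obtain ⟨k, hk1, hk2, hk3⟩ := ((Q_tendsto.eventually_ge_atTop (2 * (2 + τ) + 4)).and
    ((Q_tendsto.eventually_ge_atTop (1 / γ)).and (Q_tendsto.eventually_ge_atTop 1))).exists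
  obtain ⟨A, hA1, hA2⟩ := alpha_approx k
  have h1 := h A (Q k) (Q_pos k)
  rw [abs_of_pos hA1] at h1
  have hQ := Qr_pos k
  have h2 : (Q k : ℝ) ^ (2 + τ) ≤ Real.exp ((2 + τ) * Q k) := by
    have h3 : (Q k : ℝ) ≤ Real.exp (Q k) := by
      have := Real.add_one_le_exp (Q k : ℝ)
      linarith
    calc (Q k : ℝ) ^ (2 + τ) ≤ (Real.exp (Q k)) ^ (2 + τ) :=
          Real.rpow_le_rpow hQ.le h3 (by linarith)
      _ = Real.exp ((2 + τ) * Q k) := by rw [← Real.exp_mul]; congr 1; ring
  have h3 : Real.exp ((Q k : ℝ) ^ 2 / 2) ≤ 2 ^ (Q k ^ 2) := by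
    have e1 : (2 : ℝ) ^ (Q k ^ 2) = Real.exp (Real.log 2 * (Q k : ℝ) ^ 2) := by
      rw [Real.exp_mul, Real.exp_log (by norm_num)]
      exact_mod_cast (Real.rpow_natCast 2 (Q k ^ 2)).symm
    rw [e1]
    apply Real.exp_le_exp.2
    have := Real.log_two_gt_d9
    nlinarith [sq_nonneg (Q k : ℝ)]
  have h4 : γ * (Q k : ℝ) ^ (-2 - τ) ≤ 2 / 2 ^ (Q k ^ 2) := h1.trans hA2
  have h5 : (Q k : ℝ) ^ (-2 - τ) = ((Q k : ℝ) ^ (2 + τ))⁻¹ := by
    rw [← Real.rpow_neg hQ.le]; congr 1; ring
  have h6 : 0 < (Q k : ℝ) ^ (2 + τ) := Real.rpow_pos_of_pos hQ _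
  rw [h5, ← div_eq_mul_inv, div_le_div_iff₀ h6 (by positivity)] at h4
  have h7 : γ * Real.exp ((Q k : ℝ) ^ 2 / 2) ≤ 2 * Real.exp ((2 + τ) * Q k) := by
    calc γ * Real.exp ((Q k : ℝ) ^ 2 / 2) ≤ γ * 2 ^ (Q k ^ 2) := by gcongr
      _ ≤ 2 * (Q k : ℝ) ^ (2 + τ) := h4
      _ ≤ 2 * Real.exp ((2 + τ) * Q k) := by gcongr
  have h8 : Real.exp ((2 + τ) * Q k) * Real.exp (2 * Q k) ≤ Real.exp ((Q k : ℝ) ^ 2 / 2) := by
    rw [← Real.exp_add]
    apply Real.exp_le_exp.2
    nlinarith
  have h9 : 1 + 2 * (Q k : ℝ) ≤ Real.exp (2 * Q k) := by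
    have := Real.add_one_le_exp (2 * (Q k : ℝ))
    linarith
  have h10 : 0 < Real.exp ((2 + τ) * Q k) := Real.exp_pos _
  have h11 : γ * (Real.exp ((2 + τ) * Q k) * (1 + 2 * Q k)) ≤ 2 * Real.exp ((2 + τ) * Q k) := by
    refine le_trans ?_ h7
    gcongr
    refine le_trans ?_ h8
    gcongr
  have h12 : γ * (1 + 2 * Q k) ≤ 2 := by
    by_contra hcon
    push Not at hcon
    nlinarith
  rw [div_le_iff₀ hγ] at hk2
  nlinarith

end Pool.Agent.MP545af4
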