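import Pool.Agent.Lib.MP_545af4_pr.Asym

/-!
Variance bounds in the three time regimes of a stage.
-/

namespace Pool.Agent.MP545af4

open Filter Topology Finset

variable {p : ℝ → ℝ} {C : ℝ}

/-- Regime B, drift to the right. -/
lemma regB_fast (hD : Data p C) : ∀ᶠ k in atTop, ∀ x : ℝ,
    S (lr p) alpha (Q k) x ≤ -(1 / (2 * Y k ^ 16)) → ∀ T : ℕ, Y k ^ 40 ≤ T → (T : ℝ) ≤ Y k ^ 45 →
      var (envAt p alpha x) T 0 ≤ T * Y k ^ 36 := by
  filter_upwards [big hD.one_le] with k hB x hx T hT1 hT2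
  have hY := hB.Y1
  have hY0 : 0 < Y k := by linarith
  have hC := hD.C_pos
  have hQ := Qr_pos k
  have hqc := hB.qc
  have hqcY := hB.qcY
  have hδ := del_eq k
  obtain ⟨hN1, hN2⟩ := N_num hB (N := ⌈Y k ^ 30⌉₊) rfl
  have hY30 : (1 : ℝ) ≤ Y k ^ 30 := one_le_pow₀ (by linarith)
  have hY40 : Y k ^ 30 + 1 ≤ Y k ^ 40 := by
    have : (2 : ℝ) ≤ Y k ^ 10 := by
      calc (2 : ℝ) ≤ Y k ^ 1 := by rw [pow_one]; linarith
        _ ≤ Y k ^ 10 := pow_le_pow_right₀ (by linarith) (by norm_num)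
    calc Y k ^ 30 + 1 ≤ 2 * Y k ^ 30 := by linarith
      _ ≤ Y k ^ 10 * Y k ^ 30 := by gcongr
      _ = Y k ^ 40 := by ring
  have hT0 : 0 < T := by
    have : (0 : ℝ) < T := lt_of_lt_of_le (by positivity) hT1
    exact_mod_cast this
  refine (stage_fast hD (per k) (t := 1 / (2 * Y k ^ 16)) (N := ⌈Y k ^ 30⌉₊)
    (m := ⌊Y k ^ 24 / (8 * (Q k * C))⌋₊) (by positivity) ?_ hx ?_ hT0 ?_ ?_ ?_ ?_).trans
    (fast_num hB rfl rfl rfl hT1 hT2)
  · rw [div_le_one (by positivity)]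
    have : (1 : ℝ) ≤ Y k ^ 16 := one_le_pow₀ (by linarith)
    linarith
  · rw [hδ, ← mul_assoc, mul_one_div, div_div, div_le_div_iff₀ (by positivity) (by positivity)]
    calc (Q k : ℝ) * C * (2 * Y k ^ 16 * 6) = (12 * (Q k * C)) * Y k ^ 16 := by ring
      _ ≤ Y k * Y k ^ 16 := by gcongr; linarith
      _ = Y k ^ 17 := by ring
      _ ≤ 1 * Y k ^ 40 := by
        rw [one_mul]; exact pow_le_pow_right₀ (by linarith) (by norm_num)
  · have : ((⌈Y k ^ 30⌉₊ : ℕ) : ℝ) ≤ T := by linarith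
    exact_mod_cast this
  · have : (1 : ℝ) ≤ (⌈Y k ^ 30⌉₊ : ℕ) := by linarith
    exact_mod_cast this
  · have h1 : ((⌈Y k ^ 30⌉₊ : ℕ) : ℝ) + 2 ≤ 2 * Y k ^ 30 := by
      have : (3 : ℝ) ≤ Y k ^ 30 := by
        calc (3 : ℝ) ≤ Y k ^ 1 := by rw [pow_one]; linarith
          _ ≤ Y k ^ 30 := pow_le_pow_right₀ (by linarith) (by norm_num)
      linarith
    have h2 : (((⌈Y k ^ 30⌉₊ : ℕ) : ℝ) + 2) * del k ≤ 2 / Y k ^ 10 := by
      rw [hδ]
      calc (((⌈Y k ^ 30⌉₊ : ℕ) : ℝ) + 2) * (1 / Y k ^ 40) ≤ (2 * Y k ^ 30) * (1 / Y k ^ 40) := by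
            gcongr
        _ = 2 / Y k ^ 10 := by field_simp
    have h3 : 0 ≤ (((⌈Y k ^ 30⌉₊ : ℕ) : ℝ) + 2) * del k := by
      have := del_pos k
      positivity
    calc Q k * C * ((((⌈Y k ^ 30⌉₊ : ℕ) : ℝ) + 2) * del k) ^ 2 ≤ Q k * C * (2 / Y k ^ 10) ^ 2 := by
          gcongr
      _ = (4 * (Q k * C)) / Y k ^ 20 := by field_simp; ring
      _ ≤ 1 / (2 * Y k ^ 16) / 2 := by
          rw [div_div, div_le_div_iff₀ (by positivity) (by positivity)]
          calc 4 * (Q k * C) * (2 * Y k ^ 16 * 2) = (16 * (Q k * C)) * Y k ^ 16 := by ring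
            _ ≤ Y k * Y k ^ 16 := by gcongr; linarith
            _ = Y k ^ 17 := by ring
            _ ≤ 1 * Y k ^ 20 := by
              rw [one_mul]; exact pow_le_pow_right₀ (by linarith) (by norm_num)
  · have h1 : ((⌊Y k ^ 24 / (8 * (Q k * C))⌋₊ : ℕ) : ℝ) ≤ Y k ^ 24 / (8 * (Q k * C)) :=
      Nat.floor_le (by positivity)
    rw [hδ]
    calc 2 * ((⌊Y k ^ 24 / (8 * (Q k * C))⌋₊ : ℕ) : ℝ) * (1 / Y k ^ 40)
        ≤ 2 * (Y k ^ 24 / (8 * (Q k * C))) * (1 / Y k ^ 40) := by gcongr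
      _ = 1 / (2 * Y k ^ 16) / (2 * (Q k * C)) := by field_simp; ring

/-- Regime B, small drift. -/
lemma regB_slow (hD : Data p C) : ∀ᶠ k in atTop, ∀ x : ℝ,
    |S (lr p) alpha (Q k) x| < 1 / Y k ^ 16 →
    |deriv (S (lr p) alpha (Q k)) x| < 1 / (2 * Y k ^ 7) → ∀ T : ℕ, Y k ^ 40 ≤ T →
      (T : ℝ) ≤ Y k ^ 45 → var (envAt p alpha x) T 0 ≤ T * Y k ^ 36 := by
  filter_upwards [big hD.one_le] with k hB x hx hx' T hT1 hT2
  have hY := hB.Y1
  have hY0 : 0 < Y k := by linarith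
  have hC := hD.C_pos
  have hQ := Qr_pos k
  have hqc := hB.qc
  have hqcY := hB.qcY
  have hδ := del_eq k
  obtain ⟨hN1, hN2⟩ := N_num hB (N := ⌈Y k ^ 30⌉₊) rfl
  have hY40 : Y k ^ 30 + 1 ≤ Y k ^ 40 := by
    have : (2 : ℝ) ≤ Y k ^ 10 := by
      calc (2 : ℝ) ≤ Y k ^ 1 := by rw [pow_one]; linarith
        _ ≤ Y k ^ 10 := pow_le_pow_right₀ (by linarith) (by norm_num)
    have hY30 : (1 : ℝ) ≤ Y k ^ 30 := one_le_pow₀ (by linarith)
    calc Y k ^ 30 + 1 ≤ 2 * Y k ^ 30 := by linarith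
      _ ≤ Y k ^ 10 * Y k ^ 30 := by gcongr
      _ = Y k ^ 40 := by ring
  have hT0 : 0 < T := by
    have : (0 : ℝ) < T := lt_of_lt_of_le (by positivity) hT1
    exact_mod_cast this
  have hg : Phi (S (lr p) alpha (Q k)) (Q k * C) := S_phi hD.phi (Q_pos k)
  refine (stage_slow hD (per k) (t := 1 / Y k ^ 16) (N := ⌈Y k ^ 30⌉₊) hT0 ?_
    (by positivity) ?_).trans (slow_num hB rfl hδ rfl hT1 hT2)
  · have : ((⌈Y k ^ 30⌉₊ : ℕ) : ℝ) ≤ T := by linarith
    exact_mod_cast this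
  · intro y hy
    refine hg.small_window (l := 1 / Y k ^ 9) (β := 1 / (2 * Y k ^ 7)) (by positivity) ?_ hx hx' ?_
    · have h1 : 1 / Y k ^ 16 / (1 / Y k ^ 9) = 1 / Y k ^ 7 := by field_simp
      have h2 : Q k * C * (1 / Y k ^ 9) ≤ 1 / (2 * Y k ^ 7) := by
        rw [mul_one_div, div_le_div_iff₀ (by positivity) (by positivity)]
        calc (Q k : ℝ) * C * (2 * Y k ^ 7) = (2 * (Q k * C)) * Y k ^ 7 := by ring
          _ ≤ Y k * Y k ^ 7 := by gcongr; linarith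
          _ = Y k ^ 8 := by ring
          _ ≤ 1 * Y k ^ 9 := by
            rw [one_mul]; exact pow_le_pow_right₀ (by linarith) (by norm_num)
      have h3 : 1 / Y k ^ 7 = 1 / (2 * Y k ^ 7) + 1 / (2 * Y k ^ 7) := by field_simp; norm_num
      rw [h1]
      linarith
    · refine hy.trans ?_
      have h1 : ((⌈Y k ^ 30⌉₊ : ℕ) : ℝ) + 2 ≤ 2 * Y k ^ 30 := by
        have : (3 : ℝ) ≤ Y k ^ 30 := by
          calc (3 : ℝ) ≤ Y k ^ 1 := by rw [pow_one]; linarith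
            _ ≤ Y k ^ 30 := pow_le_pow_right₀ (by linarith) (by norm_num)
        linarith
      rw [hδ]
      calc (((⌈Y k ^ 30⌉₊ : ℕ) : ℝ) + 2) * (1 / Y k ^ 40) ≤ (2 * Y k ^ 30) * (1 / Y k ^ 40) := by
            gcongr
        _ = 2 / Y k ^ 10 := by field_simp
        _ ≤ 1 / Y k ^ 9 := by
          rw [div_le_div_iff₀ (by positivity) (by positivity)]
          calc 2 * Y k ^ 9 ≤ Y k * Y k ^ 9 := by gcongr; linarith
            _ = 1 * Y k ^ 10 := by ring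

lemma Y36_le {k T : ℕ} (hT1 : Y k ^ 40 ≤ T) : (T : ℝ) * Y k ^ 36 ≤ (T : ℝ) ^ (19 / 10 : ℝ) := by
  have hY0 := Y_pos k
  have hT0 : (0 : ℝ) < T := lt_of_lt_of_le (by positivity) hT1
  have h1 : Y k ^ 36 ≤ (T : ℝ) ^ (9 / 10 : ℝ) := by
    have h2 : (Y k ^ 40) ^ (9 / 10 : ℝ) ≤ (T : ℝ) ^ (9 / 10 : ℝ) :=
      Real.rpow_le_rpow (by positivity) hT1 (by norm_num)
    refine le_trans (le_of_eq ?_) h2
    rw [← Real.rpow_natCast (Y k) 40, ← Real.rpow_mul hY0.le, ← Real.rpow_natCast (Y k) 36]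
    norm_num
  calc (T : ℝ) * Y k ^ 36 ≤ T * (T : ℝ) ^ (9 / 10 : ℝ) := by gcongr
    _ = (T : ℝ) ^ (19 / 10 : ℝ) := by
      rw [show (19 / 10 : ℝ) = 1 + 9 / 10 by norm_num, Real.rpow_add hT0, Real.rpow_one]

/-! Reflection. -/

lemma ex_reflect (e : ℤ → ℝ) (t : ℕ) (f : ℤ → ℝ) (z : ℤ) :
    ex (fun w => 1 - e (-w)) t f z = ex e t (fun w => f (-w)) (-z) := by
  induction t generalizing z with
  | zero => simp
  | succ t ih =>
    rw [ex_succ, ex_succ, ih, ih]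
    rw [show -(z + 1) = -z - 1 by ring, show -(z - 1) = -z + 1 by ring]
    ring

lemma var_reflect (e : ℤ → ℝ) (t : ℕ) : var (fun w => 1 - e (-w)) t 0 = var e t 0 := by
  have h1 : mean (fun w => 1 - e (-w)) t 0 = -mean e t 0 := by
    unfold mean
    rw [ex_reflect]
    have := ex_mul_const (p := e) t (fun w => (w : ℝ)) (-1) 0
    rw [neg_zero]
    simp only [mul_neg, mul_one] at this
    rw [← this]
    simp
  have h2 : mom (fun w => 1 - e (-w)) 0 t 0 = mom e 0 t 0 := by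
    unfold mom
    rw [ex_reflect, neg_zero]
    simp
  rw [var, var, h1, h2]; ring

/-- The reflected environment. -/
def refl (p : ℝ → ℝ) : ℝ → ℝ := fun y => 1 - p (-y)

lemma envAt_refl (p : ℝ → ℝ) (α x : ℝ) :
    envAt (refl p) α (-x) = fun w => 1 - envAt p α x (-w) := by
  funext w
  unfold envAt refl
  congr 2
  push_cast
  ring

lemma lr_refl (p : ℝ → ℝ) : lr (refl p) = fun y => -lr p (-y) := by
  funext y
  unfold lr refl
  rw [sub_sub_cancel]
  ring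

lemma Phi.refl {φ : ℝ → ℝ} (h : Phi φ C) : Phi (fun y => -φ (-y)) C := by
  have hder : ∀ y, HasDerivAt (fun y => -φ (-y)) (deriv φ (-y)) y := by
    intro y
    have h1 := (h.diff (-y)).hasDerivAt
    have h2 : HasDerivAt (fun y => φ (-y)) (deriv φ (-y) * -1) y := h1.comp y (hasDerivAt_neg y)
    have h3 : HasDerivAt (fun y => -φ (-y)) (-(deriv φ (-y) * -1)) y := h2.neg
    rwa [show -(deriv φ (-y) * -1) = deriv φ (-y) by ring] at h3
  have hd : ∀ y, deriv (fun y => -φ (-y)) y = deriv φ (-y) := fun y => (hder y).deriv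
  refine ⟨h.pos, fun y => ?_, fun y => ?_, fun y => (hder y).differentiableAt, fun y => ?_,
    fun y y' => ?_, ?_⟩
  · have := h.per (-(y + 1))
    rw [show -(y + 1) + 1 = -y by ring] at this
    rw [this]
  · rw [abs_neg]; exact h.bd _
  · rw [hd]; exact h.dbd _
  · rw [hd, hd]
    refine (h.dlip _ _).trans (le_of_eq ?_)
    congr 1
    rw [show -y - -y' = -(y - y') by ring, abs_neg]
  · rw [intervalIntegral.integral_neg, neg_eq_zero]
    rw [intervalIntegral.integral_comp_neg (fun s => φ s)]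
    have h1 := h.periodic.intervalIntegral_add_eq (-1) 0
    simp only [neg_add_cancel, zero_add] at h1
    rw [neg_zero, h1]
    exact h.int

lemma Data.refl (h : Data p C) : Data (refl p) C := by
  refine ⟨h.one_le, fun y => h.hi _, fun y => ?_, fun y => ?_, fun y y' => ?_, ?_⟩
  · unfold MP545af4.refl
    rw [sub_sub_cancel]
    exact h.lo _
  · unfold MP545af4.refl
    have := h.per (-(y + 1))
    rw [show -(y + 1) + 1 = -y by ring] at this
    rw [this]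
  · unfold MP545af4.refl
    rw [show 1 - p (-y) - (1 - p (-y')) = p (-y') - p (-y) by ring]
    refine (h.lip _ _).trans (le_of_eq ?_)
    congr 2
    ring
  · have h1 := h.phi.refl
    have h2 := lr_refl p
    unfold lr at h2
    rw [h2]
    exact h1

lemma S_refl (p : ℝ → ℝ) (α x : ℝ) (n : ℕ) :
    S (lr (refl p)) α (n + 1) (-x) = -S (lr p) α (n + 1) (x - n * α) := by
  rw [lr_refl]
  unfold S
  rw [← Finset.sum_neg_distrib]
  rw [← Finset.sum_range_reflect (fun j : ℕ => -lr p (-(-x + (j : ℝ) * α)))]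
  apply Finset.sum_congr rfl
  intro j hj
  have hj' := Finset.mem_range.1 hj
  have e1 : ((n + 1 - 1 - j : ℕ) : ℝ) = n - j := by
    rw [Nat.add_sub_cancel, Nat.cast_sub (by omega)]
  rw [e1]
  congr 2
  ring

/-- Regime B, drift to the left. -/
lemma regB_left (hD : Data p C) : ∀ᶠ k in atTop, ∀ x : ℝ,
    1 / Y k ^ 16 ≤ S (lr p) alpha (Q k) x → ∀ T : ℕ, Y k ^ 40 ≤ T → (T : ℝ) ≤ Y k ^ 45 →
      var (envAt p alpha x) T 0 ≤ T * Y k ^ 36 := by
  filter_upwards [big hD.one_le, regB_fast hD.refl] with k hB hfast x hx T hT1 hT2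
  have hY := hB.Y1
  have hY0 : 0 < Y k := by linarith
  have hqc := hB.qc
  have hqcY := hB.qcY
  have hδ := del_eq k
  rw [← var_reflect, ← envAt_refl]
  apply hfast (-x) _ T hT1 hT2
  obtain ⟨n, hn⟩ : ∃ n, Q k = n + 1 := ⟨Q k - 1, by have := Q_pos k; omega⟩
  have h1 := S_refl p alpha x n
  rw [← hn] at h1
  rw [h1]
  have h2 := (per k).steps hD.phi (x - n * alpha) n
  change |S (lr p) alpha (Q k) (x - n * alpha + n * alpha) - S (lr p) alpha (Q k) (x - n * alpha)| ≤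
    n * (C * del k) at h2
  rw [sub_add_cancel] at h2
  have h3 := (abs_le.1 h2).2
  have h4 : (n : ℝ) * (C * del k) ≤ 1 / (2 * Y k ^ 16) := by
    have h5 : (n : ℝ) ≤ Q k := by rw [hn]; push_cast; linarith
    have hC := hD.C_pos
    have hdel := del_pos k
    calc (n : ℝ) * (C * del k) ≤ Q k * (C * del k) := by gcongr
      _ = (Q k * C) / Y k ^ 40 := by rw [hδ]; ring
      _ ≤ 1 / (2 * Y k ^ 16) := by
        rw [div_le_div_iff₀ (by positivity) (by positivity)]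
        calc (Q k : ℝ) * C * (2 * Y k ^ 16) = (2 * (Q k * C)) * Y k ^ 16 := by ring
          _ ≤ Y k * Y k ^ 16 := by gcongr; linarith
          _ = Y k ^ 17 := by ring
          _ ≤ 1 * Y k ^ 40 := by
            rw [one_mul]; exact pow_le_pow_right₀ (by linarith) (by norm_num)
  have h5 : 1 / Y k ^ 16 = 1 / (2 * Y k ^ 16) + 1 / (2 * Y k ^ 16) := by field_simp; norm_num
  linarith

end Pool.Agent.MP545af4
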