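import Pool.Agent.Lib.MP_545af4_pr.Regimes

/-!
Variance bounds in the time regimes A and C.
-/

namespace Pool.Agent.MP545af4

open Filter Topology Finset

variable {p : ℝ → ℝ} {C : ℝ}

lemma nat_rpow_tendsto {a : ℝ} (ha : 0 < a) : Tendsto (fun T : ℕ => (T : ℝ) ^ a) atTop atTop :=
  (tendsto_rpow_atTop ha).comp tendsto_natCast_atTop_atTop

/-- Regime A. -/
lemma regA (hD : Data p C) : ∀ᶠ T : ℕ in atTop, ∀ (k : ℕ) (x : ℝ), (Q k : ℝ) ^ 3 ≤ T →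
    (T : ℝ) ≤ X k → var (envAt p alpha x) T 0 ≤ (T : ℝ) ^ (19 / 10 : ℝ) := by
  filter_upwards [(nat_rpow_tendsto (show (0 : ℝ) < 7 / 30 by norm_num)).eventually_ge_atTop
    (Real.exp (2 * C)), eventually_gt_atTop 0] with T hT hT0 k x h1 h2
  have hT' : (0 : ℝ) < T := by exact_mod_cast hT0
  have hC := hD.C_pos
  obtain ⟨h, hh, hQ⟩ := Q_even k
  have hQr : (Q k : ℝ) = 2 * h := by rw [hQ]; push_cast; ring
  have hQ0 := Qr_pos k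
  have hdel := del_pos k
  have hst := stage_A hD (per k) hh hQ x T
  have e1 : 2 * (C * del k) * T ≤ 2 * C := by
    have : del k * T ≤ 1 := by
      unfold X at h2
      rw [le_div_iff₀ hdel] at h2
      linarith
    calc 2 * (C * del k) * T = 2 * C * (del k * T) := by ring
      _ ≤ 2 * C * 1 := by gcongr
      _ = 2 * C := by ring
  have e2 : (h : ℝ) ^ 2 ≤ (T : ℝ) ^ (2 / 3 : ℝ) := by
    have e3 : (Q k : ℝ) ≤ (T : ℝ) ^ (1 / 3 : ℝ) := by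
      have := Real.rpow_le_rpow (by positivity) h1 (show (0 : ℝ) ≤ 1 / 3 by norm_num)
      rwa [← Real.rpow_natCast, ← Real.rpow_mul hQ0.le,
        show ((3 : ℕ) : ℝ) * (1 / 3) = 1 by norm_num, Real.rpow_one] at this
    have e4 : (h : ℝ) ≤ Q k := by
      rw [hQr]
      have : (0 : ℝ) ≤ h := by positivity
      linarith
    calc (h : ℝ) ^ 2 ≤ ((T : ℝ) ^ (1 / 3 : ℝ)) ^ 2 := by gcongr; linarith
      _ = (T : ℝ) ^ (2 / 3 : ℝ) := by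
        rw [← Real.rpow_natCast, ← Real.rpow_mul hT'.le]; norm_num
  calc var (envAt p alpha x) T 0 ≤ T * (h ^ 2 * Real.exp (2 * (C * del k) * T)) := hst
    _ ≤ T * ((T : ℝ) ^ (2 / 3 : ℝ) * (T : ℝ) ^ (7 / 30 : ℝ)) := by
      have := Real.exp_le_exp.2 e1
      gcongr
      linarith
    _ = (T : ℝ) ^ (19 / 10 : ℝ) := by
      rw [← Real.rpow_add hT', show (19 / 10 : ℝ) = 1 + (2 / 3 + 7 / 30) by norm_num,
        Real.rpow_add hT' 1, Real.rpow_one]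

/-- The numerical facts used in regime C. -/
lemma regC_num (C : ℝ) : ∀ᶠ T : ℕ in atTop, (1000 : ℝ) ≤ (T : ℝ) ^ (8 / 1000 : ℝ) ∧
    (5 : ℝ) ≤ (T : ℝ) ^ (2 / 1000 : ℝ) ∧ C ≤ T ∧ (2 : ℝ) ≤ (T : ℝ) ^ (51 / 1000 : ℝ) ∧
    16 * (T : ℝ) ^ 4 * Real.exp (-(T : ℝ) ^ (1 / 2 : ℝ)) ≤ 1 ∧ (1 : ℝ) ≤ T := by
  have h1 := (nat_rpow_tendsto (show (0 : ℝ) < 8 / 1000 by norm_num)).eventually_ge_atTop 1000
  have h2 := (nat_rpow_tendsto (show (0 : ℝ) < 2 / 1000 by norm_num)).eventually_ge_atTop 5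
  have h3 := (tendsto_natCast_atTop_atTop (R := ℝ)).eventually_ge_atTop C
  have h4 := (nat_rpow_tendsto (show (0 : ℝ) < 51 / 1000 by norm_num)).eventually_ge_atTop 2
  have h5 : ∀ᶠ y : ℝ in atTop, 16 * y ^ 8 * Real.exp (-y) ≤ 1 := by
    have h1 := (Real.tendsto_pow_mul_exp_neg_atTop_nhds_zero 8).const_mul 16
    rw [mul_zero] at h1
    filter_upwards [h1.eventually (ge_mem_nhds (show (0 : ℝ) < 1 by norm_num))] with y hy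
    rw [mul_assoc]; exact hy
  have h6 := (nat_rpow_tendsto (show (0 : ℝ) < 1 / 2 by norm_num)).eventually h5
  filter_upwards [h1, h2, h3, h4, h6, eventually_ge_atTop 1] with T a1 a2 a3 a4 a5 a6
  refine ⟨a1, a2, a3, a4, ?_, by exact_mod_cast a6⟩
  have : ((T : ℝ) ^ (1 / 2 : ℝ)) ^ 8 = (T : ℝ) ^ 4 := by
    rw [← Real.rpow_natCast, ← Real.rpow_mul (by positivity)]
    norm_num
  rwa [this] at a5

/-- Regime C. -/
lemma regC (hD : Data p C) : ∀ᶠ T : ℕ in atTop, ∀ (k : ℕ) (x : ℝ),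
    (Q k : ℝ) * C ≤ X k ^ (1 / 1000 : ℝ) → 1 ≤ X k → X k ^ (9 / 8 : ℝ) ≤ T →
    (T : ℝ) ≤ (Q (k + 1) : ℝ) ^ 3 → var (envAt p alpha x) T 0 ≤ (T : ℝ) ^ (19 / 10 : ℝ) := by
  filter_upwards [regC_num C] with T hnum k x hQC hX1 hT1 hT2
  obtain ⟨n1, n2, n3, n4, n5, n6⟩ := hnum
  have hT0 : (0 : ℝ) < T := by linarith
  have hT0' : 0 < T := by exact_mod_cast hT0
  have hC := hD.C_pos
  have hC1 := hD.one_le
  have hQ0 := Qr_pos k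
  have hdel := del_pos k
  have hX0 := X_pos k
  set N : ℕ := ⌈(T : ℝ) ^ (949 / 1000 : ℝ)⌉₊ with hN
  have hN1 : (T : ℝ) ^ (949 / 1000 : ℝ) ≤ N := Nat.le_ceil _
  have ha1 : (1 : ℝ) ≤ (T : ℝ) ^ (949 / 1000 : ℝ) := Real.one_le_rpow n6 (by norm_num)
  have hN2 : (N : ℝ) ≤ 2 * (T : ℝ) ^ (949 / 1000 : ℝ) := by
    have := (Nat.ceil_lt_add_one (show 0 ≤ (T : ℝ) ^ (949 / 1000 : ℝ) by positivity)).le
    linarith
  have hNT : (N : ℝ) ≤ T := by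
    calc (N : ℝ) ≤ 2 * (T : ℝ) ^ (949 / 1000 : ℝ) := hN2
      _ ≤ (T : ℝ) ^ (51 / 1000 : ℝ) * (T : ℝ) ^ (949 / 1000 : ℝ) := by gcongr
      _ = T := by rw [← Real.rpow_add hT0]; norm_num
  have hst := stage_C hD (per k) hT0' (N := N) (by exact_mod_cast hNT) x
  refine hst.trans ?_
  -- `X ≤ T ^ (8/9)`
  have hX : X k ≤ (T : ℝ) ^ (8 / 9 : ℝ) := by
    have := Real.rpow_le_rpow (by positivity) hT1 (show (0 : ℝ) ≤ 8 / 9 by norm_num)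
    rwa [← Real.rpow_mul hX0.le, show (9 / 8 : ℝ) * (8 / 9) = 1 by norm_num,
      Real.rpow_one] at this
  have hXT : X k ≤ T := by
    refine hX.trans ?_
    calc (T : ℝ) ^ (8 / 9 : ℝ) ≤ (T : ℝ) ^ (1 : ℝ) :=
          Real.rpow_le_rpow_of_exponent_le n6 (by norm_num)
      _ = T := Real.rpow_one _
  have hQCT : (Q k : ℝ) * C ≤ (T : ℝ) ^ (1 / 1000 : ℝ) :=
    hQC.trans (Real.rpow_le_rpow hX0.le hXT (by norm_num))
  have hQT : (Q k : ℝ) ≤ (T : ℝ) ^ (1 / 1000 : ℝ) := by nlinarith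
  -- the three terms of the potential drop
  have t1 : Q k * C / del k ≤ (T : ℝ) ^ (89 / 100 : ℝ) := by
    have e1 : Q k * C / del k = Q k * C * X k := by unfold X; field_simp
    rw [e1]
    calc Q k * C * X k ≤ (T : ℝ) ^ (1 / 1000 : ℝ) * (T : ℝ) ^ (8 / 9 : ℝ) := by gcongr
      _ = (T : ℝ) ^ (1 / 1000 + 8 / 9 : ℝ) := by rw [← Real.rpow_add hT0]
      _ ≤ (T : ℝ) ^ (89 / 100 : ℝ) := Real.rpow_le_rpow_of_exponent_le n6 (by norm_num)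
  have hcube : (T : ℝ) ^ (1 / 3 : ℝ) ≤ 2 * Q k * X k := by
    have h1 : (T : ℝ) ^ (1 / 3 : ℝ) ≤ Q (k + 1) := by
      have := Real.rpow_le_rpow hT0.le hT2 (show (0 : ℝ) ≤ 1 / 3 by norm_num)
      rwa [← Real.rpow_natCast (Q (k + 1) : ℝ) 3, ← Real.rpow_mul (Qr_pos _).le,
        show ((3 : ℕ) : ℝ) * (1 / 3) = 1 by norm_num, Real.rpow_one] at this
    exact h1.trans (Q_succ_le k)
  have t2 : N * (C * del k) ≤ 4 * (T : ℝ) ^ (89 / 100 : ℝ) := by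
    have e1 : del k ≤ 2 * Q k / (T : ℝ) ^ (1 / 3 : ℝ) := by
      have h1 : 0 < (T : ℝ) ^ (1 / 3 : ℝ) := by positivity
      rw [le_div_iff₀ h1]
      have h2 : del k * X k = 1 := by unfold X; field_simp
      calc del k * (T : ℝ) ^ (1 / 3 : ℝ) ≤ del k * (2 * Q k * X k) := by gcongr
        _ = 2 * Q k * (del k * X k) := by ring
        _ = 2 * Q k := by rw [h2, mul_one]
    calc N * (C * del k) ≤ (2 * (T : ℝ) ^ (949 / 1000 : ℝ)) *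
          (C * (2 * Q k / (T : ℝ) ^ (1 / 3 : ℝ))) := by gcongr
      _ = 4 * ((Q k * C) * ((T : ℝ) ^ (949 / 1000 : ℝ) / (T : ℝ) ^ (1 / 3 : ℝ))) := by ring
      _ ≤ 4 * ((T : ℝ) ^ (1 / 1000 : ℝ) *
          ((T : ℝ) ^ (949 / 1000 : ℝ) / (T : ℝ) ^ (1 / 3 : ℝ))) := by gcongr
      _ = 4 * (T : ℝ) ^ (1 / 1000 + (949 / 1000 - 1 / 3) : ℝ) := by
        rw [← Real.rpow_sub hT0, ← Real.rpow_add hT0]
      _ ≤ 4 * (T : ℝ) ^ (89 / 100 : ℝ) := by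
        apply mul_le_mul_of_nonneg_left _ (by norm_num)
        exact Real.rpow_le_rpow_of_exponent_le n6 (by norm_num)
  have t3 : (Q k : ℝ) * C ≤ (T : ℝ) ^ (89 / 100 : ℝ) :=
    hQCT.trans (Real.rpow_le_rpow_of_exponent_le n6 (by norm_num))
  -- the Gaussian term
  have t4 : (T : ℝ) ^ (898 / 1000 : ℝ) / 8 ≤ N ^ 2 / (8 * T) := by
    have e1 : (T : ℝ) ^ (898 / 1000 : ℝ) * T = ((T : ℝ) ^ (949 / 1000 : ℝ)) ^ 2 := by
      rw [← Real.rpow_natCast, ← Real.rpow_mul hT0.le]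
      nth_rewrite 2 [← Real.rpow_one (T : ℝ)]
      rw [← Real.rpow_add hT0]
      norm_num
    rw [div_le_div_iff₀ (by norm_num) (by positivity)]
    calc (T : ℝ) ^ (898 / 1000 : ℝ) * (8 * T) = 8 * ((T : ℝ) ^ (898 / 1000 : ℝ) * T) := by ring
      _ = 8 * ((T : ℝ) ^ (949 / 1000 : ℝ)) ^ 2 := by rw [e1]
      _ ≤ 8 * (N : ℝ) ^ 2 := by gcongr
      _ = (N : ℝ) ^ 2 * 8 := by ring
  have t5 : 1000 * (T : ℝ) ^ (89 / 100 : ℝ) ≤ (T : ℝ) ^ (898 / 1000 : ℝ) := by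
    calc 1000 * (T : ℝ) ^ (89 / 100 : ℝ) ≤ (T : ℝ) ^ (8 / 1000 : ℝ) * (T : ℝ) ^ (89 / 100 : ℝ) := by
          gcongr
      _ = (T : ℝ) ^ (898 / 1000 : ℝ) := by rw [← Real.rpow_add hT0]; norm_num
  have t6 : (T : ℝ) ^ (1 / 2 : ℝ) ≤ (T : ℝ) ^ (89 / 100 : ℝ) :=
    Real.rpow_le_rpow_of_exponent_le n6 (by norm_num)
  have t7 : (1 : ℝ) ≤ (T : ℝ) ^ (89 / 100 : ℝ) := Real.one_le_rpow n6 (by norm_num)
  have hexp : (1 : ℝ) / 4 - N ^ 2 / (8 * T) +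
      (Q k * C / del k + N * (C * del k) + Q k * C) / 2 ≤ -(T : ℝ) ^ (1 / 2 : ℝ) := by
    linarith
  have htail : ((N : ℝ) + T) ^ 2 * ((T + 1) * (2 * (Real.exp (1 / 4 - N ^ 2 / (8 * T) +
      (Q k * C / del k + N * (C * del k) + Q k * C) / 2) * C))) ≤ 1 := by
    have h1 := Real.exp_le_exp.2 hexp
    have h2 := Real.exp_pos (-(T : ℝ) ^ (1 / 2 : ℝ))
    calc _ ≤ ((T : ℝ) + T) ^ 2 * ((T + T) * (2 * (Real.exp (-(T : ℝ) ^ (1 / 2 : ℝ)) * T))) := by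
          gcongr
      _ = 16 * (T : ℝ) ^ 4 * Real.exp (-(T : ℝ) ^ (1 / 2 : ℝ)) := by ring
      _ ≤ 1 := n5
  have hmain : (N : ℝ) ^ 2 ≤ 4 * (T : ℝ) ^ (1898 / 1000 : ℝ) := by
    calc (N : ℝ) ^ 2 ≤ (2 * (T : ℝ) ^ (949 / 1000 : ℝ)) ^ 2 := by gcongr
      _ = 4 * ((T : ℝ) ^ (949 / 1000 : ℝ)) ^ 2 := by ring
      _ = 4 * (T : ℝ) ^ (1898 / 1000 : ℝ) := by
        rw [← Real.rpow_natCast, ← Real.rpow_mul hT0.le]; norm_num
  have h8 : (1 : ℝ) ≤ (T : ℝ) ^ (1898 / 1000 : ℝ) := Real.one_le_rpow n6 (by norm_num)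
  calc _ ≤ 4 * (T : ℝ) ^ (1898 / 1000 : ℝ) + 1 := by linarith
    _ ≤ 5 * (T : ℝ) ^ (1898 / 1000 : ℝ) := by linarith
    _ ≤ (T : ℝ) ^ (2 / 1000 : ℝ) * (T : ℝ) ^ (1898 / 1000 : ℝ) := by gcongr
    _ = (T : ℝ) ^ (19 / 10 : ℝ) := by rw [← Real.rpow_add hT0]; norm_num

/-- The stage of a time. -/
lemma exists_stage (K T : ℕ) (hT : Q K ^ 3 ≤ T) : ∃ k, K ≤ k ∧ Q k ^ 3 ≤ T ∧ T < Q (k + 1) ^ 3 := by
  have hk : ∀ k, Q k ^ 3 ≤ T → k ≤ T := by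
    intro k h
    have h1 := Q_gt k
    have h2 : Q k ≤ Q k ^ 3 := Nat.le_self_pow (by norm_num) _
    omega
  set k := Nat.findGreatest (fun k => Q k ^ 3 ≤ T) T with hkdef
  have h1 : Q k ^ 3 ≤ T := Nat.findGreatest_spec (P := fun k => Q k ^ 3 ≤ T) (hk K hT) hT
  have h2 : K ≤ k := Nat.le_findGreatest (hk K hT) hT
  refine ⟨k, h2, h1, ?_⟩
  by_contra hcon
  push Not at hcon
  have := Nat.le_findGreatest (P := fun k => Q k ^ 3 ≤ T) (hk (k + 1) hcon) hcon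
  omega

end Pool.Agent.MP545af4
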