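import Pool.Agent.Lib.MP_545af4_pr.Env
import Pool.Agent.Lib.MP_545af4_pr.Fast

/-!
Explicit variance bounds at one stage.
-/

namespace Pool.Agent.MP545af4

open Finset

variable {p : ℝ → ℝ} {C α x δ : ℝ} {Q : ℕ}

lemma Data.C_pos (h : Data p C) : 0 < C := by linarith [h.one_le]

/-- Regime A. -/
lemma stage_A (hD : Data p C) (hP : Per α Q δ) {h : ℕ} (hh : 0 < h) (hQ : Q = 2 * h) (x : ℝ)
    (T : ℕ) : var (envAt p α x) T 0 ≤ T * (h ^ 2 * Real.exp (2 * (C * δ) * T)) := by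
  apply var_le_periodic (hD.pot α x).env hh
  intro z
  obtain ⟨A, hA⟩ := hP.eq
  have hper : Function.Periodic p 1 := hD.per
  have e1 : x + ((z + 2 * (h : ℤ) : ℤ) : ℝ) * α = (x + z * α + δ) + (A : ℝ) * 1 := by
    rw [hQ] at hA
    push_cast at hA ⊢
    linarith
  unfold envAt
  rw [e1, hper.int_mul A]
  have := hD.lip (x + z * α + δ) (x + z * α)
  rwa [show x + z * α + δ - (x + z * α) = δ by ring, abs_of_pos hP.δpos] at this

/-- Regime C. -/
lemma stage_C (hD : Data p C) (hP : Per α Q δ) {N T : ℕ} (hT : 0 < T) (hN : N ≤ T) (x : ℝ) :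
    var (envAt p α x) T 0 ≤ N ^ 2 + (N + T) ^ 2 * ((T + 1) *
      (2 * (Real.exp (1 / 4 - N ^ 2 / (8 * T) + (Q * C / δ + N * (C * δ) + Q * C) / 2) * C))) := by
  have h1 := pot_long (x := x) hP hD.phi 0 N
  have h2 := pot_long (x := x) hP hD.phi (-N) N
  rw [zero_add] at h1
  rw [neg_add_cancel] at h2
  have h3 := mom_diffusive (hD.pot α x) hT hN (a := 0)
    (B := Q * C / δ + N * (C * δ) + Q * C) (by
      rw [zero_sub]
      have := (abs_le.1 h2).2
      change _ ≤ _ at this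
      unfold lr
      linarith) (by
      rw [zero_add]
      have := (abs_le.1 h1).1
      unfold lr
      linarith) (r := T) le_rfl
  have h4 := var_le_mom (p := envAt p α x) ((0 : ℤ) : ℝ) T 0
  refine h4.trans (h3.trans (le_of_eq ?_))
  rw [div_div_eq_mul_div, div_one]

lemma blocks_ge {V : ℤ → ℝ} {c : ℝ} (hc : 0 ≤ c) (hC : 0 < C)
    (hs : ∀ (z : ℤ) (n : ℕ), |V (z + n) - V z| ≤ n * C) (hQ : 0 < Q) (a : ℤ) (N : ℕ)
    (hb : ∀ i : ℕ, i * Q ≤ N → -c ≤ V (a + (i * Q : ℕ) + Q) - V (a + (i * Q : ℕ))) :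
    -(N * c + Q * C) ≤ V (a + N) - V a := by
  have hblocks : ∀ i : ℕ, i * Q ≤ N → -(i * c) ≤ V (a + (i * Q : ℕ)) - V a := by
    intro i
    induction i with
    | zero => simp
    | succ i ih =>
      intro hi
      have h1 := ih (by nlinarith)
      have h2 := hb i (by nlinarith)
      have e1 : a + ((i * Q : ℕ) : ℤ) + (Q : ℤ) = a + (((i + 1) * Q : ℕ) : ℤ) := by
        push_cast; ring
      rw [e1] at h2
      push_cast at *
      linarith
  set i := N / Q with hi
  set r := N % Q with hr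
  have hn : N = i * Q + r := by
    have := Nat.mod_add_div N Q
    rw [hi, hr, mul_comm]
    omega
  have hr1 : r < Q := Nat.mod_lt _ hQ
  have h1 := hblocks i (by omega)
  have h2 := hs (a + (i * Q : ℕ)) r
  have e1 : a + ((i * Q : ℕ) : ℤ) + (r : ℤ) = a + (N : ℤ) := by
    rw [add_assoc]; congr 1
    exact_mod_cast hn.symm
  rw [e1] at h2
  have h3 := (abs_le.1 h2).1
  have h4 : (r : ℝ) * C ≤ Q * C := by
    have : (r : ℝ) ≤ Q := by exact_mod_cast hr1.le
    gcongr
  have h5 : (i : ℝ) * c ≤ N * c := by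
    have : (i : ℝ) ≤ N := by
      have : i ≤ N := by nlinarith
      exact_mod_cast this
    gcongr
  linarith

/-- The slow case. -/
lemma stage_slow (hD : Data p C) (hP : Per α Q δ) {N T : ℕ} (hT : 0 < T) (hN : N ≤ T) {x t : ℝ}
    (ht : 0 < t) (hw : ∀ y : ℝ, |y| ≤ (N + 2) * δ → |S (lr p) α Q (x + y)| < 2 * t) :
    var (envAt p α x) T 0 ≤ N ^ 2 + (N + T) ^ 2 * ((T + 1) *
      (2 * (Real.exp (1 / 4 - N ^ 2 / (8 * T) +
        (N * (2 * t + Q * (C * δ)) + Q * C) / 2) * C))) := by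
  have hQ2 := hP.Qpos
  have hQ0 : 0 < Q := by omega
  have hC := hD.C_pos
  have hδ := hP.δpos
  have hblock : ∀ z : ℤ, |(((z + 1) / (Q : ℤ) : ℤ) : ℝ)| ≤ N + 2 →
      |pot (lr p) α x (z + Q) - pot (lr p) α x z| ≤ 2 * t + Q * (C * δ) := by
    intro z hz
    have h1 := pot_block (x := x) hP hD.phi z
    have h2 := hw ((((z + 1) / (Q : ℤ) : ℤ) : ℝ) * δ) (by
      rw [abs_mul, abs_of_pos hδ]
      gcongr)
    have h3 := abs_add_le (pot (lr p) α x (z + Q) - pot (lr p) α x z -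
      S (lr p) α Q (x + (((z + 1) / (Q : ℤ) : ℤ) : ℝ) * δ))
      (S (lr p) α Q (x + (((z + 1) / (Q : ℤ) : ℤ) : ℝ) * δ))
    rw [sub_add_cancel] at h3
    refine h3.trans ?_
    have h4 : |pot (lr p) α x (z + Q) - pot (lr p) α x z -
      S (lr p) α Q (x + (((z + 1) / (Q : ℤ) : ℤ) : ℝ) * δ)| ≤ Q * (C * δ) := h1
    linarith
  have hidx : ∀ z : ℤ, -(N : ℤ) ≤ z → z ≤ N → |(((z + 1) / (Q : ℤ) : ℤ) : ℝ)| ≤ N + 2 := by
    intro z h1 h2
    have h3 : |((z + 1) / (Q : ℤ) : ℤ)| ≤ (N : ℤ) + 2 := by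
      rw [abs_le]
      constructor
      · rw [Int.le_ediv_iff_mul_le (by exact_mod_cast hQ0)]
        have : (2 : ℤ) ≤ Q := by exact_mod_cast hQ2
        nlinarith
      · have h4 : (z + 1) / (Q : ℤ) < (N : ℤ) + 2 := by
          rw [Int.ediv_lt_iff_lt_mul (by exact_mod_cast hQ0)]
          have : (2 : ℤ) ≤ Q := by exact_mod_cast hQ2
          nlinarith
        exact h4.le
    exact_mod_cast h3
  have hs := fun (z : ℤ) (n : ℕ) => pot_short (α := α) (x := x) hD.phi z n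
  have hc0 : 0 ≤ 2 * t + Q * (C * δ) := by positivity
  have h1 := blocks_ge (V := pot (lr p) α x) hc0 hC hs hQ0 0 N (by
    intro i hi
    have hi' : ((i * Q : ℕ) : ℤ) ≤ N := by exact_mod_cast hi
    have := hblock (0 + (i * Q : ℕ)) (hidx _ (by omega) (by omega))
    exact (abs_le.1 this).1)
  have h2 := blocks_ge (V := fun z => -pot (lr p) α x z) hc0 hC (by
    intro z n
    have := hs z n
    rw [abs_sub_comm] at this
    rw [show -pot (lr p) α x (z + n) - -pot (lr p) α x z =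
      pot (lr p) α x z - pot (lr p) α x (z + n) by ring]
    exact this) hQ0 (-N) N (by
    intro i hi
    have hi' : ((i * Q : ℕ) : ℤ) ≤ N := by exact_mod_cast hi
    have := hblock (-N + (i * Q : ℕ)) (hidx _ (by omega) (by omega))
    have := (abs_le.1 this).2
    linarith)
  rw [zero_add] at h1
  simp only [neg_add_cancel] at h2
  have h3 := mom_diffusive (hD.pot α x) hT hN (a := 0)
    (B := N * (2 * t + Q * (C * δ)) + Q * C) (by
      rw [zero_sub]
      linarith) (by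
      rw [zero_add]
      linarith) (r := T) le_rfl
  have h4 := var_le_mom (p := envAt p α x) ((0 : ℤ) : ℝ) T 0
  refine h4.trans (h3.trans (le_of_eq ?_))
  rw [div_div_eq_mul_div, div_one]

end Pool.Agent.MP545af4
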