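import Pool.Agent.Lib.MP_545af4_pr.Stage

/-!
Explicit variance bound at one stage, fast case: the local drift is at least `t` to the right.
-/

namespace Pool.Agent.MP545af4

open Finset

variable {p : ℝ → ℝ} {C α x δ : ℝ} {Q : ℕ}

/-- The bound of the fast case. -/
noncomputable def fastBound (C t : ℝ) (Q N m T : ℕ) : ℝ :=
  2 * (T * (Real.exp (Q * C + 1 - m * t / 3) * (1 + 2 * T) +
      Real.exp (Q * C + 1) * (2 / (t / (3 * Q))) * C) ^ 2 +
    T ^ 2 * ((T + 1) * (Real.exp (-(m * t / 3 - (Q * C + 1)) / 2) * C))) +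
  2 * (N ^ 2 + (N + T) ^ 2 * ((T + 1) * (2 *
    ((Real.exp (1 / 4 - N ^ 2 / (8 * T) + (N * (2 * t) + (Q * C + 1) + C) / 2) +
      Real.exp (-(m * t / 3 - (Q * C + 1) - C) / 2)) * C))))

lemma stage_fast (hD : Data p C) (hP : Per α Q δ) {t : ℝ} (ht : 0 < t) (ht1 : t ≤ 1)
    (hx : S (lr p) α Q x ≤ -t) (hδt : Q * (C * δ) ≤ t / 6) {N m T : ℕ} (hT : 0 < T)
    (hN : N ≤ T) (hN1 : 1 ≤ N) (hwin : Q * C * ((N + 2) * δ) ^ 2 ≤ t / 2)
    (hm : 2 * m * δ ≤ t / (2 * (Q * C))) :
    var (envAt p α x) T 0 ≤ fastBound C t Q N m T := by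
  have hQ2 := hP.Qpos
  have hQ0 : 0 < Q := by omega
  have hQr : (0 : ℝ) < Q := by exact_mod_cast hQ0
  have hC := hD.C_pos
  have hδ := hP.δpos
  have hg : Phi (S (lr p) α Q) (Q * C) := S_phi hD.phi hQ0
  obtain ⟨ys, hys0, hbelow, hleft, hright⟩ := hg.first ht hx
  set V := pot (lr p) α x with hV
  set ms : ℕ := ⌈ys / δ⌉₊ with hms
  have hms1 : 1 ≤ ms := Nat.one_le_ceil_iff.2 (by positivity)
  have hms_lt : ∀ k : ℤ, k < ms → (k : ℝ) * δ < ys := by
    intro k hk
    rcases le_or_gt k 0 with h0 | h0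
    · have : (k : ℝ) ≤ 0 := by exact_mod_cast h0
      nlinarith
    · obtain ⟨k', rfl⟩ : ∃ k' : ℕ, k = k' := ⟨k.toNat, by omega⟩
      have : k' < ms := by exact_mod_cast hk
      have := Nat.lt_ceil.1 this
      rw [lt_div_iff₀ hδ] at this
      exact_mod_cast this
  have hms_ge : ys ≤ ms * δ := by
    have := Nat.le_ceil (ys / δ)
    rwa [div_le_iff₀ hδ] at this
  have hms_le : ms * δ ≤ ys + δ := by
    have := (Nat.ceil_lt_add_one (show 0 ≤ ys / δ by positivity)).le
    have h2 : (ms : ℝ) * δ ≤ (ys / δ + 1) * δ := by gcongr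
    have h3 : (ys / δ + 1) * δ = ys + δ := by field_simp
    linarith
  set b : ℤ := Q * ms with hb
  have hblock := fun z : ℤ => pot_block (α := α) (x := x) hP hD.phi z
  have hs := fun (z : ℤ) (n : ℕ) => pot_short (α := α) (x := x) hD.phi z n
  set M : ℝ := Q * C + 1 with hM
  set τ : ℝ := t / (3 * Q) with hτ
  have hτ0 : 0 < τ := by positivity
  have hτQ : τ * Q = t / 3 := by rw [hτ]; field_simp
  have hτ1 : τ ≤ 1 := by
    rw [hτ, div_le_one (by positivity)]
    have : (2 : ℝ) ≤ Q := by exact_mod_cast hQ2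
    linarith
  set z₀ : ℤ := -(Q * (2 * m) : ℤ) with hz₀
  set z₁ : ℤ := -(Q * m : ℤ) with hz₁
  have hQz : (0 : ℤ) < Q := by exact_mod_cast hQ0
  have hQz2 : (2 : ℤ) ≤ Q := by exact_mod_cast hQ2
  -- the potential decreases over every block of the drift region
  have hdown : ∀ j : ℤ, z₀ ≤ j → j + 2 ≤ b → V (j + Q) - V j ≤ -(t / 3) := by
    intro j hj1 hj2
    set k : ℤ := (j + 1) / (Q : ℤ) with hk
    have hk1 : -(2 * m : ℤ) ≤ k := by
      rw [hk, Int.le_ediv_iff_mul_le hQz]
      rw [hz₀] at hj1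
      nlinarith
    have hk2 : k < ms := by
      rw [hk, Int.ediv_lt_iff_lt_mul hQz]
      rw [hb] at hj2
      nlinarith
    have h1 : S (lr p) α Q (x + k * δ) ≤ -t / 2 := by
      rcases le_or_gt k 0 with h0 | h0
      · apply hleft
        · have h2 : -(2 * m : ℝ) ≤ k := by exact_mod_cast hk1
          have h3 : -(2 * m : ℝ) * δ ≤ k * δ := by gcongr
          have h4 : -(2 * m : ℝ) * δ = -(2 * m * δ) := by ring
          linarith
        · have : (k : ℝ) ≤ 0 := by exact_mod_cast h0
          nlinarith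
      · apply (hbelow _ _ (hms_lt k hk2)).le
        have : (0 : ℝ) < k := by exact_mod_cast h0
        positivity
    have h2 := (abs_le.1 (hblock j)).2
    change V (j + Q) - V j - S (lr p) α Q (x + k * δ) ≤ Q * (C * δ) at h2
    linarith
  have hVn : ∀ n : ℕ, ∀ j : ℤ, z₀ ≤ j → j + n < b → V (j + n) - V j ≤ M - τ * n := by
    intro n
    induction n using Nat.strong_induction_on with
    | _ n ih =>
      intro j hj1 hj2
      rcases lt_or_ge n Q with hn | hn
      · have h1 := (abs_le.1 (hs j n)).2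
        change V (j + n) - V j ≤ n * C at h1
        have h2 : (n : ℝ) ≤ Q := by exact_mod_cast hn.le
        have h3 : (n : ℝ) * C ≤ Q * C := by gcongr
        have h4 : τ * n ≤ τ * Q := by gcongr
        rw [hτQ] at h4
        linarith
      · obtain ⟨n', rfl⟩ : ∃ n' : ℕ, n = n' + Q := ⟨n - Q, by omega⟩
        have h1 := ih n' (by omega) (j + Q) (by omega) (by push_cast at hj2; omega)
        have h2 := hdown j hj1 (by push_cast at hj2; omega)
        have e1 : j + ((n' + Q : ℕ) : ℤ) = j + Q + n' := by push_cast; ring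
        rw [e1]
        push_cast
        have h3 : τ * (n' + Q) = τ * n' + t / 3 := by rw [mul_add, hτQ]
        linarith
  have hVjz : ∀ j z : ℤ, z₀ ≤ j → j ≤ z → z < b → V z - V j ≤ M - τ * (z - j) := by
    intro j z h1 h2 h3
    obtain ⟨n, rfl⟩ : ∃ n : ℕ, z = j + n := ⟨(z - j).toNat, by omega⟩
    have := hVn n j h1 h3
    push_cast
    rw [show (j : ℝ) + n - j = n by ring]
    exact this
  have hb0 : 0 < b := by
    rw [hb]
    have : (1 : ℤ) ≤ ms := by exact_mod_cast hms1
    nlinarith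
  have hz10 : z₁ ≤ 0 := by
    rw [hz₁]
    have : (0 : ℤ) ≤ Q * m := by positivity
    omega
  have hz01 : z₀ ≤ z₁ := by
    rw [hz₀, hz₁]
    have : (0 : ℤ) ≤ Q * m := by positivity
    linarith
  have hz01' : (z₁ : ℝ) - z₀ = Q * m := by
    rw [hz₀, hz₁]; push_cast; ring
  have hz1r : (z₁ : ℝ) = -(Q * m) := by rw [hz₁]; push_cast; ring
  -- barrier on the left of the start
  have hH : m * t / 3 - M ≤ V z₁ - V 0 := by
    have h1 := hVjz z₁ 0 hz01 hz10 hb0
    rw [hz1r] at h1
    have h2 : τ * (((0 : ℤ) : ℝ) - -(Q * m)) = m * t / 3 := by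
      rw [Int.cast_zero, zero_sub, neg_neg, ← mul_assoc, hτQ]; ring
    rw [h2] at h1
    linarith
  -- to the right of `b`
  have hR : -(N * (2 * t) + Q * C) ≤ V (b + N) - V b := by
    apply blocks_ge (by positivity) hC hs hQ0 b N
    intro i hi
    have hk : (b + (i * Q : ℕ) + 1) / (Q : ℤ) = ms + i := by
      rw [hb]
      push_cast
      rw [show (Q : ℤ) * ms + i * Q + 1 = 1 + (ms + i) * Q by ring,
        Int.add_mul_ediv_right _ _ hQz.ne', Int.ediv_eq_zero_of_lt (by norm_num) (by omega)]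
      ring
    have h2 := (abs_le.1 (hblock (b + (i * Q : ℕ)))).1
    rw [hk] at h2
    change -(Q * (C * δ)) ≤ V (b + (i * Q : ℕ) + Q) - V (b + (i * Q : ℕ)) -
      S (lr p) α Q (x + ((ms + i : ℤ) : ℝ) * δ) at h2
    have h3 := hright (((ms + i : ℤ) : ℝ) * δ) (by
      push_cast
      have : 0 ≤ (i : ℝ) * δ := by positivity
      linarith)
    have h4 : Q * C * (((ms + i : ℤ) : ℝ) * δ - ys) ^ 2 ≤ Q * C * ((N + 2) * δ) ^ 2 := by
      apply mul_le_mul_of_nonneg_left _ (by positivity)
      push_cast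
      have hi' : (i : ℝ) ≤ N := by
        have : i ≤ N := by nlinarith
        exact_mod_cast this
      have h5 : (i : ℝ) * δ ≤ N * δ := by gcongr
      apply pow_le_pow_left₀
      · have : 0 ≤ (i : ℝ) * δ := by positivity
        linarith
      · linarith
    change -(2 * t) ≤ V (b + (i * Q : ℕ) + Q) - V (b + (i * Q : ℕ))
    linarith
  -- the last step before `b`
  have hlast : V b - V (b - 1) ≤ C := by
    have h1 := (abs_le.1 (hs (b - 1) 1)).2
    rw [show b - 1 + ((1 : ℕ) : ℤ) = b by push_cast; ring] at h1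
    change V b - V (b - 1) ≤ (1 : ℕ) * C at h1
    simpa using h1
  have hPot := hD.pot α x
  change Pot (envAt p α x) V (1 / C) at hPot
  set η : ℝ := (Real.exp (1 / 4 - N ^ 2 / (8 * T) + (N * (2 * t) + M + C) / 2) +
      Real.exp (-(m * t / 3 - M - C) / 2)) * C with hη
  have hη1 : Real.exp (1 / 4 - N ^ 2 / (8 * T) + (N * (2 * t) + M + C) / 2) * C ≤ η := by
    rw [hη]
    exact mul_le_mul_of_nonneg_right (le_add_of_nonneg_right (Real.exp_pos _).le) hC.le
  have hη2 : Real.exp (-(m * t / 3 - M - C) / 2) * C ≤ η := by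
    rw [hη]
    exact mul_le_mul_of_nonneg_right (le_add_of_nonneg_left (Real.exp_pos _).le) hC.le
  have hNt : 0 ≤ (N : ℝ) * (2 * t) := by positivity
  have hKright : ∀ s ≤ T, K (envAt p α x) s b (b + N) ≤ η := by
    intro s hs'
    have h1 := K_gauss hPot hs' hT hN (a := b) (w := b + N) (by simp)
      (B := N * (2 * t) + M + C) (by
        have : (0 : ℝ) < Q * C := by positivity
        linarith)
    rw [div_div_eq_mul_div, div_one] at h1
    exact h1.trans hη1
  have hMpos : 0 < M := by positivity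
  -- the second moment of the walk started at `b`
  have hΓ : ∀ s ≤ T, mom (envAt p α x) b s b ≤ N ^ 2 + (N + T) ^ 2 * ((T + 1) * (2 * η)) := by
    intro s hs'
    rcases le_or_gt z₁ (b - N) with hcase | hcase
    · have hB : -(N * (2 * t) + M + C) ≤ V (b - N) - V b := by
        have h1 := hVjz (b - N) (b - 1) (by omega) (by omega) (by omega)
        have h2 : 0 ≤ τ * (((b - 1 : ℤ) : ℝ) - ((b - N : ℤ) : ℝ)) := by
          apply mul_nonneg hτ0.le
          have : b - N ≤ b - 1 := by omega
          have : ((b - N : ℤ) : ℝ) ≤ ((b - 1 : ℤ) : ℝ) := by exact_mod_cast this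
          linarith
        linarith
      apply mom_confine' hPot (N := N) (by positivity) (a := b) (b₁ := b - N) (b₂ := b + N)
        (by omega) (by omega) _ _ hs'
      · intro z h1 h2
        rw [abs_le]
        have e1 : (b : ℝ) - N ≤ z := by exact_mod_cast h1
        have e2 : (z : ℝ) ≤ b + N := by exact_mod_cast h2
        constructor <;> linarith
      · intro s hs''
        refine ⟨?_, hKright s hs''⟩
        have h1 := K_gauss hPot hs'' hT hN (a := b) (w := b - N) (by simp) hB
        rw [div_div_eq_mul_div, div_one] at h1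
        exact h1.trans hη1
    · have hB : m * t / 3 - M - C ≤ V z₁ - V b := by
        have h1 := hVjz z₁ (b - 1) hz01 (by omega) (by omega)
        rw [hz1r] at h1
        have h2 : m * t / 3 ≤ τ * (((b - 1 : ℤ) : ℝ) - -(Q * m)) := by
          have h3 : (0 : ℝ) ≤ ((b - 1 : ℤ) : ℝ) := by
            have : 0 ≤ b - 1 := by omega
            exact_mod_cast this
          have h4 : τ * (Q * m) = m * t / 3 := by rw [← mul_assoc, hτQ]; ring
          nlinarith
        linarith
      apply mom_confine' hPot (N := N) (by positivity) (a := b) (b₁ := z₁) (b₂ := b + N)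
        (by omega) (by omega) _ _ hs'
      · intro z h1 h2
        rw [abs_le]
        have e0 : b - N ≤ z := by omega
        have e1 : (b : ℝ) - N ≤ z := by exact_mod_cast e0
        have e2 : (z : ℝ) ≤ b + N := by exact_mod_cast h2
        constructor <;> linarith
      · intro s hs''
        refine ⟨?_, hKright s hs''⟩
        have h1 := K_barrier hPot s b z₁ hB
        rw [div_div_eq_mul_div, div_one] at h1
        exact h1.trans hη2
  have hfin := var_fast (b := b) hPot hτ0 hτ1 hz01 hz10 hb0.le hVjz hΓ hH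
  refine hfin.trans (le_of_eq ?_)
  rw [hz01']
  have e1 : τ * (Q * m) = m * t / 3 := by rw [← mul_assoc, hτQ]; ring
  rw [e1]
  unfold fastBound
  simp only [div_div_eq_mul_div, div_one, hη, hM, hτ]

end Pool.Agent.MP545af4
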