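import Mathlib

/-!
Nearest neighbour walks on `ℤ` in a fixed environment `p : ℤ → ℝ`: elementary recursions.
-/

namespace Pool.Agent.MP545af4

/-- The expectation of `f (Z_t)` for the walk started at `z`. -/
def ex (p : ℤ → ℝ) : ℕ → (ℤ → ℝ) → ℤ → ℝ
  | 0, f, z => f z
  | t + 1, f, z => p z * ex p t f (z + 1) + (1 - p z) * ex p t f (z - 1)

/-- An environment with values in `[0, 1]`. -/
def IsEnv (p : ℤ → ℝ) : Prop := ∀ z, 0 ≤ p z ∧ p z ≤ 1

variable {p : ℤ → ℝ}

@[simp] lemma ex_zero (f : ℤ → ℝ) (z : ℤ) : ex p 0 f z = f z := rfl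

lemma ex_succ (t : ℕ) (f : ℤ → ℝ) (z : ℤ) :
    ex p (t + 1) f z = p z * ex p t f (z + 1) + (1 - p z) * ex p t f (z - 1) := rfl

lemma ex_const (t : ℕ) (c : ℝ) (z : ℤ) : ex p t (fun _ => c) z = c := by
  induction t generalizing z with
  | zero => rfl
  | succ t ih => rw [ex_succ, ih, ih]; ring

lemma ex_add (t : ℕ) (f g : ℤ → ℝ) (z : ℤ) :
    ex p t (fun w => f w + g w) z = ex p t f z + ex p t g z := by
  induction t generalizing z with
  | zero => rfl
  | succ t ih => rw [ex_succ, ex_succ, ex_succ, ih, ih]; ring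

lemma ex_mul_const (t : ℕ) (f : ℤ → ℝ) (c : ℝ) (z : ℤ) :
    ex p t (fun w => f w * c) z = ex p t f z * c := by
  induction t generalizing z with
  | zero => rfl
  | succ t ih => rw [ex_succ, ex_succ, ih, ih]; ring

lemma ex_le_of_window (hp : IsEnv p) {f : ℤ → ℝ} {C : ℝ} (t : ℕ) (z : ℤ)
    (h : ∀ w : ℤ, |w - z| ≤ t → f w ≤ C) : ex p t f z ≤ C := by
  induction t generalizing z with
  | zero => exact h z (by simp)
  | succ t ih =>
    rw [ex_succ]
    have h1 : ex p t f (z + 1) ≤ C := ih _ (fun w hw => h w (by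
      push_cast
      have := abs_sub_le w (z + 1) z
      have h2 : |(z + 1) - z| = 1 := by simp
      omega))
    have h2 : ex p t f (z - 1) ≤ C := ih _ (fun w hw => h w (by
      push_cast
      have := abs_sub_le w (z - 1) z
      have h2 : |(z - 1) - z| = 1 := by
        rw [show (z - 1) - z = -1 by ring]; simp
      omega))
    have h3 := (hp z).1
    have h4 := (hp z).2
    nlinarith

lemma le_ex_of_window (hp : IsEnv p) {f : ℤ → ℝ} {C : ℝ} (t : ℕ) (z : ℤ)
    (h : ∀ w : ℤ, |w - z| ≤ t → C ≤ f w) : C ≤ ex p t f z := by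
  have h1 := ex_le_of_window hp (f := fun w => f w * (-1)) (C := -C) t z
    (fun w hw => by have := h w hw; linarith)
  rw [ex_mul_const] at h1
  linarith

/-- The mean of `Z_t`. -/
def mean (p : ℤ → ℝ) (t : ℕ) (z : ℤ) : ℝ := ex p t (fun w => (w : ℝ)) z

/-- The second moment around `a`. -/
def mom (p : ℤ → ℝ) (a : ℝ) (t : ℕ) (z : ℤ) : ℝ := ex p t (fun w => ((w : ℝ) - a) ^ 2) z

/-- The variance of `Z_t`. -/
def var (p : ℤ → ℝ) (t : ℕ) (z : ℤ) : ℝ := mom p 0 t z - mean p t z ^ 2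

lemma mean_zero (z : ℤ) : mean p 0 z = z := rfl

lemma mean_succ (t : ℕ) (z : ℤ) :
    mean p (t + 1) z = p z * mean p t (z + 1) + (1 - p z) * mean p t (z - 1) := rfl

lemma mom_zero (a : ℝ) (z : ℤ) : mom p a 0 z = ((z : ℝ) - a) ^ 2 := rfl

lemma mom_succ (a : ℝ) (t : ℕ) (z : ℤ) :
    mom p a (t + 1) z = p z * mom p a t (z + 1) + (1 - p z) * mom p a t (z - 1) := rfl

lemma mom_eq (a : ℝ) (t : ℕ) (z : ℤ) :
    mom p a t z = mom p 0 t z - 2 * a * mean p t z + a ^ 2 := by
  induction t generalizing z with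
  | zero => simp only [mom_zero, mean_zero]; ring
  | succ t ih => rw [mom_succ, mom_succ, mean_succ, ih, ih]; ring

lemma var_le_mom (a : ℝ) (t : ℕ) (z : ℤ) : var p t z ≤ mom p a t z := by
  rw [var, mom_eq a]
  nlinarith [sq_nonneg (mean p t z - a)]

lemma mom_self (t : ℕ) (z : ℤ) : mom p (mean p t z) t z = var p t z := by
  rw [var, mom_eq (mean p t z)]
  ring

lemma var_zero (z : ℤ) : var p 0 z = 0 := by
  rw [var, mom_zero, mean_zero]; ring

lemma var_succ (t : ℕ) (z : ℤ) :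
    var p (t + 1) z = p z * var p t (z + 1) + (1 - p z) * var p t (z - 1) +
      p z * (1 - p z) * (mean p t (z + 1) - mean p t (z - 1)) ^ 2 := by
  rw [var, var, var, mom_succ, mean_succ]; ring

lemma mom_nonneg (hp : IsEnv p) (a : ℝ) (t : ℕ) (z : ℤ) : 0 ≤ mom p a t z :=
  le_ex_of_window hp t z (fun _ _ => sq_nonneg _)

lemma mom_le (hp : IsEnv p) (a : ℝ) (t : ℕ) (z : ℤ) :
    mom p a t z ≤ (|(z : ℝ) - a| + t) ^ 2 := by
  refine ex_le_of_window hp t z (fun w hw => ?_)
  rw [← sq_abs ((w : ℝ) - a)]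
  apply pow_le_pow_left₀ (abs_nonneg _)
  have h1 : |(w : ℝ) - z| ≤ t := by exact_mod_cast hw
  have h2 := abs_sub_le (w : ℝ) z a
  linarith

lemma mean_sub_le (hp : IsEnv p) (t : ℕ) (z : ℤ) : |mean p t z - z| ≤ t := by
  rw [abs_le]
  constructor
  · have := le_ex_of_window hp (f := fun w => (w : ℝ)) (C := (z : ℝ) - t) t z (fun w hw => by
      have h1 : |(w : ℝ) - z| ≤ t := by exact_mod_cast hw
      have := (abs_le.1 h1).1
      linarith)
    change (z : ℝ) - t ≤ mean p t z at this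
    linarith
  · have := ex_le_of_window hp (f := fun w => (w : ℝ)) (C := (z : ℝ) + t) t z (fun w hw => by
      have h1 : |(w : ℝ) - z| ≤ t := by exact_mod_cast hw
      have := (abs_le.1 h1).2
      linarith)
    change mean p t z ≤ (z : ℝ) + t at this
    linarith

/-- The derivative of the mean along the even sublattice. -/
def dm (p : ℤ → ℝ) (t : ℕ) (z : ℤ) : ℝ := mean p t (z + 1) - mean p t (z - 1)

lemma dm_succ (t : ℕ) (z : ℤ) :
    dm p (t + 1) z = p (z + 1) * dm p t (z + 1) + (1 - p (z - 1)) * dm p t (z - 1) := by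
  unfold dm
  rw [mean_succ, mean_succ]
  rw [show z + 1 - 1 = z by ring, show z - 1 + 1 = z by ring]
  ring

lemma dm_nonneg (hp : IsEnv p) (t : ℕ) (z : ℤ) : 0 ≤ dm p t z := by
  induction t generalizing z with
  | zero => unfold dm; rw [mean_zero, mean_zero]; push_cast; linarith
  | succ t ih =>
    rw [dm_succ]
    have h1 := (hp (z + 1)).1
    have h2 := (hp (z - 1)).2
    have h3 := ih (z + 1)
    have h4 := ih (z - 1)
    have h5 : 0 ≤ 1 - p (z - 1) := by linarith
    positivity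

lemma dm_sum (t : ℕ) (z : ℤ) (h : ℕ) :
    ∑ j ∈ Finset.range h, dm p t (z + 2 * j) = mean p t (z - 1 + 2 * h) - mean p t (z - 1) := by
  induction h with
  | zero => simp
  | succ h ih =>
    rw [Finset.sum_range_succ, ih, dm]
    have e1 : z + 2 * (h : ℤ) + 1 = z - 1 + 2 * ((h + 1 : ℕ) : ℤ) := by push_cast; ring
    have e2 : z + 2 * (h : ℤ) - 1 = z - 1 + 2 * (h : ℤ) := by ring
    rw [e1, e2]
    ring

/-- **Almost periodic environments.** If `p (z + 2h)` differs from `p z` by at most `ε`, then the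
derivative of the mean is at most `2h (1 + ε)^t`. -/
lemma dm_le (hp : IsEnv p) {h : ℕ} (hh : 0 < h) {ε : ℝ} (hε : ∀ z, |p (z + 2 * h) - p z| ≤ ε)
    (t : ℕ) : ∀ z, |mean p t (z + 2 * h) - 2 * h - mean p t z| ≤ 2 * h * ((1 + ε) ^ t - 1) ∧
      dm p t z ≤ 2 * h * (1 + ε) ^ t := by
  have key : ∀ t : ℕ, (∀ z, |mean p t (z + 2 * h) - 2 * h - mean p t z| ≤
      2 * h * ((1 + ε) ^ t - 1)) → ∀ z, dm p t z ≤ 2 * h * (1 + ε) ^ t := by
    intro t ht z
    have h1 := dm_sum (p := p) t z h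
    have h2 : dm p t z ≤ ∑ j ∈ Finset.range h, dm p t (z + 2 * j) := by
      have := Finset.single_le_sum (f := fun j : ℕ => dm p t (z + 2 * j))
        (fun j _ => dm_nonneg hp t _) (Finset.mem_range.2 hh)
      simpa using this
    have h3 := (abs_le.1 (ht (z - 1))).2
    rw [h1] at h2
    nlinarith
  have main : ∀ t : ℕ, ∀ z, |mean p t (z + 2 * h) - 2 * h - mean p t z| ≤
      2 * h * ((1 + ε) ^ t - 1) := by
    intro t
    induction t with
    | zero => intro z; rw [mean_zero, mean_zero]; push_cast; simp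
    | succ t ih =>
      intro z
      have hu := key t ih z
      have hu0 := dm_nonneg hp t z
      have e1 : mean p (t + 1) (z + 2 * h) - 2 * h - mean p (t + 1) z =
          p (z + 2 * h) * (mean p t (z + 1 + 2 * h) - 2 * h - mean p t (z + 1)) +
          (1 - p (z + 2 * h)) * (mean p t (z - 1 + 2 * h) - 2 * h - mean p t (z - 1)) +
          (p (z + 2 * h) - p z) * dm p t z := by
        rw [mean_succ, mean_succ, dm, show z + 2 * (h : ℤ) + 1 = z + 1 + 2 * h by ring,
          show z + 2 * (h : ℤ) - 1 = z - 1 + 2 * h by ring]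
        ring
      rw [e1]
      have a1 := ih (z + 1)
      have a2 := ih (z - 1)
      have a3 := hε z
      have b1 := (hp (z + 2 * h)).1
      have b2 : 0 ≤ 1 - p (z + 2 * h) := by linarith [(hp (z + 2 * h)).2]
      have hε0 : 0 ≤ ε := (abs_nonneg _).trans a3
      calc _ ≤ |p (z + 2 * h) * (mean p t (z + 1 + 2 * h) - 2 * h - mean p t (z + 1))| +
          |(1 - p (z + 2 * h)) * (mean p t (z - 1 + 2 * h) - 2 * h - mean p t (z - 1))| +
          |(p (z + 2 * h) - p z) * dm p t z| := abs_add_three _ _ _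
        _ ≤ p (z + 2 * h) * (2 * h * ((1 + ε) ^ t - 1)) +
          (1 - p (z + 2 * h)) * (2 * h * ((1 + ε) ^ t - 1)) + ε * (2 * h * (1 + ε) ^ t) := by
          rw [abs_mul, abs_mul, abs_mul, abs_of_nonneg b1, abs_of_nonneg b2, abs_of_nonneg hu0]
          gcongr
        _ = _ := by rw [pow_succ]; ring
  exact fun z => ⟨main t z, key t (main t) z⟩

lemma var_le_of_dm (hp : IsEnv p) {G : ℝ} {T : ℕ}
    (h : ∀ t < T, ∀ z, dm p t z ≤ G) : ∀ t ≤ T, ∀ z, var p t z ≤ t * (G ^ 2 / 4) := by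
  intro t
  induction t with
  | zero => intro _ z; rw [var_zero]; simp
  | succ t ih =>
    intro ht z
    rw [var_succ]
    have i1 := ih (by omega) (z + 1)
    have i2 := ih (by omega) (z - 1)
    have d1 := h t (by omega) z
    have d0 := dm_nonneg hp t z
    have p0 := (hp z).1
    have p1 := (hp z).2
    have h4 : p z * (1 - p z) ≤ 1 / 4 := by nlinarith [sq_nonneg (p z - 1 / 2)]
    have h5 : 0 ≤ p z * (1 - p z) := mul_nonneg p0 (by linarith)
    have h6 : (mean p t (z + 1) - mean p t (z - 1)) ^ 2 ≤ G ^ 2 := by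
      change (dm p t z) ^ 2 ≤ G ^ 2
      exact pow_le_pow_left₀ d0 d1 2
    have h7 : p z * (1 - p z) * (mean p t (z + 1) - mean p t (z - 1)) ^ 2 ≤ 1 / 4 * G ^ 2 :=
      mul_le_mul h4 h6 (sq_nonneg _) (by norm_num)
    push_cast
    have h8 : p z * var p t (z + 1) + (1 - p z) * var p t (z - 1) ≤ t * (G ^ 2 / 4) := by
      nlinarith
    linarith

/-- **Regime A.** -/
lemma var_le_periodic (hp : IsEnv p) {h : ℕ} (hh : 0 < h) {ε : ℝ}
    (hε : ∀ z, |p (z + 2 * h) - p z| ≤ ε) (T : ℕ) (z : ℤ) :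
    var p T z ≤ T * (h ^ 2 * Real.exp (2 * ε * T)) := by
  have hε0 : 0 ≤ ε := (abs_nonneg _).trans (hε 0)
  have h1 := var_le_of_dm hp (G := 2 * h * (1 + ε) ^ T) (T := T) (by
    intro t ht z
    refine ((dm_le hp hh hε t z).2).trans ?_
    gcongr
    · linarith) T le_rfl z
  refine h1.trans ?_
  have h2 : (1 + ε) ^ T ≤ Real.exp (ε * T) := by
    rw [mul_comm ε, Real.exp_nat_mul]
    gcongr
    linarith [Real.add_one_le_exp ε]
  have h3 : (2 * h * (1 + ε) ^ T) ^ 2 / 4 ≤ h ^ 2 * Real.exp (2 * ε * T) := by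
    have : Real.exp (2 * ε * T) = Real.exp (ε * T) ^ 2 := by
      rw [← Real.exp_nat_mul]; congr 1; push_cast; ring
    rw [this]
    have h4 : ((1 + ε) ^ T) ^ 2 ≤ Real.exp (ε * T) ^ 2 := by gcongr
    nlinarith [sq_nonneg (h : ℝ)]
  gcongr

end Pool.Agent.MP545af4
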